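import Mathlib

set_option autoImplicit false

/-!
# A small verified case-distinction checker for graphs on few vertices

Graphs on the vertices `0, …, 15` are coded by natural numbers (bit `16 i + j` is the pair
`(i, j)`). A tree `Tr` is a certificate: at a `br x y` node one distinguishes whether `x y` is an
edge; a leaf is closed by a path with `K` vertices, by a vertex of too large degree, or by
evaluating a predicate which is antitone in the set of the edges that are still possible.
-/

namespace Pool.Agent.Lib.MP_f77bf6_co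

def bit (E i j : ℕ) : Bool := E.testBit (16 * i + j)

def em (x y : ℕ) : ℕ := 2 ^ (16 * x + y) ||| 2 ^ (16 * y + x)

theorem bit_em {x y i j : ℕ} (hx : x < 16) (hy : y < 16) (_hi : i < 16) (hj : j < 16) :
    bit (em x y) i j = true ↔ (i = x ∧ j = y) ∨ (i = y ∧ j = x) := by
  unfold bit em
  rw [Nat.testBit_or, Nat.testBit_two_pow, Nat.testBit_two_pow]
  simp only [Bool.or_eq_true, decide_eq_true_eq]
  constructor
  · rintro (h | h)
    · left; omega
    · right; omega
  · rintro (⟨rfl, rfl⟩ | ⟨rfl, rfl⟩)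
    · left; rfl
    · right; rfl

theorem bit_or {E F i j : ℕ} : bit (E ||| F) i j = (bit E i j || bit F i j) := by
  unfold bit
  rw [Nat.testBit_or]

theorem bit_xor {E F i j : ℕ} : bit (E ^^^ F) i j = (bit E i j ^^ bit F i j) := by
  unfold bit
  rw [Nat.testBit_xor]

/-! ### Counting path lists -/

def sumTo (f : ℕ → ℕ) (n : ℕ) : ℕ := Nat.rec 0 (fun k ih => ih + f k) n

theorem sumTo_eq (f : ℕ → ℕ) (n : ℕ) : sumTo f n = ∑ x ∈ Finset.range n, f x := by
  induction n with
  | zero => rfl
  | succ n ih => rw [Finset.sum_range_succ, ← ih]; rfl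

/-- `∑ i < fuel, [bit i of c] * ih (x + i)`, written for fast evaluation. -/
def loop (ih : ℕ → ℕ) (fuel : ℕ) : ℕ → ℕ → ℕ :=
  Nat.rec (fun _ _ => 0) (fun _ rec c x =>
    Nat.rec (rec (Nat.shiftRight c 1) (Nat.succ x))
      (fun _ _ => Nat.add (ih x) (rec (Nat.shiftRight c 1) (Nat.succ x))) (Nat.land c 1)) fuel

theorem loop_eq (ih : ℕ → ℕ) (fuel : ℕ) : ∀ c x,
    loop ih fuel c x = ∑ i ∈ Finset.range fuel, bif c.testBit i then ih (x + i) else 0 := by
  induction fuel with
  | zero => intro c x; rfl
  | succ n IH =>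
    intro c x
    have hstep : loop ih (n + 1) c x =
        Nat.rec (loop ih n (Nat.shiftRight c 1) (Nat.succ x))
          (fun _ _ => Nat.add (ih x) (loop ih n (Nat.shiftRight c 1) (Nat.succ x)))
          (Nat.land c 1) := rfl
    have hsum : ∑ i ∈ Finset.range n, (bif (c >>> 1).testBit i then ih (x + 1 + i) else 0) =
        ∑ i ∈ Finset.range n, (bif c.testBit (i + 1) then ih (x + (i + 1)) else 0) := by
      apply Finset.sum_congr rfl
      intro i _
      rw [Nat.testBit_shiftRight, Nat.add_comm 1 i, Nat.add_assoc, Nat.add_comm 1 i]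
    have hrec : loop ih n (Nat.shiftRight c 1) (Nat.succ x) =
        ∑ i ∈ Finset.range n, (bif c.testBit (i + 1) then ih (x + (i + 1)) else 0) := by
      rw [← hsum]
      exact IH _ _
    rw [Finset.sum_range_succ', ← hrec]
    have hl : Nat.land c 1 = c % 2 := Nat.and_one_is_mod c
    have ht : c.testBit 0 = decide (c % 2 = 1) := Nat.testBit_zero c
    rcases Nat.mod_two_eq_zero_or_one c with h | h
    · rw [hstep, hl, ht, h]
      simp
    · rw [hstep, hl, ht, h]
      simp only [decide_true, cond_true, Nat.add_zero]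
      exact Nat.add_comm _ _

/-- The number of path lists of length `j` continuing a path that ends in `v` and has visited
`used`, and visiting all of `must` in total. -/
def ext (m E must : ℕ) (j : ℕ) : ℕ → ℕ → ℕ :=
  Nat.rec (fun _ used => Bool.rec 0 1 (Nat.beq (Nat.land used must) must))
    (fun _ ih v used => loop (fun x => ih x (Nat.lor used (Nat.pow 2 x))) m
      (Nat.land (Nat.shiftRight E (Nat.mul 16 v)) (Nat.xor 65535 used)) 0) j

theorem ext_zero (m E must v used : ℕ) :
    ext m E must 0 v used = bif Nat.beq (used &&& must) must then 1 else 0 := by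
  have h : ext m E must 0 v used =
      (Bool.rec (motive := fun _ => ℕ) 0 1 (Nat.beq (used &&& must) must) : ℕ) := rfl
  rw [h]
  cases Nat.beq (used &&& must) must <;> rfl

theorem testBit_65535 {x : ℕ} (hx : x < 16) : Nat.testBit 65535 x = true := by
  interval_cases x <;> decide

theorem ext_succ (m E must j v used : ℕ) (hm : m ≤ 16) :
    ext m E must (j + 1) v used = ∑ x ∈ Finset.range m,
      bif (bit E v x && !(used.testBit x)) then ext m E must j x (used ||| 2 ^ x) else 0 := by
  have h : ext m E must (j + 1) v used =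
      loop (fun x => ext m E must j x (used ||| 2 ^ x)) m
        ((E >>> (16 * v)) &&& (65535 ^^^ used)) 0 := rfl
  rw [h, loop_eq]
  apply Finset.sum_congr rfl
  intro x hx
  have hx16 : x < 16 := lt_of_lt_of_le (Finset.mem_range.mp hx) hm
  rw [Nat.testBit_and, Nat.testBit_xor, testBit_65535 hx16, Nat.testBit_shiftRight, Nat.zero_add]
  simp only [bit, Bool.true_xor]

theorem ext_bound (m E must : ℕ) (hm16 : m ≤ 16) : ∀ (j v used : ℕ) (T : Finset (List ℕ)),
    (∀ l ∈ T, l.length = j ∧ (∀ x ∈ l, x < m) ∧ List.IsChain (fun a b => bit E a b = true) (v :: l) ∧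
      l.Nodup ∧ (∀ x ∈ l, used.testBit x = false) ∧
      (∀ y, must.testBit y = true → used.testBit y = true ∨ y ∈ l)) →
    T.card ≤ ext m E must j v used := by
  intro j
  induction j with
  | zero =>
    intro v used T hT
    have hsub : T ⊆ {[]} := by
      intro l hl
      have := (hT l hl).1
      simp only [Finset.mem_singleton]
      exact List.length_eq_zero_iff.mp this
    rcases T.eq_empty_or_nonempty with h0 | ⟨l, hl⟩
    · rw [h0]
      simp
    · have hl0 : l = [] := by simpa using hsub hl
      subst hl0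
      have hm := (hT [] hl).2.2.2.2.2
      have heq : used &&& must = must := by
        apply Nat.eq_of_testBit_eq
        intro i
        rw [Nat.testBit_and]
        cases h : must.testBit i
        · simp
        · rcases hm i h with h1 | h1
          · simp [h1]
          · simp at h1
      rw [ext_zero, heq, Nat.beq_refl]
      simpa using Finset.card_le_card hsub
  | succ j ih =>
    intro v used T hT
    rw [ext_succ _ _ _ _ _ _ hm16]
    have hfib : T.card = ∑ x ∈ Finset.range m, (T.filter (fun l => l.headD 0 = x)).card := by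
      apply Finset.card_eq_sum_card_fiberwise
      intro l hl
      obtain ⟨h1, h2, -⟩ := hT l hl
      cases l with
      | nil => simp at h1
      | cons a l =>
        simp only [Finset.coe_range, Set.mem_Iio, List.headD_cons]
        exact h2 a (by simp)
    rw [hfib]
    apply Finset.sum_le_sum
    intro x _
    set Tx := T.filter (fun l => l.headD 0 = x) with hTx
    have hform : ∀ l ∈ Tx, ∃ l', l = x :: l' := by
      intro l hl
      rw [hTx, Finset.mem_filter] at hl
      obtain ⟨hl1, hl2⟩ := hl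
      have h1 := (hT l hl1).1
      cases l with
      | nil => simp at h1
      | cons a l =>
        simp only [List.headD_cons] at hl2
        exact ⟨l, by rw [hl2]⟩
    rcases Tx.eq_empty_or_nonempty with h0 | ⟨l₀, hl₀⟩
    · rw [h0]
      simp
    · have hmem : ∀ l ∈ Tx, l ∈ T := fun l hl => Finset.mem_of_mem_filter l hl
      obtain ⟨l₀', rfl⟩ := hform l₀ hl₀
      obtain ⟨-, -, hc, -, hu, -⟩ := hT _ (hmem _ hl₀)
      have hbit : bit E v x = true := by
        rw [List.isChain_cons_cons] at hc
        exact hc.1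
      have hused : used.testBit x = false := hu x (by simp)
      rw [hbit, hused]
      simp only [Bool.not_false, Bool.and_self, cond_true]
      have hcard : Tx.card = (Tx.image List.tail).card := by
        rw [Finset.card_image_of_injOn]
        intro a ha b hb hab
        obtain ⟨a', rfl⟩ := hform a ha
        obtain ⟨b', rfl⟩ := hform b hb
        simp only [List.tail_cons] at hab
        rw [hab]
      rw [hcard]
      apply ih
      intro l hl
      rw [Finset.mem_image] at hl
      obtain ⟨l2, hl2, rfl⟩ := hl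
      obtain ⟨l', rfl⟩ := hform l2 hl2
      obtain ⟨h1, h2, h3, h4, h5, h6⟩ := hT _ (hmem _ hl2)
      simp only [List.tail_cons]
      refine ⟨?_, ?_, ?_, ?_, ?_, ?_⟩
      · simpa using h1
      · intro y hy
        exact h2 y (by simp [hy])
      · rw [List.isChain_cons_cons] at h3
        exact h3.2
      · exact (List.nodup_cons.mp h4).2
      · intro y hy
        have hne : y ≠ x := by
          rintro rfl
          exact (List.nodup_cons.mp h4).1 hy
        rw [Nat.testBit_or, h5 y (by simp [hy]), Nat.testBit_two_pow]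
        simp [Ne.symm hne]
      · intro y hy
        rcases h6 y hy with h | h
        · left
          rw [Nat.testBit_or, h]
          simp
        · rw [List.mem_cons] at h
          rcases h with rfl | h
          · left
            rw [Nat.testBit_or, Nat.testBit_two_pow]
            simp
          · exact Or.inr h

def total (m E must : ℕ) : ℕ := loop (fun v => ext m E must 5 v (Nat.pow 2 v)) m 65535 0

theorem total_eq (m E must : ℕ) (hm : m ≤ 16) :
    total m E must = ∑ v ∈ Finset.range m, ext m E must 5 v (2 ^ v) := by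
  have h : total m E must = loop (fun v => ext m E must 5 v (2 ^ v)) m 65535 0 := rfl
  rw [h, loop_eq]
  apply Finset.sum_congr rfl
  intro x hx
  rw [testBit_65535 (lt_of_lt_of_le (Finset.mem_range.mp hx) hm), Nat.zero_add]
  rfl

theorem total_bound (m E must : ℕ) (hm16 : m ≤ 16) (T : Finset (List ℕ))
    (hT : ∀ l ∈ T, l.length = 6 ∧ (∀ x ∈ l, x < m) ∧ List.IsChain (fun a b => bit E a b = true) l ∧
      l.Nodup ∧ (∀ y, must.testBit y = true → y ∈ l)) :
    T.card ≤ total m E must := by
  rw [total_eq _ _ _ hm16]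
  have hfib : T.card = ∑ x ∈ Finset.range m, (T.filter (fun l => l.headD 0 = x)).card := by
    apply Finset.card_eq_sum_card_fiberwise
    intro l hl
    obtain ⟨h1, h2, -⟩ := hT l hl
    cases l with
    | nil => simp at h1
    | cons a l =>
      simp only [Finset.coe_range, Set.mem_Iio, List.headD_cons]
      exact h2 a (by simp)
  rw [hfib]
  apply Finset.sum_le_sum
  intro x _
  set Tx := T.filter (fun l => l.headD 0 = x) with hTx
  have hform : ∀ l ∈ Tx, ∃ l', l = x :: l' := by
    intro l hl
    rw [hTx, Finset.mem_filter] at hl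
    obtain ⟨hl1, hl2⟩ := hl
    have h1 := (hT l hl1).1
    cases l with
    | nil => simp at h1
    | cons a l =>
      simp only [List.headD_cons] at hl2
      exact ⟨l, by rw [hl2]⟩
  have hmem : ∀ l ∈ Tx, l ∈ T := fun l hl => Finset.mem_of_mem_filter l hl
  have hcard : Tx.card = (Tx.image List.tail).card := by
    rw [Finset.card_image_of_injOn]
    intro a ha b hb hab
    obtain ⟨a', rfl⟩ := hform a ha
    obtain ⟨b', rfl⟩ := hform b hb
    simp only [List.tail_cons] at hab
    rw [hab]
  rw [hcard]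
  apply ext_bound m E must hm16
  intro l hl
  rw [Finset.mem_image] at hl
  obtain ⟨l2, hl2, rfl⟩ := hl
  obtain ⟨l', rfl⟩ := hform l2 hl2
  obtain ⟨h1, h2, h3, h4, h6⟩ := hT _ (hmem _ hl2)
  simp only [List.tail_cons]
  refine ⟨?_, ?_, h3, ?_, ?_, ?_⟩
  · simpa using h1
  · intro y hy
    exact h2 y (by simp [hy])
  · exact (List.nodup_cons.mp h4).2
  · intro y hy
    have hne : y ≠ x := by
      rintro rfl
      exact (List.nodup_cons.mp h4).1 hy
    rw [Nat.testBit_two_pow]
    simp [Ne.symm hne]
  · intro y hy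
    have h := h6 y hy
    rw [List.mem_cons] at h
    rcases h with rfl | h
    · left
      rw [Nat.testBit_two_pow]
      simp
    · exact Or.inr h

/-! ### The checker -/

inductive Tr : Type
  | ok : Tr
  | bad : List ℕ → Tr
  | deg : ℕ → List ℕ → Tr
  | br : ℕ → ℕ → Tr → Tr → Tr

def chainB (E : ℕ) : List ℕ → Bool
  | [] => true
  | [_] => true
  | a :: b :: l => bit E a b && chainB E (b :: l)

def nodupB : List ℕ → Bool
  | [] => true
  | a :: l => !(l.elem a) && nodupB l

theorem nodupB_sound : ∀ l : List ℕ, nodupB l = true → l.Nodup := by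
  intro l
  induction l with
  | nil => intro _; simp
  | cons a l ih =>
    intro h
    simp only [nodupB, Bool.and_eq_true, Bool.not_eq_true', List.elem_eq_mem,
      decide_eq_false_iff_not] at h
    exact List.nodup_cons.mpr ⟨h.1, ih h.2⟩

theorem chainB_sound {E : ℕ} {R : ℕ → ℕ → Prop}
    (h : ∀ i j, i < 16 → j < 16 → bit E i j = true → R i j) :
    ∀ l : List ℕ, (∀ x ∈ l, x < 16) → chainB E l = true → l.IsChain R := by
  intro l
  induction l with
  | nil => intro _ _; simp
  | cons a l ih =>
    intro h1 h2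
    cases l with
    | nil => simp
    | cons b l =>
      simp only [chainB, Bool.and_eq_true] at h2
      rw [List.isChain_cons_cons]
      exact ⟨h a b (h1 a (by simp)) (h1 b (by simp)) h2.1,
        ih (fun x hx => h1 x (by simp [hx])) h2.2⟩

def chk (okf : ℕ → Bool) (K : ℕ) (D : List (ℕ × ℕ)) : Tr → ℕ → ℕ → Bool
  | .ok, _, E2 => okf E2
  | .bad p, E1, _ => Nat.beq p.length K && nodupB p && p.all (fun x => Nat.blt x 16) && chainB E1 p
  | .deg x p, E1, _ => D.any (fun q => Nat.beq q.1 x && Nat.blt q.2 p.length) && nodupB p &&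
      Nat.blt x 16 && p.all (fun y => Nat.blt y 16 && bit E1 x y)
  | .br x y a b, E1, E2 => Nat.blt x 16 && Nat.blt y 16 && chk okf K D a (E1 ||| em x y) E2 &&
      chk okf K D b E1 (E2 ^^^ em x y)

theorem blt_iff {a b : ℕ} : Nat.blt a b = true ↔ a < b := by
  unfold Nat.blt
  rw [Nat.ble_eq]
  exact Iff.rfl

theorem chk_sound {okf : ℕ → Bool} {K : ℕ} {D : List (ℕ × ℕ)} {R : ℕ → ℕ → Prop} {Φ : Prop}
    (hsymm : ∀ i j, R i j → R j i)
    (hK : ∀ p : List ℕ, p.Nodup → p.IsChain R → p.length ≠ K)
    (hD : ∀ q ∈ D, ∀ p : List ℕ, p.Nodup → (∀ y ∈ p, R q.1 y) → p.length ≤ q.2)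
    (hok : ∀ E2, okf E2 = true → (∀ i j, i < 16 → j < 16 → R i j → bit E2 i j = true) → Φ) :
    ∀ (t : Tr) (E1 E2 : ℕ), chk okf K D t E1 E2 = true →
      (∀ i j, i < 16 → j < 16 → bit E1 i j = true → R i j) →
      (∀ i j, i < 16 → j < 16 → R i j → bit E2 i j = true) → Φ := by
  intro t
  induction t with
  | ok =>
    intro E1 E2 h _ h2
    exact hok E2 h h2
  | bad p =>
    intro E1 E2 h h1 _
    simp only [chk, Bool.and_eq_true, List.all_eq_true, blt_iff] at h
    obtain ⟨⟨⟨ha, hb⟩, hc⟩, hd⟩ := h
    exact absurd (Nat.eq_of_beq_eq_true ha) (hK p (nodupB_sound p hb) (chainB_sound h1 p hc hd))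
  | deg x p =>
    intro E1 E2 h h1 _
    simp only [chk, Bool.and_eq_true, List.all_eq_true, blt_iff, List.any_eq_true] at h
    obtain ⟨⟨⟨⟨q, hq, hq1, hq2⟩, hb⟩, hx⟩, hd⟩ := h
    have hqx : q.1 = x := Nat.eq_of_beq_eq_true hq1
    have := hD q hq p (nodupB_sound p hb) (fun y hy => by
      rw [hqx]
      exact h1 x y hx (hd y hy).1 (hd y hy).2)
    omega
  | br x y a b iha ihb =>
    intro E1 E2 h h1 h2
    simp only [chk, Bool.and_eq_true, blt_iff] at h
    obtain ⟨⟨⟨hx, hy⟩, ha⟩, hb⟩ := h
    by_cases hR : R x y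
    · refine iha _ _ ha ?_ h2
      intro i j hi hj hij
      rw [bit_or, Bool.or_eq_true, bit_em hx hy hi hj] at hij
      rcases hij with h | ⟨rfl, rfl⟩ | ⟨rfl, rfl⟩
      · exact h1 i j hi hj h
      · exact hR
      · exact hsymm _ _ hR
    · refine ihb _ _ hb h1 ?_
      intro i j hi hj hij
      rw [bit_xor, h2 i j hi hj hij]
      have : bit (em x y) i j = false := by
        rw [← Bool.not_eq_true, bit_em hx hy hi hj]
        rintro (⟨rfl, rfl⟩ | ⟨rfl, rfl⟩)
        · exact hR hij
        · exact hR (hsymm _ _ hij)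
      rw [this]
      rfl

/-- The version for counts of six-vertex paths. -/
theorem count_sound {m must B K : ℕ} {D : List (ℕ × ℕ)} {R : ℕ → ℕ → Prop} (hm : m ≤ 16)
    (hsymm : ∀ i j, R i j → R j i)
    (hK : ∀ p : List ℕ, p.Nodup → p.IsChain R → p.length ≠ K)
    (hD : ∀ q ∈ D, ∀ p : List ℕ, p.Nodup → (∀ y ∈ p, R q.1 y) → p.length ≤ q.2)
    (t : Tr) (E1 E2 : ℕ) (h : chk (fun E => Nat.ble (total m E must) B) K D t E1 E2 = true)
    (h1 : ∀ i j, i < 16 → j < 16 → bit E1 i j = true → R i j)
    (h2 : ∀ i j, i < 16 → j < 16 → R i j → bit E2 i j = true)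
    (T : Finset (List ℕ))
    (hT : ∀ l ∈ T, l.length = 6 ∧ (∀ x ∈ l, x < m) ∧ List.IsChain R l ∧
      l.Nodup ∧ (∀ y, must.testBit y = true → y ∈ l)) :
    T.card ≤ B := by
  refine chk_sound (Φ := T.card ≤ B) hsymm hK hD ?_ t E1 E2 h h1 h2
  intro E hE hR
  rw [Nat.ble_eq] at hE
  refine le_trans (total_bound m E must hm T ?_) hE
  intro l hl
  obtain ⟨a1, a2, a3, a4, a5⟩ := hT l hl
  refine ⟨a1, a2, ?_, a4, a5⟩
  have : ∀ l : List ℕ, (∀ x ∈ l, x < m) → List.IsChain R l →
      List.IsChain (fun a b => bit E a b = true) l := by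
    intro l
    induction l with
    | nil => intro _ _; simp
    | cons a l ih =>
      intro h1 h2
      cases l with
      | nil => simp
      | cons b l =>
        rw [List.isChain_cons_cons] at h2 ⊢
        have ha := h1 a (by simp)
        have hb := h1 b (by simp)
        exact ⟨hR a b (by omega) (by omega) h2.1, ih (fun x hx => h1 x (by simp [hx])) h2.2⟩
  exact this l a2 a3

/-- Number of possible neighbours of `x` in the set coded by `M`. -/
def rowc (M E x : ℕ) : ℕ :=
  loop (fun _ => 1) 16 (Nat.land (Nat.shiftRight E (Nat.mul 16 x)) M) 0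

theorem rowc_bound {M E x : ℕ} {R : ℕ → ℕ → Prop}
    (h : ∀ j, j < 16 → R x j → bit E x j = true) (p : List ℕ) (hp : p.Nodup)
    (hR : ∀ y ∈ p, y < 16 ∧ M.testBit y = true ∧ R x y) : p.length ≤ rowc M E x := by
  rw [rowc, loop_eq, ← List.toFinset_card_of_nodup hp]
  have : ∀ y ∈ Finset.range 16,
      (bif (Nat.land (Nat.shiftRight E (Nat.mul 16 x)) M).testBit y then 1 else 0) =
      if (bit E x y = true ∧ M.testBit y = true) then 1 else 0 := by
    intro y _
    have h1 : (Nat.land (Nat.shiftRight E (Nat.mul 16 x)) M).testBit y =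
        (bit E x y && M.testBit y) := by
      change ((E >>> (16 * x)) &&& M).testBit y = _
      rw [Nat.testBit_and, Nat.testBit_shiftRight]
      rfl
    rw [h1]
    cases bit E x y <;> cases M.testBit y <;> simp
  rw [Finset.sum_congr rfl this, ← Finset.sum_filter, Finset.sum_const, smul_eq_mul, mul_one]
  apply Finset.card_le_card
  intro y hy
  rw [List.mem_toFinset] at hy
  obtain ⟨h1, h2, h3⟩ := hR y hy
  rw [Finset.mem_filter, Finset.mem_range]
  exact ⟨h1, h y h1 h3, h2⟩

/-- The version for degrees. -/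
theorem deg_sound {M a b B K : ℕ} {D : List (ℕ × ℕ)} {R : ℕ → ℕ → Prop} (ha : a < 16) (hb : b < 16)
    (hsymm : ∀ i j, R i j → R j i)
    (hK : ∀ p : List ℕ, p.Nodup → p.IsChain R → p.length ≠ K)
    (hD : ∀ q ∈ D, ∀ p : List ℕ, p.Nodup → (∀ y ∈ p, R q.1 y) → p.length ≤ q.2)
    (t : Tr) (E1 E2 : ℕ)
    (h : chk (fun E => Nat.ble (rowc M E a) B || Nat.ble (rowc M E b) B) K D t E1 E2 = true)
    (h1 : ∀ i j, i < 16 → j < 16 → bit E1 i j = true → R i j)
    (h2 : ∀ i j, i < 16 → j < 16 → R i j → bit E2 i j = true) :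
    (∀ p : List ℕ, p.Nodup → (∀ y ∈ p, y < 16 ∧ M.testBit y = true ∧ R a y) → p.length ≤ B) ∨
    (∀ p : List ℕ, p.Nodup → (∀ y ∈ p, y < 16 ∧ M.testBit y = true ∧ R b y) → p.length ≤ B) := by
  refine chk_sound (Φ := _) hsymm hK hD ?_ t E1 E2 h h1 h2
  intro E hE hR
  rw [Bool.or_eq_true, Nat.ble_eq, Nat.ble_eq] at hE
  rcases hE with hE | hE
  · left
    intro p hp hy
    exact le_trans (rowc_bound (fun j hj => hR a j ha hj) p hp hy) hE
  · right
    intro p hp hy
    exact le_trans (rowc_bound (fun j hj => hR b j hb hj) p hp hy) hE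

/-! ### Coding edge lists -/

def ofEdges (L : List (ℕ × ℕ)) : ℕ := L.foldr (fun e E => em e.1 e.2 ||| E) 0

theorem bit_ofEdges {i j : ℕ} (hi : i < 16) (hj : j < 16) : ∀ L : List (ℕ × ℕ),
    (∀ e ∈ L, e.1 < 16 ∧ e.2 < 16) →
    (bit (ofEdges L) i j = true ↔ ∃ e ∈ L, (i = e.1 ∧ j = e.2) ∨ (i = e.2 ∧ j = e.1)) := by
  intro L
  induction L with
  | nil =>
    intro _
    simp [ofEdges, bit]
  | cons e L ih =>
    intro h
    have h1 : ofEdges (e :: L) = em e.1 e.2 ||| ofEdges L := rfl
    rw [h1, bit_or, Bool.or_eq_true, bit_em (h e (by simp)).1 (h e (by simp)).2 hi hj,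
      ih (fun e' he' => h e' (by simp [he']))]
    simp only [List.mem_cons, exists_eq_or_imp]

def pairs (n : ℕ) : List (ℕ × ℕ) :=
  (List.range n).flatMap (fun y => (List.range y).map (fun x => (x, y)))

def full (n : ℕ) : ℕ := ofEdges (pairs n)

theorem bit_full {n i j : ℕ} (hn : n ≤ 16) (hi : i < n) (hj : j < n) (hij : i ≠ j) :
    bit (full n) i j = true := by
  have hp : ∀ e ∈ pairs n, e.1 < 16 ∧ e.2 < 16 := by
    intro e he
    simp only [pairs, List.mem_flatMap, List.mem_range, List.mem_map] at he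
    obtain ⟨y, hy, x, hx, rfl⟩ := he
    constructor <;> simp only <;> omega
  rw [full, bit_ofEdges (by omega) (by omega) _ hp]
  rcases Nat.lt_or_ge i j with h | h
  · refine ⟨(i, j), ?_, Or.inl ⟨rfl, rfl⟩⟩
    simp only [pairs, List.mem_flatMap, List.mem_range, List.mem_map]
    exact ⟨j, hj, i, h, rfl⟩
  · refine ⟨(j, i), ?_, Or.inr ⟨rfl, rfl⟩⟩
    simp only [pairs, List.mem_flatMap, List.mem_range, List.mem_map]
    exact ⟨i, hi, j, by omega, rfl⟩

end Pool.Agent.Lib.MP_f77bf6_co
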