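import Mathlib
import Pool.Agent.Lib.MP_f77bf6_co.Check

set_option autoImplicit false
set_option linter.unusedSectionVars false
set_option linter.unusedVariables false

/-!
# Ordered paths in a graph, transfer to the checker
-/

namespace Pool.Agent.Lib.MP_f77bf6_co

open Finset

variable {V : Type*} [DecidableEq V] (G : SimpleGraph V)

/-- `l` is (the vertex sequence of) a path of `G` inside `A`. -/
def IsP (A : Finset V) (l : List V) : Prop := l.Nodup ∧ l.IsChain G.Adj ∧ ∀ x ∈ l, x ∈ A

/-- All paths inside `A` have fewer than `K` vertices. -/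
def Short (A : Finset V) (K : ℕ) : Prop := ∀ l, IsP G A l → l.length < K

variable {G}

theorem IsP.take {A : Finset V} {l : List V} (h : IsP G A l) (n : ℕ) : IsP G A (l.take n) :=
  ⟨h.1.sublist (List.take_sublist n l), h.2.1.take n, fun x hx => h.2.2 x (List.mem_of_mem_take hx)⟩

theorem IsP.reverse {A : Finset V} {l : List V} (h : IsP G A l) : IsP G A l.reverse := by
  refine ⟨List.nodup_reverse.mpr h.1, ?_, fun x hx => h.2.2 x (List.mem_reverse.mp hx)⟩
  rw [List.isChain_reverse]
  exact h.2.1.imp (fun a b hab => hab.symm)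

theorem IsP.mono {A B : Finset V} (hAB : A ⊆ B) {l : List V} (h : IsP G A l) : IsP G B l :=
  ⟨h.1, h.2.1, fun x hx => hAB (h.2.2 x hx)⟩

theorem Short.mono {A B : Finset V} (hAB : A ⊆ B) {K : ℕ} (h : Short G B K) : Short G A K :=
  fun l hl => h l (hl.mono hAB)

/-- If no path has exactly `K` vertices then all paths are shorter. -/
theorem short_of_ne {A : Finset V} {K : ℕ} (h : ∀ l, IsP G A l → l.length ≠ K) : Short G A K := by
  intro l hl
  by_contra hlt
  rw [not_lt] at hlt
  refine h _ (hl.take K) ?_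
  rw [List.length_take]
  omega

/-! ### The relation on indices -/

variable (G)

def RL (l : List V) (i j : ℕ) : Prop := ∃ a b, l[i]? = some a ∧ l[j]? = some b ∧ G.Adj a b

variable {G}

theorem RL.symm {l : List V} {i j : ℕ} (h : RL G l i j) : RL G l j i := by
  obtain ⟨a, b, h1, h2, h3⟩ := h
  exact ⟨b, a, h2, h1, h3.symm⟩

theorem RL.lt_left {l : List V} {i j : ℕ} (h : RL G l i j) : i < l.length := by
  obtain ⟨a, b, h1, h2, h3⟩ := h
  exact (List.getElem?_eq_some_iff.mp h1).1

theorem RL.lt_right {l : List V} {i j : ℕ} (h : RL G l i j) : j < l.length := h.symm.lt_left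

theorem RL.ne {l : List V} {i j : ℕ} (h : RL G l i j) : i ≠ j := by
  rintro rfl
  obtain ⟨a, b, h1, h2, h3⟩ := h
  rw [h1] at h2
  injection h2 with h2
  exact G.loopless.irrefl a (h2 ▸ h3)

theorem chain_mem {R : ℕ → ℕ → Prop} : ∀ p : List ℕ, p.IsChain R → 2 ≤ p.length →
    ∀ x ∈ p, ∃ y, R x y ∨ R y x := by
  intro p
  induction p with
  | nil => intro _ _ x hx; simp at hx
  | cons a p ih =>
    intro h1 h2 x hx
    cases p with
    | nil => simp at h2
    | cons b p =>
      rw [List.isChain_cons_cons] at h1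
      rw [List.mem_cons] at hx
      rcases hx with rfl | hx
      · exact ⟨b, Or.inl h1.1⟩
      · cases p with
        | nil =>
          simp only [List.mem_singleton] at hx
          subst hx
          exact ⟨a, Or.inr h1.1⟩
        | cons c p => exact ih h1.2 (by simp) x hx

theorem getElem?_inj_of_nodup {l : List V} (hn : l.Nodup) {i j : ℕ} {a : V}
    (hi : l[i]? = some a) (hj : l[j]? = some a) : i = j := by
  obtain ⟨h1, h2⟩ := List.getElem?_eq_some_iff.mp hi
  obtain ⟨h3, h4⟩ := List.getElem?_eq_some_iff.mp hj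
  exact (List.Nodup.getElem_inj_iff hn).mp (h2.trans h4.symm)

/-- A nodup index list inside the range gives a nodup list of vertices. -/
theorem exists_map {l : List V} (hn : l.Nodup) (p : List ℕ) (hp : p.Nodup)
    (hlt : ∀ x ∈ p, x < l.length) (hne : p ≠ []) : ∃ f : ℕ → V, (p.map f).Nodup ∧
      (∀ x ∈ p, l[x]? = some (f x)) := by
  have h0 : 0 < l.length := by
    obtain ⟨x, hx⟩ := List.exists_mem_of_ne_nil p hne
    exact lt_of_le_of_lt (Nat.zero_le _) (hlt x hx)
  have key : ∀ x ∈ p, l[x]? = some (if h : x < l.length then l[x] else l[0]) := by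
    intro x hx
    rw [List.getElem?_eq_getElem (hlt x hx), dif_pos (hlt x hx)]
  refine ⟨fun i => if h : i < l.length then l[i] else l[0], ?_, key⟩
  apply List.Nodup.map_on _ hp
  intro x hx y hy hxy
  have h1 := key x hx
  have h2 := key y hy
  rw [← hxy] at h2
  exact getElem?_inj_of_nodup hn h1 h2

theorem noK_of_short {A : Finset V} {K : ℕ} (hK : 2 ≤ K) (hs : Short G A K) {l : List V}
    (hn : l.Nodup) (hA : ∀ x ∈ l, x ∈ A) :
    ∀ p : List ℕ, p.Nodup → p.IsChain (RL G l) → p.length ≠ K := by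
  intro p hp hc hlen
  have hlt : ∀ x ∈ p, x < l.length := by
    intro x hx
    obtain ⟨y, h | h⟩ := chain_mem p hc (by omega) x hx
    · exact h.lt_left
    · exact h.lt_right
  have hne : p ≠ [] := by
    rintro rfl
    simp at hlen
    omega
  obtain ⟨f, hf1, hf2⟩ := exists_map hn p hp hlt hne
  have hP : IsP G A (p.map f) := by
    refine ⟨hf1, ?_, ?_⟩
    · rw [List.isChain_map]
      have : ∀ q : List ℕ, (∀ x ∈ q, l[x]? = some (f x)) → q.IsChain (RL G l) →
          q.IsChain (fun a b => G.Adj (f a) (f b)) := by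
        intro q
        induction q with
        | nil => intro _ _; simp
        | cons a q ih =>
          intro h1 h2
          cases q with
          | nil => simp
          | cons b q =>
            rw [List.isChain_cons_cons] at h2 ⊢
            refine ⟨?_, ih (fun x hx => h1 x (by simp [hx])) h2.2⟩
            obtain ⟨c, d, e1, e2, e3⟩ := h2.1
            rw [h1 a (by simp)] at e1
            rw [h1 b (by simp)] at e2
            injection e1 with e1
            injection e2 with e2
            rw [e1, e2]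
            exact e3
      exact this p hf2 hc
    · intro x hx
      rw [List.mem_map] at hx
      obtain ⟨i, hi, rfl⟩ := hx
      exact hA _ (List.mem_of_getElem? (hf2 i hi))
  have := hs _ hP
  rw [List.length_map] at this
  omega

theorem deg_of_card {l : List V} (hn : l.Nodup) {B : Finset V} {i d : ℕ} {x : V}
    [DecidableRel G.Adj]
    (hi : l[i]? = some x) (hB : ∀ (j : ℕ) (y : V), l[j]? = some y → G.Adj x y → y ∈ B)
    (hd : (B.filter (G.Adj x)).card ≤ d) :
    ∀ p : List ℕ, p.Nodup → (∀ y ∈ p, RL G l i y) → p.length ≤ d := by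
  intro p hp hR
  by_cases hne : p = []
  · subst hne; simp
  obtain ⟨f, hf1, hf2⟩ := exists_map hn p hp (fun y hy => (hR y hy).lt_right) hne
  rw [← List.length_map (f := f), ← List.toFinset_card_of_nodup hf1]
  refine le_trans (Finset.card_le_card ?_) hd
  intro y hy
  rw [List.mem_toFinset, List.mem_map] at hy
  obtain ⟨j, hj, rfl⟩ := hy
  obtain ⟨a, b, h1, h2, h3⟩ := hR j hj
  rw [hi] at h1
  injection h1 with h1
  rw [hf2 j hj] at h2
  injection h2 with h2
  rw [← h1, ← h2] at h3
  rw [Finset.mem_filter]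
  exact ⟨hB j _ (hf2 j hj) h3, h3⟩

theorem card_of_deg {l : List V} {B : Finset V} {i d M : ℕ} {x : V} [DecidableRel G.Adj]
    (hi : l[i]? = some x) (hl : l.length ≤ 16)
    (hB : ∀ y ∈ B, G.Adj x y → y ∈ l ∧ M.testBit (l.idxOf y) = true)
    (hd : ∀ p : List ℕ, p.Nodup → (∀ y ∈ p, y < 16 ∧ M.testBit y = true ∧ RL G l i y) →
      p.length ≤ d) :
    (B.filter (G.Adj x)).card ≤ d := by
  have hmem : ∀ y ∈ (B.filter (G.Adj x)).toList, y ∈ l ∧ G.Adj x y ∧
      M.testBit (l.idxOf y) = true := by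
    intro y hy
    rw [Finset.mem_toList, Finset.mem_filter] at hy
    exact ⟨(hB y hy.1 hy.2).1, hy.2, (hB y hy.1 hy.2).2⟩
  have h := hd ((B.filter (G.Adj x)).toList.map (fun y => l.idxOf y)) ?_ ?_
  · rw [List.length_map, Finset.length_toList] at h
    exact h
  · apply List.Nodup.map_on _ (Finset.nodup_toList _)
    intro a ha b hb hab
    exact (List.idxOf_inj (hmem a ha).1).mp hab
  · intro j hj
    rw [List.mem_map] at hj
    obtain ⟨y, hy, rfl⟩ := hj
    obtain ⟨h1, h2, h3⟩ := hmem y hy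
    have hlt : l.idxOf y < l.length := List.idxOf_lt_length_iff.mpr h1
    exact ⟨by omega, h3, x, y, hi, List.getElem?_idxOf h1, h2⟩

/-! ### Ordered six-vertex paths -/

variable (G) in
/-- The ordered six-vertex paths of `G` inside `A`. -/
def PT [Fintype V] [DecidableRel G.Adj] (A : Finset V) : Finset (Fin 6 → V) :=
  univ.filter (fun w => Function.Injective w ∧
    (∀ i : Fin 5, G.Adj (w i.castSucc) (w i.succ)) ∧ ∀ i, w i ∈ A)

variable [Fintype V] [DecidableRel G.Adj]

theorem mem_PT {A : Finset V} {w : Fin 6 → V} : w ∈ PT G A ↔ Function.Injective w ∧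
    (∀ i : Fin 5, G.Adj (w i.castSucc) (w i.succ)) ∧ ∀ i, w i ∈ A := by
  simp [PT]

theorem PT_mono {A B : Finset V} (h : A ⊆ B) : PT G A ⊆ PT G B := by
  intro w hw
  rw [mem_PT] at hw ⊢
  exact ⟨hw.1, hw.2.1, fun i => h (hw.2.2 i)⟩

theorem isP_ofFn {A : Finset V} {w : Fin 6 → V} (h : w ∈ PT G A) : IsP G A (List.ofFn w) := by
  rw [mem_PT] at h
  obtain ⟨h1, h2, h3⟩ := h
  refine ⟨List.nodup_ofFn.mpr h1, ?_, ?_⟩
  · rw [List.isChain_ofFn]
    intro i hi
    exact h2 ⟨i, by omega⟩
  · intro x hx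
    rw [List.mem_ofFn] at hx
    obtain ⟨i, rfl⟩ := hx
    exact h3 i

/-- **Transfer.** Counting ordered six-vertex paths inside a short list of vertices. -/
theorem core {A : Finset V} {K m must B n : ℕ} {D : List (ℕ × ℕ)} {t : Tr}
    {L F : List (ℕ × ℕ)} (l : List V)
    (hc : chk (fun E => Nat.ble (total m E must) B) K D t (ofEdges L)
      (full n ^^^ ofEdges F) = true)
    (hln : l.length = n) (hn16 : n ≤ 16) (hmn : m ≤ n) (hK2 : 2 ≤ K)
    (hn : l.Nodup) (hA : ∀ x ∈ l, x ∈ A) (hshort : Short G A K)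
    (hD : ∀ q ∈ D, ∀ p : List ℕ, p.Nodup → (∀ y ∈ p, RL G l q.1 y) → p.length ≤ q.2)
    (hL : ∀ e ∈ L, RL G l e.1 e.2) (hF : ∀ e ∈ F, e.1 < 16 ∧ e.2 < 16 ∧ ¬ RL G l e.1 e.2)
    (W : Finset (Fin 6 → V))
    (hW : ∀ w ∈ W, w ∈ PT G A ∧ (∀ i, w i ∈ l ∧ l.idxOf (w i) < m) ∧
      (∀ y, must.testBit y = true → ∃ i, l.idxOf (w i) = y)) : W.card ≤ B := by
  have hLlt : ∀ e ∈ L, e.1 < 16 ∧ e.2 < 16 := fun e he =>
    ⟨by have := (hL e he).lt_left; omega, by have := (hL e he).lt_right; omega⟩
  have hFlt : ∀ e ∈ F, e.1 < 16 ∧ e.2 < 16 := fun e he => ⟨(hF e he).1, (hF e he).2.1⟩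
  let φ : (Fin 6 → V) → List ℕ := fun w => (List.ofFn w).map (fun x => l.idxOf x)
  have hinj : Set.InjOn φ W := by
    intro w hw w' hw' h
    have h1 : ∀ i, l.idxOf (w i) = l.idxOf (w' i) := by
      intro i
      have h2 : φ w = List.ofFn (fun i => l.idxOf (w i)) := by
        simp only [φ, List.map_ofFn]
        rfl
      have h3 : φ w' = List.ofFn (fun i => l.idxOf (w' i)) := by
        simp only [φ, List.map_ofFn]
        rfl
      rw [h2, h3] at h
      exact congrFun (List.ofFn_injective h) i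
    funext i
    exact (List.idxOf_inj ((hW w hw).2.1 i).1).mp (h1 i)
  rw [← Finset.card_image_of_injOn hinj]
  refine count_sound (K := K) (D := D) (R := RL G l) (m := m) (must := must) (by omega)
    (fun i j h => h.symm) (noK_of_short hK2 hshort hn hA) hD t _ _ hc ?_ ?_ _ ?_
  · intro i j hi hj h
    rw [bit_ofEdges hi hj L hLlt] at h
    obtain ⟨e, he, ⟨rfl, rfl⟩ | ⟨rfl, rfl⟩⟩ := h
    · exact hL e he
    · exact (hL e he).symm
  · intro i j hi hj h
    have h1 : bit (full n) i j = true :=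
      bit_full hn16 (by have := h.lt_left; omega) (by have := h.lt_right; omega) h.ne
    have h2 : bit (ofEdges F) i j = false := by
      rw [← Bool.not_eq_true, bit_ofEdges hi hj F hFlt]
      rintro ⟨e, he, ⟨rfl, rfl⟩ | ⟨rfl, rfl⟩⟩
      · exact (hF e he).2.2 h
      · exact (hF e he).2.2 h.symm
    rw [bit_xor, h1, h2]
    rfl
  · intro q hq
    rw [Finset.mem_image] at hq
    obtain ⟨w, hw, rfl⟩ := hq
    obtain ⟨h1, h2, h3⟩ := hW w hw
    have hP := isP_ofFn h1
    have hmem : ∀ x ∈ List.ofFn w, x ∈ l := by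
      intro x hx
      rw [List.mem_ofFn] at hx
      obtain ⟨i, rfl⟩ := hx
      exact (h2 i).1
    refine ⟨by simp [φ], ?_, ?_, ?_, ?_⟩
    · intro x hx
      rw [List.mem_map] at hx
      obtain ⟨y, hy, rfl⟩ := hx
      rw [List.mem_ofFn] at hy
      obtain ⟨i, rfl⟩ := hy
      exact (h2 i).2
    · simp only [φ]
      rw [List.isChain_map]
      have : ∀ q : List V, (∀ x ∈ q, x ∈ l) → q.IsChain G.Adj →
          q.IsChain (fun a b => RL G l (l.idxOf a) (l.idxOf b)) := by
        intro q
        induction q with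
        | nil => intro _ _; simp
        | cons a q ih =>
          intro h1 h2
          cases q with
          | nil => simp
          | cons b q =>
            rw [List.isChain_cons_cons] at h2 ⊢
            exact ⟨⟨a, b, List.getElem?_idxOf (h1 a (by simp)),
              List.getElem?_idxOf (h1 b (by simp)), h2.1⟩,
              ih (fun x hx => h1 x (by simp [hx])) h2.2⟩
      exact this _ hmem hP.2.1
    · apply List.Nodup.map_on _ hP.1
      intro a ha b hb hab
      exact (List.idxOf_inj (hmem a ha)).mp hab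
    · intro y hy
      obtain ⟨i, hi⟩ := h3 y hy
      rw [List.mem_map]
      exact ⟨w i, List.mem_ofFn.mpr ⟨i, rfl⟩, hi⟩

/-- **Transfer for degrees.** -/
theorem core_deg {A : Finset V} {K M a b B n : ℕ} {t : Tr}
    {L : List (ℕ × ℕ)} (l : List V)
    (hc : chk (fun E => Nat.ble (rowc M E a) B || Nat.ble (rowc M E b) B) K [] t (ofEdges L)
      (full n ^^^ ofEdges []) = true)
    (ha : a < 16) (hb : b < 16)
    (hln : l.length = n) (hn16 : n ≤ 16) (hK2 : 2 ≤ K)
    (hn : l.Nodup) (hA : ∀ x ∈ l, x ∈ A) (hshort : Short G A K)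
    (hL : ∀ e ∈ L, RL G l e.1 e.2) :
    (∀ p : List ℕ, p.Nodup → (∀ y ∈ p, y < 16 ∧ M.testBit y = true ∧ RL G l a y) →
      p.length ≤ B) ∨
    (∀ p : List ℕ, p.Nodup → (∀ y ∈ p, y < 16 ∧ M.testBit y = true ∧ RL G l b y) →
      p.length ≤ B) := by
  have hLlt : ∀ e ∈ L, e.1 < 16 ∧ e.2 < 16 := fun e he =>
    ⟨by have := (hL e he).lt_left; omega, by have := (hL e he).lt_right; omega⟩
  refine deg_sound (K := K) (D := []) (R := RL G l) ha hb
    (fun i j h => h.symm) (noK_of_short hK2 hshort hn hA) (by simp) t _ _ hc ?_ ?_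
  · intro i j hi hj h
    rw [bit_ofEdges hi hj L hLlt] at h
    obtain ⟨e, he, ⟨rfl, rfl⟩ | ⟨rfl, rfl⟩⟩ := h
    · exact hL e he
    · exact (hL e he).symm
  · intro i j hi hj h
    have h1 : bit (full n) i j = true :=
      bit_full hn16 (by have := h.lt_left; omega) (by have := h.lt_right; omega) h.ne
    have h2 : bit (ofEdges []) i j = false := by
      simp [ofEdges, bit]
    rw [bit_xor, h1, h2]
    rfl

end Pool.Agent.Lib.MP_f77bf6_co
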