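import Mathlib
import Pool.Agent.Lib.MP_f77bf6_co.Basic

set_option autoImplicit false
set_option linter.unusedSectionVars false
set_option linter.unusedVariables false

/-!
# Summing the local bounds over the sets of outside vertices
-/

namespace Pool.Agent.Lib.MP_f77bf6_co

open Finset

theorem pat4 : ∀ (b : Fin 6 → Bool) (j : Fin 6), b j = false →
    (∀ i : Fin 5, (i.castSucc = j → b i.succ = false) ∧ (i.succ = j → b i.castSucc = false)) →
    4 ≤ (univ.filter (fun i => b i = true)).card →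
    (b 1 = false ∧ b 2 = true ∧ b 3 = true ∧ b 4 = true ∧ b 5 = true) ∨
    (b 4 = false ∧ b 3 = true ∧ b 2 = true ∧ b 1 = true ∧ b 0 = true) := by
  decide +kernel

theorem pat3 : ∀ (b : Fin 6 → Bool) (j : Fin 6), b j = false →
    (∀ i : Fin 5, (i.castSucc = j → b i.succ = false) ∧ (i.succ = j → b i.castSucc = false)) →
    3 ≤ (univ.filter (fun i => b i = true)).card →
    ∃ i : Fin 4, (b i.castSucc.castSucc = false ∧ b i.castSucc.succ = true ∧
        b i.succ.succ = true) ∨
      (b i.castSucc.castSucc = true ∧ b i.castSucc.succ = true ∧ b i.succ.succ = false) := by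
  decide +kernel

variable {V : Type*} [DecidableEq V] {G : SimpleGraph V} [Fintype V] [DecidableRel G.Adj]

/-- `O` has no path with four vertices that starts at a vertex with a neighbour in `Q`. -/
def NoTail4 (G : SimpleGraph V) (Q O : Finset V) : Prop :=
  ∀ p ∈ Q, ∀ a ∈ O, ∀ b ∈ O, ∀ c ∈ O, ∀ d ∈ O, a ≠ c → a ≠ d → b ≠ d →
    G.Adj p a → G.Adj a b → G.Adj b c → G.Adj c d → False

section
variable {A Q : Finset V} {v : V}

theorem out_card {w : Fin 6 → V} (hw : Function.Injective w) :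
    ((univ.image w) \ Q).card = (univ.filter (fun i => decide (w i ∉ Q) = true)).card := by
  have : (univ.image w) \ Q = (univ.filter (fun i => decide (w i ∉ Q) = true)).image w := by
    ext x
    simp only [mem_sdiff, mem_image, mem_univ, true_and, mem_filter, decide_eq_true_eq]
    constructor
    · rintro ⟨⟨i, rfl⟩, h⟩
      exact ⟨i, h, rfl⟩
    · rintro ⟨i, h, rfl⟩
      exact ⟨⟨i, rfl⟩, h⟩
  rw [this, card_image_of_injective _ hw]

theorem pattern_hyp (hN : ∀ x ∈ A, G.Adj v x → x ∈ Q) {w : Fin 6 → V} (hw : w ∈ PT G A)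
    {j : Fin 6} (hj : w j = v) : ∀ i : Fin 5,
    (i.castSucc = j → decide (w i.succ ∉ Q) = false) ∧
    (i.succ = j → decide (w i.castSucc ∉ Q) = false) := by
  rw [mem_PT] at hw
  obtain ⟨-, h2, h3⟩ := hw
  intro i
  constructor
  · rintro rfl
    have := h2 i
    rw [hj] at this
    simp only [decide_eq_false_iff_not, not_not]
    exact hN _ (h3 _) this
  · rintro rfl
    have := (h2 i).symm
    rw [hj] at this
    simp only [decide_eq_false_iff_not, not_not]
    exact hN _ (h3 _) this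

theorem out_le_three (hv : v ∈ Q) (hN : ∀ x ∈ A, G.Adj v x → x ∈ Q)
    (h4 : NoTail4 G Q (A \ Q)) {w : Fin 6 → V} (hw : w ∈ PT G A) {j : Fin 6} (hj : w j = v) :
    ((univ.image w) \ Q).card ≤ 3 := by
  have hw' := hw
  rw [mem_PT] at hw'
  obtain ⟨h1, h2, h3⟩ := hw'
  rw [out_card h1]
  by_contra hlt
  have hge : 4 ≤ (univ.filter (fun i => decide (w i ∉ Q) = true)).card := by omega
  have hO : ∀ i, decide (w i ∉ Q) = true → w i ∈ A \ Q := by
    intro i hi
    rw [mem_sdiff]
    exact ⟨h3 i, by simpa using hi⟩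
  have hQ : ∀ i, decide (w i ∉ Q) = false → w i ∈ Q := by
    intro i hi
    simpa using hi
  rcases pat4 (fun i => decide (w i ∉ Q)) j (by simp [hj, hv]) (pattern_hyp hN hw hj) hge with
    ⟨e1, e2, e3, e4, e5⟩ | ⟨e1, e2, e3, e4, e5⟩
  · exact h4 _ (hQ _ e1) _ (hO _ e2) _ (hO _ e3) _ (hO _ e4) _ (hO _ e5)
      (fun h => absurd (h1 h) (by decide)) (fun h => absurd (h1 h) (by decide))
      (fun h => absurd (h1 h) (by decide)) (h2 1) (h2 2) (h2 3) (h2 4)
  · exact h4 _ (hQ _ e1) _ (hO _ e2) _ (hO _ e3) _ (hO _ e4) _ (hO _ e5)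
      (fun h => absurd (h1 h) (by decide)) (fun h => absurd (h1 h) (by decide))
      (fun h => absurd (h1 h) (by decide)) (h2 3).symm (h2 2).symm (h2 1).symm (h2 0).symm

theorem out_tail (hv : v ∈ Q) (hN : ∀ x ∈ A, G.Adj v x → x ∈ Q)
    {w : Fin 6 → V} (hw : w ∈ PT G A) {j : Fin 6} (hj : w j = v)
    (h3c : 3 ≤ ((univ.image w) \ Q).card) :
    ∃ p ∈ Q, ∃ a ∈ (univ.image w) \ Q, ∃ b ∈ (univ.image w) \ Q, a ≠ b ∧ G.Adj p a ∧
      G.Adj a b := by
  have hw' := hw
  rw [mem_PT] at hw'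
  obtain ⟨h1, h2, h3⟩ := hw'
  rw [out_card h1] at h3c
  have hO : ∀ i, decide (w i ∉ Q) = true → w i ∈ (univ.image w) \ Q := by
    intro i hi
    rw [mem_sdiff]
    exact ⟨mem_image_of_mem _ (mem_univ _), by simpa using hi⟩
  have hQ : ∀ i, decide (w i ∉ Q) = false → w i ∈ Q := by
    intro i hi
    simpa using hi
  obtain ⟨i, ⟨e1, e2, e3⟩ | ⟨e1, e2, e3⟩⟩ :=
    pat3 (fun i => decide (w i ∉ Q)) j (by simp [hj, hv]) (pattern_hyp hN hw hj) h3c
  · refine ⟨_, hQ _ e1, _, hO _ e2, _, hO _ e3, ?_, ?_, ?_⟩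
    · intro h
      have := congrArg Fin.val (h1 h)
      simp at this
    · exact h2 i.castSucc
    · exact h2 i.succ
  · refine ⟨_, hQ _ e3, _, hO _ e2, _, hO _ e1, ?_, ?_, ?_⟩
    · intro h
      have := congrArg Fin.val (h1 h)
      simp at this
    · exact (h2 i.succ).symm
    · exact (h2 i.castSucc).symm

variable (G A Q v) in
/-- The ordered six-vertex paths in `A` through `v` whose set of vertices outside `Q` is `S`. -/
def Fb (S : Finset V) : Finset (Fin 6 → V) :=
  (PT G A).filter (fun w => (∃ i, w i = v) ∧ (univ.image w) \ Q = S)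

variable (G A v) in
/-- The ordered six-vertex paths in `A` through `v`. -/
def Th : Finset (Fin 6 → V) := (PT G A).filter (fun w => ∃ i, w i = v)

theorem card_fam {𝓕 : Finset (Finset V)} {b : ℕ} (h : ∀ S ∈ 𝓕, (Fb G A Q v S).card ≤ b) :
    ((Th G A v).filter (fun w => (univ.image w) \ Q ∈ 𝓕)).card ≤ b * 𝓕.card := by
  apply Finset.card_le_mul_card_image_of_maps_to (f := fun w => (univ.image w) \ Q)
  · intro w hw
    rw [mem_filter] at hw
    exact hw.2
  · intro S hS
    refine le_trans (card_le_card ?_) (h S hS)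
    intro w hw
    rw [mem_filter, mem_filter, Th, mem_filter] at hw
    rw [Fb, mem_filter]
    exact ⟨hw.1.1.1, hw.1.1.2, hw.2⟩

theorem out_subset {w : Fin 6 → V} (hw : w ∈ PT G A) : (univ.image w) \ Q ⊆ A \ Q := by
  rw [mem_PT] at hw
  intro x hx
  rw [mem_sdiff, mem_image] at hx
  obtain ⟨⟨i, -, rfl⟩, h⟩ := hx
  rw [mem_sdiff]
  exact ⟨hw.2.2 i, h⟩

theorem assemble_no {b0 b1 b2 : ℕ} (hv : v ∈ Q) (hN : ∀ x ∈ A, G.Adj v x → x ∈ Q)
    (hno : ∀ p ∈ Q, ∀ a ∈ A \ Q, ∀ b ∈ A \ Q, G.Adj p a → G.Adj a b → False)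
    (h0 : (Fb G A Q v ∅).card ≤ b0) (h1 : ∀ u ∈ A \ Q, (Fb G A Q v {u}).card ≤ b1)
    (h2 : ∀ u ∈ A \ Q, ∀ u' ∈ A \ Q, u ≠ u' → (Fb G A Q v {u, u'}).card ≤ b2) :
    (Th G A v).card ≤ b0 + b1 * (A \ Q).card + b2 * (A \ Q).card.choose 2 := by
  have hsub : Th G A v ⊆ ((Th G A v).filter (fun w => (univ.image w) \ Q ∈ ({∅} : Finset (Finset V)))) ∪
      ((Th G A v).filter (fun w => (univ.image w) \ Q ∈ powersetCard 1 (A \ Q))) ∪
      ((Th G A v).filter (fun w => (univ.image w) \ Q ∈ powersetCard 2 (A \ Q))) := by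
    intro w hw
    have hw2 := hw
    rw [Th, mem_filter] at hw2
    obtain ⟨hw3, j, hj⟩ := hw2
    have hc : ((univ.image w) \ Q).card < 3 := by
      by_contra hlt
      obtain ⟨p, hp, a, ha, b, hb, -, hpa, hab⟩ := out_tail hv hN hw3 hj (by omega)
      exact hno p hp a (out_subset hw3 ha) b (out_subset hw3 hb) hpa hab
    have hS := out_subset (Q := Q) hw3
    rw [mem_union, mem_union, mem_filter, mem_filter, mem_filter]
    rcases Nat.lt_or_ge ((univ.image w) \ Q).card 1 with h | h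
    · left; left
      refine ⟨hw, ?_⟩
      rw [mem_singleton, ← card_eq_zero]
      omega
    · rcases Nat.lt_or_ge ((univ.image w) \ Q).card 2 with h' | h'
      · left; right
        refine ⟨hw, ?_⟩
        rw [mem_powersetCard]
        exact ⟨hS, by omega⟩
      · right
        refine ⟨hw, ?_⟩
        rw [mem_powersetCard]
        exact ⟨hS, by omega⟩
  have c0 := card_fam (G := G) (A := A) (Q := Q) (v := v) (𝓕 := {∅}) (b := b0) (by
    intro S hS
    rw [mem_singleton] at hS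
    rw [hS]; exact h0)
  have c1 := card_fam (G := G) (A := A) (Q := Q) (v := v) (𝓕 := powersetCard 1 (A \ Q)) (b := b1) (by
    intro S hS
    rw [mem_powersetCard, card_eq_one] at hS
    obtain ⟨hS1, u, rfl⟩ := hS
    exact h1 u (hS1 (by simp)))
  have c2 := card_fam (G := G) (A := A) (Q := Q) (v := v) (𝓕 := powersetCard 2 (A \ Q)) (b := b2) (by
    intro S hS
    rw [mem_powersetCard, card_eq_two] at hS
    obtain ⟨hS1, u, u', hne, rfl⟩ := hS
    exact h2 u (hS1 (by simp)) u' (hS1 (by simp)) hne)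
  rw [card_singleton, mul_one] at c0
  rw [card_powersetCard, Nat.choose_one_right] at c1
  rw [card_powersetCard] at c2
  calc (Th G A v).card ≤ _ := card_le_card hsub
    _ ≤ _ := card_union_le _ _
    _ ≤ _ := Nat.add_le_add_right (card_union_le _ _) _
    _ ≤ _ := Nat.add_le_add (Nat.add_le_add c0 c1) c2

/-! ### Tails -/

variable (G) in
/-- Ordered adjacent pairs of outside vertices the first of which has a neighbour in `Q`. -/
def T2 (Q O : Finset V) : Finset (V × V) :=
  (O ×ˢ O).filter (fun q => G.Adj q.1 q.2 ∧ ∃ p ∈ Q, G.Adj p q.1)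

theorem mem_T2 {Q O : Finset V} {q : V × V} : q ∈ T2 G Q O ↔
    q.1 ∈ O ∧ q.2 ∈ O ∧ G.Adj q.1 q.2 ∧ ∃ p ∈ Q, G.Adj p q.1 := by
  rw [T2, mem_filter, mem_product]
  tauto

theorem card_T2 {Q O : Finset V} (h4 : NoTail4 G Q O) : (T2 G Q O).card ≤ 3 * O.card := by
  classical
  let U : V × V → Prop := fun q => ∀ a' ∈ O, (∃ p ∈ Q, G.Adj p a') → G.Adj a' q.2 → a' = q.1
  have h1 : ((T2 G Q O).filter U).card ≤ O.card := by
    apply card_le_card_of_injOn (fun q => q.2)
    · intro q hq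
      have := mem_of_mem_filter q hq
      rw [mem_T2] at this
      exact this.2.1
    · intro q hq q' hq' h
      rw [mem_coe, mem_filter, mem_T2] at hq hq'
      simp only at h
      have := hq.2 q'.1 hq'.1.1 hq'.1.2.2.2 (h ▸ hq'.1.2.2.1)
      exact Prod.ext this.symm h
  have h2 : ((T2 G Q O).filter (fun q => ¬ U q)).card ≤ 2 * O.card := by
    apply card_le_mul_card_image_of_maps_to (f := fun q => q.1)
    · intro q hq
      have := mem_of_mem_filter q hq
      rw [mem_T2] at this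
      exact this.1
    · intro a ha
      by_contra hlt
      rw [not_le, two_lt_card] at hlt
      obtain ⟨q1, hq1, q2, hq2, q3, hq3, n12, n13, n23⟩ := hlt
      rw [mem_filter, mem_filter, mem_T2] at hq1 hq2 hq3
      obtain ⟨⟨⟨a1, b1, c1, d1⟩, u1⟩, e1⟩ := hq1
      obtain ⟨⟨⟨a2, b2, c2, d2⟩, u2⟩, e2⟩ := hq2
      obtain ⟨⟨⟨a3, b3, c3, d3⟩, u3⟩, e3⟩ := hq3
      have m12 : q1.2 ≠ q2.2 := fun h => n12 (Prod.ext (e1.trans e2.symm) h)
      have m13 : q1.2 ≠ q3.2 := fun h => n13 (Prod.ext (e1.trans e3.symm) h)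
      have m23 : q2.2 ≠ q3.2 := fun h => n23 (Prod.ext (e2.trans e3.symm) h)
      simp only [U, not_forall] at u1
      obtain ⟨a', ha', ⟨p, hp, hpa'⟩, hab, hne⟩ := u1
      -- a' is adjacent to q1.2, differs from a
      have key : ∀ c ∈ O, G.Adj a c → q1.2 ≠ c → c = a' := by
        intro c hc hac hbc
        by_contra hca
        have hba : G.Adj q1.2 a := by
          rw [← e1]; exact c1.symm
        exact h4 p hp a' ha' q1.2 b1 a ha c hc (by rw [← e1]; exact hne) (Ne.symm hca) hbc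
          hpa' hab hba hac
      have k2 := key q2.2 b2 (by rw [← e2]; exact c2) m12
      have k3 := key q3.2 b3 (by rw [← e3]; exact c3) m13
      exact m23 (k2.trans k3.symm)
  have h3 := card_filter_add_card_filter_not (s := T2 G Q O) U
  omega

variable (G) in
/-- Connected attached triples of outside vertices. -/
def C3 (Q O : Finset V) : Finset (Finset V) :=
  (powersetCard 3 O).filter (fun S => (∃ a b c, S = {a, b, c} ∧ a ≠ b ∧ a ≠ c ∧ b ≠ c ∧
    G.Adj a b ∧ G.Adj a c) ∧ ∃ x ∈ S, ∃ p ∈ Q, G.Adj p x)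

theorem card_C3 {Q O : Finset V} (h4 : NoTail4 G Q O) : (C3 G Q O).card ≤ O.card.choose 2 := by
  classical
  rw [← card_powersetCard]
  have hch : ∀ S : Finset V, ∃ T : Finset V, S ∈ C3 G Q O →
      ∃ a b c, S = {a, b, c} ∧ T = {b, c} ∧ a ≠ b ∧ a ≠ c ∧ b ≠ c ∧ G.Adj a b ∧ G.Adj a c := by
    intro S
    by_cases h : S ∈ C3 G Q O
    · have h' := h
      rw [C3, mem_filter] at h'
      obtain ⟨-, ⟨a, b, c, h1, h2⟩, -⟩ := h'
      exact ⟨{b, c}, fun _ => ⟨a, b, c, h1, rfl, h2⟩⟩
    · exact ⟨∅, fun h' => absurd h' h⟩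
  choose f hf using hch
  apply card_le_card_of_injOn f
  · intro S hS
    obtain ⟨a, b, c, h1, h2, h3, h4', h5, h6, h7⟩ := hf S hS
    rw [mem_coe, C3, mem_filter, mem_powersetCard] at hS
    rw [mem_coe, mem_powersetCard, h2]
    refine ⟨?_, card_pair h5⟩
    intro x hx
    apply hS.1.1
    rw [h1]
    simp only [mem_insert, mem_singleton] at hx ⊢
    tauto
  · intro S hS S' hS' hff
    obtain ⟨a, b, c, h1, h2, h3, h4', h5, h6, h7⟩ := hf S hS
    obtain ⟨a', b', c', g1, g2, g3, g4', g5, g6, g7⟩ := hf S' hS'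
    have hbc : ({b, c} : Finset V) = {b', c'} := by rw [← h2, ← g2]; exact hff
    have ha'b : G.Adj a' b := by
      have : b ∈ ({b', c'} : Finset V) := by rw [← hbc]; simp
      simp only [mem_insert, mem_singleton] at this
      rcases this with h | h
      · rw [h]; exact g6
      · rw [h]; exact g7
    have ha'c : G.Adj a' c := by
      have : c ∈ ({b', c'} : Finset V) := by rw [← hbc]; simp
      simp only [mem_insert, mem_singleton] at this
      rcases this with h | h
      · rw [h]; exact g6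
      · rw [h]; exact g7
    have haa : a = a' := by
      by_contra hne
      rw [mem_coe, C3, mem_filter, mem_powersetCard] at hS hS'
      obtain ⟨⟨hSO, -⟩, -, x, hx, p, hp, hpx⟩ := hS
      have haO : a ∈ O := hSO (by rw [h1]; simp)
      have hbO : b ∈ O := hSO (by rw [h1]; simp)
      have hcO : c ∈ O := hSO (by rw [h1]; simp)
      have ha'O : a' ∈ O := hS'.1.1 (by rw [g1]; simp)
      rw [h1] at hx
      simp only [mem_insert, mem_singleton] at hx
      rcases hx with rfl | rfl | rfl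
      · exact h4 p hp x haO b hbO a' ha'O c hcO hne h4' h5 hpx h6 ha'b.symm ha'c
      · exact h4 p hp x hbO a haO c hcO a' ha'O h5 (G.ne_of_adj ha'b).symm hne hpx h6.symm h7
          ha'c.symm
      · exact h4 p hp x hcO a haO b hbO a' ha'O h5.symm (G.ne_of_adj ha'c).symm hne hpx h7.symm h6
          ha'b.symm
    rw [h1, g1, haa]
    have : insert a' ({b, c} : Finset V) = insert a' ({b', c'} : Finset V) := by rw [hbc]
    exact this

theorem assemble {b0 b1 b2 b3 b4 : ℕ} (hv : v ∈ Q) (hN : ∀ x ∈ A, G.Adj v x → x ∈ Q)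
    (h4 : NoTail4 G Q (A \ Q))
    (h0 : (Fb G A Q v ∅).card ≤ b0) (h1 : ∀ u ∈ A \ Q, (Fb G A Q v {u}).card ≤ b1)
    (h2 : ∀ u ∈ A \ Q, ∀ u' ∈ A \ Q, u ≠ u' → (Fb G A Q v {u, u'}).card ≤ b2)
    (h3 : ∀ a ∈ A \ Q, ∀ b ∈ A \ Q, ∀ c ∈ A \ Q, a ≠ b → a ≠ c → b ≠ c → G.Adj a b →
      G.Adj a c → (Fb G A Q v {a, b, c}).card ≤ b3)
    (h3' : ∀ a ∈ A \ Q, ∀ b ∈ A \ Q, ∀ c ∈ A \ Q, a ≠ b → a ≠ c → b ≠ c → G.Adj a b →
      ¬ G.Adj a c → ¬ G.Adj b c → (Fb G A Q v {a, b, c}).card ≤ b4) :
    (Th G A v).card ≤ b0 + b1 * (A \ Q).card + b2 * (A \ Q).card.choose 2 +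
      b3 * (A \ Q).card.choose 2 + b4 * (3 * (A \ Q).card * (A \ Q).card) := by
  classical
  set O := A \ Q with hO
  let E3 : Finset (Finset V) := (((T2 G Q O) ×ˢ O).filter (fun q => q.1.1 ≠ q.1.2 ∧
    q.1.1 ≠ q.2 ∧ q.1.2 ≠ q.2 ∧ ¬ G.Adj q.1.1 q.2 ∧ ¬ G.Adj q.1.2 q.2)).image
    (fun q => {q.1.1, q.1.2, q.2})
  have hsub : Th G A v ⊆ ((Th G A v).filter (fun w => (univ.image w) \ Q ∈ ({∅} : Finset (Finset V)))) ∪
      ((Th G A v).filter (fun w => (univ.image w) \ Q ∈ powersetCard 1 O)) ∪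
      ((Th G A v).filter (fun w => (univ.image w) \ Q ∈ powersetCard 2 O)) ∪
      ((Th G A v).filter (fun w => (univ.image w) \ Q ∈ C3 G Q O)) ∪
      ((Th G A v).filter (fun w => (univ.image w) \ Q ∈ E3)) := by
    intro w hw
    have hw2 := hw
    rw [Th, mem_filter] at hw2
    obtain ⟨hw3, j, hj⟩ := hw2
    have hc := out_le_three hv hN h4 hw3 hj
    have hS : (univ.image w) \ Q ⊆ O := out_subset (Q := Q) hw3
    rw [mem_union, mem_union, mem_union, mem_union, mem_filter, mem_filter, mem_filter, mem_filter,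
      mem_filter]
    rcases Nat.lt_or_ge ((univ.image w) \ Q).card 1 with h | h
    · left; left; left; left
      refine ⟨hw, ?_⟩
      rw [mem_singleton, ← card_eq_zero]
      omega
    rcases Nat.lt_or_ge ((univ.image w) \ Q).card 2 with h' | h'
    · left; left; left; right
      refine ⟨hw, ?_⟩
      rw [mem_powersetCard]
      exact ⟨hS, by omega⟩
    rcases Nat.lt_or_ge ((univ.image w) \ Q).card 3 with h'' | h''
    · left; left; right
      refine ⟨hw, ?_⟩
      rw [mem_powersetCard]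
      exact ⟨hS, by omega⟩
    · obtain ⟨p, hp, a, ha, b, hb, hab', hpa, hab⟩ := out_tail hv hN hw3 hj h''
      have hcard : ((univ.image w) \ Q).card = 3 := by omega
      obtain ⟨c, hcS, hca, hcb⟩ : ∃ c ∈ (univ.image w) \ Q, c ≠ a ∧ c ≠ b := by
        by_contra hcon
        have : (univ.image w) \ Q ⊆ {a, b} := by
          intro x hx
          by_contra hx'
          simp only [mem_insert, mem_singleton, not_or] at hx'
          exact hcon ⟨x, hx, hx'.1, hx'.2⟩
        have := card_le_card this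
        rw [hcard] at this
        have := card_le_two (a := a) (b := b)
        omega
      have hSeq : (univ.image w) \ Q = {a, b, c} := by
        symm
        apply eq_of_subset_of_card_le
        · intro x hx
          simp only [mem_insert, mem_singleton] at hx
          rcases hx with rfl | rfl | rfl <;> assumption
        · rw [hcard, card_eq_three.mpr ⟨a, b, c, hab', Ne.symm hca, Ne.symm hcb, rfl⟩]
      by_cases hac : G.Adj a c
      · left; right
        refine ⟨hw, ?_⟩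
        rw [C3, mem_filter, mem_powersetCard]
        exact ⟨⟨hS, hcard⟩, ⟨a, b, c, hSeq, hab', Ne.symm hca, Ne.symm hcb, hab, hac⟩,
          a, ha, p, hp, hpa⟩
      · by_cases hbc : G.Adj b c
        · left; right
          refine ⟨hw, ?_⟩
          rw [C3, mem_filter, mem_powersetCard]
          refine ⟨⟨hS, hcard⟩, ⟨b, a, c, ?_, Ne.symm hab', Ne.symm hcb, Ne.symm hca, hab.symm, hbc⟩,
            a, ha, p, hp, hpa⟩
          rw [hSeq]
          exact insert_comm a b {c}
        · right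
          refine ⟨hw, ?_⟩
          rw [hSeq]
          refine mem_image.mpr ⟨((a, b), c), ?_, rfl⟩
          rw [mem_filter, mem_product, mem_T2]
          exact ⟨⟨⟨hS ha, hS hb, hab, p, hp, hpa⟩, hS hcS⟩, hab', Ne.symm hca, Ne.symm hcb, hac, hbc⟩
  have c0 := card_fam (G := G) (A := A) (Q := Q) (v := v) (𝓕 := {∅}) (b := b0) (by
    intro S hS
    rw [mem_singleton] at hS
    rw [hS]; exact h0)
  have c1 := card_fam (G := G) (A := A) (Q := Q) (v := v) (𝓕 := powersetCard 1 O) (b := b1) (by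
    intro S hS
    rw [mem_powersetCard, card_eq_one] at hS
    obtain ⟨hS1, u, rfl⟩ := hS
    exact h1 u (hS1 (by simp)))
  have c2 := card_fam (G := G) (A := A) (Q := Q) (v := v) (𝓕 := powersetCard 2 O) (b := b2) (by
    intro S hS
    rw [mem_powersetCard, card_eq_two] at hS
    obtain ⟨hS1, u, u', hne, rfl⟩ := hS
    exact h2 u (hS1 (by simp)) u' (hS1 (by simp)) hne)
  have c3 := card_fam (G := G) (A := A) (Q := Q) (v := v) (𝓕 := C3 G Q O) (b := b3) (by
    intro S hS
    rw [C3, mem_filter, mem_powersetCard] at hS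
    obtain ⟨⟨hS1, -⟩, ⟨a, b, c, rfl, e1, e2, e3, e4, e5⟩, -⟩ := hS
    exact h3 a (hS1 (by simp)) b (hS1 (by simp)) c (hS1 (by simp)) e1 e2 e3 e4 e5)
  have c4 := card_fam (G := G) (A := A) (Q := Q) (v := v) (𝓕 := E3) (b := b4) (by
    intro S hS
    simp only [E3] at hS
    rw [mem_image] at hS
    obtain ⟨⟨⟨a, b⟩, c⟩, hq, rfl⟩ := hS
    rw [mem_filter, mem_product, mem_T2] at hq
    obtain ⟨⟨⟨ha, hb, hab, -⟩, hc⟩, e1, e2, e3, e4, e5⟩ := hq
    exact h3' a ha b hb c hc e1 e2 e3 hab e4 e5)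
  have cE3 : E3.card ≤ 3 * O.card * O.card := by
    refine le_trans card_image_le (le_trans (card_le_card (filter_subset _ _)) ?_)
    rw [card_product]
    exact Nat.mul_le_mul_right _ (card_T2 h4)
  rw [card_singleton, mul_one] at c0
  rw [card_powersetCard, Nat.choose_one_right] at c1
  rw [card_powersetCard] at c2
  have c3' := c3.trans (Nat.mul_le_mul_left b3 (card_C3 h4))
  have c4' := c4.trans (Nat.mul_le_mul_left b4 cE3)
  calc (Th G A v).card ≤ _ := card_le_card hsub
    _ ≤ _ := card_union_le _ _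
    _ ≤ _ := Nat.add_le_add_right (card_union_le _ _) _
    _ ≤ _ := Nat.add_le_add_right (Nat.add_le_add_right (card_union_le _ _) _) _
    _ ≤ _ := Nat.add_le_add_right (Nat.add_le_add_right (Nat.add_le_add_right
        (card_union_le _ _) _) _) _
    _ ≤ _ := Nat.add_le_add (Nat.add_le_add (Nat.add_le_add (Nat.add_le_add c0 c1) c2) c3') c4'

end

end Pool.Agent.Lib.MP_f77bf6_co
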