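import Mathlib
import Pool.Agent.Lib.MP_f77bf6_co.Assemble

set_option autoImplicit false
set_option linter.unusedSectionVars false
set_option linter.unusedVariables false

/-!
# Longest paths and connectivity
-/

namespace Pool.Agent.Lib.MP_f77bf6_co

open Finset

variable {V : Type*} [DecidableEq V] {G : SimpleGraph V} [Fintype V] [DecidableRel G.Adj]

/-- All neighbours of the end of a longest path are on the path. -/
theorem nbr_of_end {A : Finset V} {K : ℕ} {v : V} {P : List V} (hP : IsP G A (v :: P))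
    (hlen : (v :: P).length + 1 = K) (hs : Short G A K) :
    ∀ x ∈ A, G.Adj v x → x ∈ (v :: P).toFinset := by
  intro x hx hvx
  by_contra hxP
  rw [List.mem_toFinset] at hxP
  have : IsP G A (x :: v :: P) := by
    refine ⟨List.nodup_cons.mpr ⟨hxP, hP.1⟩, ?_, ?_⟩
    · rw [List.isChain_cons_cons]
      exact ⟨hvx.symm, hP.2.1⟩
    · intro y hy
      rw [List.mem_cons] at hy
      rcases hy with rfl | hy
      · exact hx
      · exact hP.2.2 y hy
  have := hs _ this
  simp only [List.length_cons] at this hlen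
  omega

theorem noTail4 {A : Finset V} {K : ℕ} {P : List V} (hP : IsP G A P)
    (hlen : P.length + 1 = K) (hs : Short G A K) (h8 : P.length ≤ 8) :
    NoTail4 G P.toFinset (A \ P.toFinset) := by
  intro p hp a ha b hb c hc d hd hac had hbd hpa hab hbc hcd
  rw [List.mem_toFinset] at hp
  rw [mem_sdiff, List.mem_toFinset] at ha hb hc hd
  obtain ⟨P1, P2, rfl⟩ := List.append_of_mem hp
  have hab' := G.ne_of_adj hab
  have hbc' := G.ne_of_adj hbc
  have hcd' := G.ne_of_adj hcd
  have hchain := List.isChain_append.mp hP.2.1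
  have hnod := List.nodup_append.mp hP.1
  simp only [List.mem_append, List.mem_cons, not_or] at ha hb hc hd
  have l1 : IsP G A (d :: c :: b :: a :: p :: P2) := by
    refine ⟨?_, ?_, ?_⟩
    · simp only [List.nodup_cons, List.mem_cons, not_or]
      have h1 := hnod.2.1
      rw [List.nodup_cons] at h1
      refine ⟨⟨Ne.symm hcd', Ne.symm hbd, Ne.symm had, hd.2.2.1, hd.2.2.2⟩,
        ⟨Ne.symm hbc', Ne.symm hac, hc.2.2.1, hc.2.2.2⟩,
        ⟨Ne.symm hab', hb.2.2.1, hb.2.2.2⟩, ⟨ha.2.2.1, ha.2.2.2⟩, h1.1, h1.2⟩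
    · simp only [List.isChain_cons_cons]
      exact ⟨hcd.symm, hbc.symm, hab.symm, hpa.symm, hchain.2.1⟩
    · intro x hx
      simp only [List.mem_cons] at hx
      rcases hx with rfl | rfl | rfl | rfl | rfl | hx
      · exact hd.1
      · exact hc.1
      · exact hb.1
      · exact ha.1
      · exact hP.2.2 _ (by simp)
      · exact hP.2.2 _ (by simp [hx])
  have l2 : IsP G A (P1 ++ [p, a, b, c, d]) := by
    refine ⟨?_, ?_, ?_⟩
    · rw [List.nodup_append]
      refine ⟨hnod.1, ?_, ?_⟩
      · simp only [List.nodup_cons, List.mem_cons, not_or, List.not_mem_nil, not_false_eq_true,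
          List.nodup_nil, and_true]
        exact ⟨⟨Ne.symm ha.2.2.1, Ne.symm hb.2.2.1, Ne.symm hc.2.2.1, Ne.symm hd.2.2.1⟩,
          ⟨hab', hac, had⟩, ⟨hbc', hbd⟩, hcd'⟩
      · intro x hx y hy
        simp only [List.mem_cons, List.not_mem_nil, or_false] at hy
        rcases hy with rfl | rfl | rfl | rfl | rfl
        · exact hnod.2.2 x hx _ (by simp)
        · rintro rfl; exact ha.2.1 hx
        · rintro rfl; exact hb.2.1 hx
        · rintro rfl; exact hc.2.1 hx
        · rintro rfl; exact hd.2.1 hx
    · rw [List.isChain_append]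
      refine ⟨hchain.1, ?_, ?_⟩
      · simp only [List.isChain_cons_cons, List.isChain_singleton, and_true]
        exact ⟨hpa, hab, hbc, hcd⟩
      · intro x hx y hy
        simp only [List.head?_cons, Option.mem_def, Option.some.injEq] at hy
        subst hy
        exact hchain.2.2 x hx p (by simp)
    · intro x hx
      simp only [List.mem_append, List.mem_cons, List.not_mem_nil, or_false] at hx
      rcases hx with hx | rfl | rfl | rfl | rfl | rfl
      · exact hP.2.2 _ (by simp [hx])
      · exact hP.2.2 _ (by simp)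
      · exact ha.1
      · exact hb.1
      · exact hc.1
      · exact hd.1
  have e1 := hs _ l1
  have e2 := hs _ l2
  simp only [List.length_cons, List.length_append, List.length_nil] at e1 e2 hlen h8
  omega

/-! ### Connectivity -/

variable (G) in
def Conn (A : Finset V) : Prop :=
  ∀ B ⊆ A, B.Nonempty → B ≠ A → ∃ x ∈ B, ∃ y ∈ A \ B, G.Adj x y

theorem chain_side {B C : Finset V} (hBC : ∀ x ∈ B, ∀ y ∈ C, ¬ G.Adj x y) :
    ∀ l : List V, l.IsChain G.Adj → (∀ x ∈ l, x ∈ B ∨ x ∈ C) →
      (∀ x ∈ l, x ∈ B) ∨ (∀ x ∈ l, x ∈ C) := by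
  intro l
  induction l with
  | nil => intro _ _; left; intro x hx; simp at hx
  | cons a l ih =>
    intro h1 h2
    cases l with
    | nil =>
      rcases h2 a (by simp) with h | h
      · left; intro x hx; simp only [List.mem_singleton] at hx; rw [hx]; exact h
      · right; intro x hx; simp only [List.mem_singleton] at hx; rw [hx]; exact h
    | cons b l =>
      rw [List.isChain_cons_cons] at h1
      rcases ih h1.2 (fun x hx => h2 x (List.mem_cons_of_mem _ hx)) with h | h
      · rcases h2 a (by simp) with h' | h'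
        · left
          intro x hx
          rw [List.mem_cons] at hx
          rcases hx with rfl | hx
          · exact h'
          · exact h x hx
        · exact absurd h1.1.symm (hBC b (h b (by simp)) a h')
      · rcases h2 a (by simp) with h' | h'
        · exact absurd h1.1 (hBC a h' b (h b (by simp)))
        · right
          intro x hx
          rw [List.mem_cons] at hx
          rcases hx with rfl | hx
          · exact h'
          · exact h x hx

theorem exists_split {A : Finset V} (h : ¬ Conn G A) : ∃ B C : Finset V, B ∪ C = A ∧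
    Disjoint B C ∧ B.Nonempty ∧ C.Nonempty ∧ ∀ x ∈ B, ∀ y ∈ C, ¬ G.Adj x y := by
  unfold Conn at h
  push Not at h
  obtain ⟨B, hBA, hB, hne, hno⟩ := h
  refine ⟨B, A \ B, union_sdiff_of_subset hBA, disjoint_sdiff, hB, ?_, hno⟩
  rw [sdiff_nonempty]
  intro hAB
  exact hne (subset_antisymm hBA hAB)

theorem PT_split {A B C : Finset V} (hBC : B ∪ C = A) (hno : ∀ x ∈ B, ∀ y ∈ C, ¬ G.Adj x y) :
    (PT G A).card ≤ (PT G B).card + (PT G C).card := by
  refine le_trans (card_le_card ?_) (card_union_le _ _)
  intro w hw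
  have hP := isP_ofFn hw
  rw [mem_union, mem_PT, mem_PT]
  rw [mem_PT] at hw
  rcases chain_side hno _ hP.2.1 (by
    intro x hx
    have := hP.2.2 x hx
    rw [← hBC, mem_union] at this
    exact this) with h | h
  · left
    exact ⟨hw.1, hw.2.1, fun i => h _ (List.mem_ofFn.mpr ⟨i, rfl⟩)⟩
  · right
    exact ⟨hw.1, hw.2.1, fun i => h _ (List.mem_ofFn.mpr ⟨i, rfl⟩)⟩

/-- Deleting the end of a longest path keeps the graph connected. -/
theorem conn_erase {A : Finset V} {K : ℕ} {v q : V} {P : List V} (hA : Conn G A)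
    (hP : IsP G A (v :: q :: P)) (hlen : (v :: q :: P).length + 1 = K) (hs : Short G A K) :
    Conn G (A.erase v) := by
  intro B hB hne hBne
  by_contra hcon
  push Not at hcon
  have hN := nbr_of_end hP hlen hs
  have hv : v ∈ A := hP.2.2 v (by simp)
  have hvB : v ∉ B := fun h => by simpa using hB h
  have hno : ∀ x ∈ B, ∀ y ∈ (A.erase v) \ B, ¬ G.Adj x y := hcon
  have hchain : (q :: P).IsChain G.Adj := by
    have := hP.2.1
    rw [List.isChain_cons_cons] at this
    exact this.2
  have hvP : v ∉ q :: P := (List.nodup_cons.mp hP.1).1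
  have hmem : ∀ x ∈ q :: P, x ∈ B ∨ x ∈ (A.erase v) \ B := by
    intro x hx
    by_cases h : x ∈ B
    · exact Or.inl h
    · right
      rw [mem_sdiff, mem_erase]
      refine ⟨⟨?_, hP.2.2 x (List.mem_cons_of_mem _ hx)⟩, h⟩
      rintro rfl
      exact hvP hx
  have hNq : ∀ x ∈ A, G.Adj v x → x ∈ q :: P := by
    intro x hx hvx
    have := hN x hx hvx
    rw [List.mem_toFinset, List.mem_cons] at this
    rcases this with rfl | h
    · exact absurd rfl (G.ne_of_adj hvx)
    · exact h
  have hBA : B ⊆ A := fun x hx => mem_of_mem_erase (hB hx)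
  rcases chain_side hno _ hchain hmem with h | h
  · -- the path is inside B
    have h1 : insert v B ⊆ A := insert_subset hv hBA
    have h2 : insert v B ≠ A := by
      intro h3
      apply hBne
      rw [← h3, erase_insert hvB]
    obtain ⟨x, hx, y, hy, hxy⟩ := hA _ h1 (insert_nonempty _ _) h2
    rw [mem_insert] at hx
    rw [mem_sdiff, mem_insert, not_or] at hy
    rcases hx with rfl | hx
    · exact hy.2.2 (h y (hNq y hy.1 hxy))
    · exact hno x hx y (by rw [mem_sdiff, mem_erase]; exact ⟨⟨hy.2.1, hy.1⟩, hy.2.2⟩) hxy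
  · obtain ⟨x, hx, y, hy, hxy⟩ := hA B hBA hne (by
      rintro rfl
      exact hvB hv)
    rw [mem_sdiff] at hy
    by_cases hyv : y = v
    · subst hyv
      have := h x (hNq x (hBA hx) hxy.symm)
      rw [mem_sdiff] at this
      exact this.2 hx
    · exact hno x hx y (by rw [mem_sdiff, mem_erase]; exact ⟨⟨hyv, hy.1⟩, hy.2⟩) hxy

theorem PT_erase {A : Finset V} {v : V} :
    (PT G A).card ≤ (PT G (A.erase v)).card + (Th G A v).card := by
  refine le_trans (card_le_card ?_) (card_union_le _ _)
  intro w hw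
  rw [mem_union, Th, mem_filter]
  by_cases h : ∃ i, w i = v
  · right; exact ⟨hw, h⟩
  · left
    rw [mem_PT] at hw ⊢
    push Not at h
    exact ⟨hw.1, hw.2.1, fun i => mem_erase.mpr ⟨h i, hw.2.2 i⟩⟩

/-- Somebody outside a proper subset is attached to it. -/
theorem exists_attached {A Q : Finset V} (hA : Conn G A) (hQ : Q ⊆ A) (hne : Q.Nonempty)
    (hlt : Q ≠ A) : ∃ p ∈ Q, ∃ u ∈ A \ Q, G.Adj p u := hA Q hQ hne hlt

/-! ### Bounding the fibres by the checker -/

theorem testBit_mask (ml : List ℕ) (y : ℕ)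
    (h : (ml.foldr (fun i E => 2 ^ i ||| E) 0).testBit y = true) : y ∈ ml := by
  induction ml with
  | nil => simp at h
  | cons a ml ih =>
    simp only [List.foldr_cons] at h
    rw [Nat.testBit_or, Bool.or_eq_true, Nat.testBit_two_pow] at h
    rw [List.mem_cons]
    rcases h with h | h
    · left
      simpa using (decide_eq_true_eq.mp h).symm
    · right; exact ih h

theorem fb_bound {A : Finset V} {K m must B n : ℕ} {D : List (ℕ × ℕ)} {t : Tr}
    {L F : List (ℕ × ℕ)} {v : V} (P S R : List V)
    (hc : chk (fun E => Nat.ble (total m E must) B) K D t (ofEdges L)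
      (full n ^^^ ofEdges F) = true)
    (hPv : P[0]? = some v)
    (hmust : must = (0 :: List.range' P.length S.length).foldr (fun i E => 2 ^ i ||| E) 0)
    (hm : P.length + S.length = m)
    (hln : (P ++ (S ++ R)).length = n) (hn16 : n ≤ 16) (hK2 : 2 ≤ K)
    (hn : (P ++ (S ++ R)).Nodup) (hA : ∀ x ∈ P ++ (S ++ R), x ∈ A) (hshort : Short G A K)
    (hD : ∀ q ∈ D, ∀ p : List ℕ, p.Nodup → (∀ y ∈ p, RL G (P ++ (S ++ R)) q.1 y) →
      p.length ≤ q.2)
    (hL : ∀ e ∈ L, RL G (P ++ (S ++ R)) e.1 e.2)
    (hF : ∀ e ∈ F, e.1 < 16 ∧ e.2 < 16 ∧ ¬ RL G (P ++ (S ++ R)) e.1 e.2) :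
    (Fb G A P.toFinset v S.toFinset).card ≤ B := by
  refine core (G := G) (A := A) (P ++ (S ++ R)) hc hln hn16 (by
    rw [← hln, ← hm]; simp only [List.length_append]; omega) hK2 hn hA hshort hD hL hF _ ?_
  intro w hw
  rw [Fb, mem_filter] at hw
  obtain ⟨hw, ⟨j, hj⟩, hS⟩ := hw
  refine ⟨hw, ?_, ?_⟩
  · intro i
    by_cases hi : w i ∈ P
    · refine ⟨List.mem_append_left _ hi, ?_⟩
      rw [List.idxOf_append_of_mem hi]
      have := List.idxOf_lt_length_iff.mpr hi
      omega
    · have hiS : w i ∈ S := by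
        rw [← List.mem_toFinset, ← hS, mem_sdiff, List.mem_toFinset]
        exact ⟨mem_image_of_mem _ (mem_univ _), hi⟩
      refine ⟨by simp [hiS], ?_⟩
      rw [List.idxOf_append_of_notMem hi, List.idxOf_append_of_mem hiS]
      have := List.idxOf_lt_length_iff.mpr hiS
      omega
  · intro y hy
    rw [hmust] at hy
    have hy := testBit_mask _ _ hy
    have key : ∀ x, (P ++ (S ++ R))[y]? = some x → (∃ i, w i = x) →
        ∃ i, (P ++ (S ++ R)).idxOf (w i) = y := by
      rintro x hx ⟨i, rfl⟩
      refine ⟨i, ?_⟩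
      exact getElem?_inj_of_nodup hn (List.getElem?_idxOf (List.mem_of_getElem? hx)) hx
    rw [List.mem_cons] at hy
    rcases hy with rfl | hy
    · apply key v _ ⟨j, hj⟩
      have h0 : 0 < P.length := by
        by_contra h0
        have : P = [] := List.length_eq_zero_iff.mp (by omega)
        rw [this] at hPv
        simp at hPv
      rw [List.getElem?_append_left h0]
      exact hPv
    · rw [List.mem_range'_1] at hy
      obtain ⟨h1, h2⟩ := hy
      have hlt : y - P.length < S.length := by omega
      apply key (S[y - P.length])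
      · rw [List.getElem?_append_right h1, List.getElem?_append_left hlt,
          List.getElem?_eq_getElem hlt]
      · have : S[y - P.length] ∈ (univ.image w) \ P.toFinset := by
          rw [hS, List.mem_toFinset]
          exact List.getElem_mem hlt
        rw [mem_sdiff, mem_image] at this
        obtain ⟨⟨i, -, hi⟩, -⟩ := this
        exact ⟨i, hi⟩

theorem pt_bound {A : Finset V} {K B n : ℕ} {D : List (ℕ × ℕ)} {t : Tr}
    {L F : List (ℕ × ℕ)} (l : List V)
    (hc : chk (fun E => Nat.ble (total n E 0) B) K D t (ofEdges L)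
      (full n ^^^ ofEdges F) = true)
    (hln : l.length = n) (hn16 : n ≤ 16) (hK2 : 2 ≤ K)
    (hn : l.Nodup) (hA : A = l.toFinset) (hshort : Short G A K)
    (hD : ∀ q ∈ D, ∀ p : List ℕ, p.Nodup → (∀ y ∈ p, RL G l q.1 y) →
      p.length ≤ q.2)
    (hL : ∀ e ∈ L, RL G l e.1 e.2)
    (hF : ∀ e ∈ F, e.1 < 16 ∧ e.2 < 16 ∧ ¬ RL G l e.1 e.2) :
    (PT G A).card ≤ B := by
  refine core (G := G) (A := A) l hc hln hn16 le_rfl hK2 hn (by
    intro x hx; rw [hA, List.mem_toFinset]; exact hx) hshort hD hL hF _ ?_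
  intro w hw
  refine ⟨hw, ?_, ?_⟩
  · intro i
    rw [mem_PT] at hw
    have := hw.2.2 i
    rw [hA, List.mem_toFinset] at this
    refine ⟨this, ?_⟩
    rw [← hln]
    exact List.idxOf_lt_length_iff.mpr this
  · intro y hy
    simp at hy

end Pool.Agent.Lib.MP_f77bf6_co
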