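import Mathlib
import Pool.Agent.Lib.MP_f77bf6_co.Check

set_option autoImplicit false
set_option maxRecDepth 100000

/-!
# Certificates (generated) for the finite checks
-/

namespace Pool.Agent.Lib.MP_f77bf6_co

open Tr

def c0_0 : Tr := .bad [6,5,4,3,2,1,0,7]

theorem c0_0_chk : chk (fun E => Nat.ble (total 7 E 1) 432) 8 [(0, 3)] c0_0
    (ofEdges [(0, 1), (1, 2), (2, 3), (3, 4), (4, 5), (5, 6), (0, 7)])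
    (full 8 ^^^ ofEdges []) = true := by
  decide +kernel

def c0_1 : Tr := .br 0 2 (.bad [6,5,4,3,2,0,1,7]) (.br 0 6 (.bad [0,6,5,4,3,2,1,7]) (.br 0 7 (.bad [0,7,1,2,3,4,5,6]) (.br 2 7 (.bad [0,1,7,2,3,4,5,6]) (.br 6 7 (.bad [0,1,2,3,4,5,6,7]) (.br 0 4 (.br 0 3 (.bad [6,5,4,0,3,2,1,7]) (.br 0 5 (.bad [6,5,0,4,3,2,1,7]) (.br 2 5 (.bad [6,5,2,3,4,0,1,7]) (.br 3 6 (.bad [0,4,5,6,3,2,1,7]) (.ok))))) (.br 2 6 (.br 0 3 (.bad [0,3,4,5,6,2,1,7]) (.br 0 5 (.bad [4,3,2,6,5,0,1,7]) (.ok))) (.br 0 3 (.br 2 4 (.bad [6,5,4,2,3,0,1,7]) (.br 4 7 (.bad [0,3,2,1,7,4,5,6]) (.br 4 6 (.br 0 5 (.bad [0,5,6,4,3,2,1,7]) (.ok)) (.ok)))) (.br 0 5 (.br 4 6 (.bad [0,5,6,4,3,2,1,7]) (.ok)) (.ok)))))))))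

theorem c0_1_chk : chk (fun E => Nat.ble (total 7 E 1) 432) 8 [(0, 3)] c0_1
    (ofEdges [(0, 1), (1, 2), (2, 3), (3, 4), (4, 5), (5, 6), (1, 7)])
    (full 8 ^^^ ofEdges []) = true := by
  decide +kernel

def c0_2 : Tr := .br 0 3 (.bad [6,5,4,3,0,1,2,7]) (.br 0 6 (.bad [1,0,6,5,4,3,2,7]) (.br 1 6 (.bad [0,1,6,5,4,3,2,7]) (.br 0 7 (.bad [1,0,7,2,3,4,5,6]) (.br 1 7 (.bad [0,1,7,2,3,4,5,6]) (.br 3 7 (.bad [0,1,2,7,3,4,5,6]) (.br 6 7 (.bad [0,1,2,3,4,5,6,7]) (.br 0 4 (.br 3 6 (.bad [1,0,4,5,6,3,2,7]) (.br 1 3 (.bad [6,5,4,0,1,3,2,7]) (.br 3 5 (.bad [6,5,3,4,0,1,2,7]) (.br 1 5 (.bad [6,5,1,0,4,3,2,7]) (.ok))))) (.br 0 5 (.br 3 6 (.bad [4,3,6,5,0,1,2,7]) (.br 4 6 (.bad [1,0,5,6,4,3,2,7]) (.br 1 4 (.bad [6,5,0,1,4,3,2,7]) (.ok)))) (.br 1 3 (.br 0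 2 (.bad [6,5,4,3,1,0,2,7]) (.ok)) (.ok))))))))))

theorem c0_2_chk : chk (fun E => Nat.ble (total 7 E 1) 432) 8 [(0, 3)] c0_2
    (ofEdges [(0, 1), (1, 2), (2, 3), (3, 4), (4, 5), (5, 6), (2, 7)])
    (full 8 ^^^ ofEdges []) = true := by
  decide +kernel

def c0_3 : Tr := .br 0 4 (.bad [6,5,4,0,1,2,3,7]) (.br 0 6 (.bad [2,1,0,6,5,4,3,7]) (.br 2 6 (.bad [0,1,2,6,5,4,3,7]) (.br 0 7 (.bad [2,1,0,7,3,4,5,6]) (.br 2 7 (.bad [0,1,2,7,3,4,5,6]) (.br 4 7 (.bad [0,1,2,3,7,4,5,6]) (.br 6 7 (.bad [0,1,2,3,4,5,6,7]) (.br 2 4 (.br 0 3 (.bad [6,5,4,2,1,0,3,7]) (.br 0 5 (.bad [6,5,0,1,2,4,3,7]) (.br 3 6 (.bad [0,1,2,4,5,6,3,7]) (.ok)))) (.br 0 2 (.br 1 4 (.bad [6,5,4,1,0,2,3,7]) (.br 1 6 (.bad [0,2,1,6,5,4,3,7]) (.br 1 7 (.bad [0,2,1,7,3,4,5,6]) (.br 4 6 (.br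 0 5 (.bad [1,2,0,5,6,4,3,7]) (.ok)) (.ok))))) (.br 4 6 (.br 0 5 (.bad [2,1,0,5,6,4,3,7]) (.ok)) (.ok))))))))))

theorem c0_3_chk : chk (fun E => Nat.ble (total 7 E 1) 432) 8 [(0, 3)] c0_3
    (ofEdges [(0, 1), (1, 2), (2, 3), (3, 4), (4, 5), (5, 6), (3, 7)])
    (full 8 ^^^ ofEdges []) = true := by
  decide +kernel

def c0_4 : Tr := .br 0 5 (.bad [6,5,0,1,2,3,4,7]) (.br 0 6 (.bad [3,2,1,0,6,5,4,7]) (.br 3 6 (.bad [0,1,2,3,6,5,4,7]) (.br 0 7 (.bad [3,2,1,0,7,4,5,6]) (.br 3 7 (.bad [0,1,2,3,7,4,5,6]) (.br 5 7 (.bad [0,1,2,3,4,7,5,6]) (.br 6 7 (.bad [0,1,2,3,4,5,6,7]) (.br 2 6 (.br 0 3 (.bad [1,0,3,2,6,5,4,7]) (.br 3 5 (.bad [0,1,2,6,5,3,4,7]) (.br 1 5 (.bad [0,1,5,6,2,3,4,7]) (.br 1 3 (.bad [0,1,3,2,6,5,4,7]) (.ok))))) (.br 1 6 (.br 0 2 (.bad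 [3,2,0,1,6,5,4,7]) (.br 0 3 (.bad [0,3,2,1,6,5,4,7]) (.ok))) (.br 3 5 (.br 0 4 (.bad [6,5,3,2,1,0,4,7]) (.br 4 6 (.bad [0,1,2,3,5,6,4,7]) (.ok))) (.br 0 3 (.br 2 5 (.bad [6,5,2,1,0,3,4,7]) (.ok)) (.ok)))))))))))

theorem c0_4_chk : chk (fun E => Nat.ble (total 7 E 1) 432) 8 [(0, 3)] c0_4
    (ofEdges [(0, 1), (1, 2), (2, 3), (3, 4), (4, 5), (5, 6), (4, 7)])
    (full 8 ^^^ ofEdges []) = true := by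
  decide +kernel

def c0_5 : Tr := .br 0 6 (.bad [4,3,2,1,0,6,5,7]) (.br 4 6 (.bad [0,1,2,3,4,6,5,7]) (.br 0 7 (.bad [4,3,2,1,0,7,5,6]) (.br 4 7 (.bad [0,1,2,3,4,7,5,6]) (.br 6 7 (.bad [0,1,2,3,4,5,6,7]) (.br 2 6 (.br 0 4 (.bad [1,0,4,3,2,6,5,7]) (.br 0 3 (.bad [4,3,0,1,2,6,5,7]) (.br 3 6 (.bad [0,1,2,6,3,4,5,7]) (.br 1 4 (.bad [0,1,4,3,2,6,5,7]) (.br 1 6 (.bad [0,1,6,2,3,4,5,7]) (.ok)))))) (.br 1 6 (.br 0 2 (.bad [4,3,2,0,1,6,5,7]) (.br 0 4 (.bad [0,4,3,2,1,6,5,7]) (.br 2 7 (.bad [0,1,6,5,4,3,2,7]) (.br 2 4 (.br 0 3 (.bad [0,3,4,2,1,6,5,7]) (.ok)) (.ok))))) (.br 3 6 (.br 0 4 (.bad [2,1,0,4,3,6,5,7]) (.br 2 4 (.bad [0,1,2,4,3,6,5,7]) (.br 2 7 (.bad [0,1,2,7,5,4,3,6]) (.br 0 2 (.br 1 4 (.bad [0,2,1,4,3,6,5,7]) (.ok)) (.ok))))) (.br 0 2 (.br 1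 7 (.bad [4,3,2,0,1,7,5,6]) (.br 0 3 (.br 0 4 (.deg 0 [1,2,3,4]) (.br 0 5 (.deg 0 [1,2,3,5]) (.ok))) (.br 0 4 (.br 0 5 (.deg 0 [1,2,4,5]) (.ok)) (.ok)))) (.br 0 3 (.br 2 7 (.bad [4,3,0,1,2,7,5,6]) (.br 0 4 (.br 0 5 (.deg 0 [1,3,4,5]) (.ok)) (.ok))) (.ok))))))))))

theorem c0_5_chk : chk (fun E => Nat.ble (total 7 E 1) 432) 8 [(0, 3)] c0_5
    (ofEdges [(0, 1), (1, 2), (2, 3), (3, 4), (4, 5), (5, 6), (5, 7)])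
    (full 8 ^^^ ofEdges []) = true := by
  decide +kernel

def c0_6 : Tr := .bad [0,1,2,3,4,5,6,7]

theorem c0_6_chk : chk (fun E => Nat.ble (total 7 E 1) 432) 8 [(0, 3)] c0_6
    (ofEdges [(0, 1), (1, 2), (2, 3), (3, 4), (4, 5), (5, 6), (6, 7)])
    (full 8 ^^^ ofEdges []) = true := by
  decide +kernel

def c1 : Tr := .br 0 7 (.bad [6,5,4,3,2,1,0,7]) (.br 6 7 (.bad [0,1,2,3,4,5,6,7]) (.br 0 6 (.br 1 7 (.bad [0,6,5,4,3,2,1,7]) (.br 2 7 (.bad [1,0,6,5,4,3,2,7]) (.br 3 7 (.bad [2,1,0,6,5,4,3,7]) (.br 4 7 (.bad [3,2,1,0,6,5,4,7]) (.br 5 7 (.bad [4,3,2,1,0,6,5,7]) (.ok)))))) (.br 2 7 (.br 0 3 (.bad [6,5,4,3,0,1,2,7]) (.br 3 7 (.bad [0,1,2,7,3,4,5,6]) (.br 1 7 (.bad [0,1,7,2,3,4,5,6]) (.br 1 6 (.bad [0,1,6,5,4,3,2,7]) (.br 4 7 (.br 5 7 (.bad [0,1,2,3,4,7,5,6])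 (.br 0 5 (.bad [3,4,7,2,1,0,5,6]) (.ok))) (.br 5 7 (.br 0 4 (.bad [1,0,4,3,2,7,5,6]) (.ok)) (.ok))))))) (.br 4 7 (.br 3 7 (.bad [0,1,2,3,7,4,5,6]) (.br 5 7 (.bad [0,1,2,3,4,7,5,6]) (.br 0 5 (.bad [6,5,0,1,2,3,4,7]) (.br 3 6 (.bad [0,1,2,3,6,5,4,7]) (.br 1 7 (.br 0 2 (.bad [3,2,0,1,7,4,5,6]) (.ok)) (.ok)))))) (.br 3 7 (.br 0 4 (.bad [6,5,4,0,1,2,3,7]) (.br 2 6 (.bad [0,1,2,6,5,4,3,7]) (.br 2 4 (.br 1 7 (.bad [0,1,7,3,2,4,5,6]) (.br 5 7 (.bad [0,1,2,4,3,7,5,6]) (.ok))) (.br 0 2 (.br 1 7 (.bad [0,2,1,7,3,4,5,6]) (.ok)) (.br 4 6 (.br 0 5 (.bad [2,1,0,5,6,4,3,7]) (.ok)) (.ok)))))) (.br 0 2 (.br 1 7 (.bad [6,5,4,3,2,0,1,7]) (.ok)) (.br 4 6 (.br 5 7 (.bad [0,1,2,3,4,6,5,7]) (.ok)) (.br 1 7 (.br 0 4 (.br 5 7 (.bad [0,4,3,2,1,7,5,6]) (.ok)) (.ok)) (.ok)))))))))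

theorem c1_chk : chk (fun E => Nat.ble (total 8 E 129) 432) 8 [(0, 3)] c1
    (ofEdges [(0, 1), (1, 2), (2, 3), (3, 4), (4, 5), (5, 6)])
    (full 8 ^^^ ofEdges []) = true := by
  decide +kernel

def c1s : Tr := .br 0 7 (.bad [6,5,4,3,2,1,0,7]) (.br 6 7 (.bad [0,1,2,3,4,5,6,7]) (.br 0 6 (.br 1 7 (.bad [0,6,5,4,3,2,1,7]) (.br 2 7 (.bad [1,0,6,5,4,3,2,7]) (.br 3 7 (.bad [2,1,0,6,5,4,3,7]) (.br 4 7 (.bad [3,2,1,0,6,5,4,7]) (.br 5 7 (.bad [4,3,2,1,0,6,5,7]) (.ok)))))) (.br 2 7 (.br 0 3 (.bad [6,5,4,3,0,1,2,7]) (.br 3 7 (.bad [0,1,2,7,3,4,5,6]) (.br 1 7 (.bad [0,1,7,2,3,4,5,6]) (.br 1 6 (.bad [0,1,6,5,4,3,2,7]) (.br 4 7 (.br 5 7 (.bad [0,1,2,3,4,7,5,6]) (.br 0 5 (.bad [3,4,7,2,1,0,5,6]) (.br 1 3 (.bad [0,1,3,2,7,4,5,6]) (.ok)))) (.br 5 7 (.br 0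 4 (.bad [1,0,4,3,2,7,5,6]) (.br 1 4 (.bad [0,1,4,3,2,7,5,6]) (.ok))) (.ok))))))) (.br 4 7 (.br 3 7 (.bad [0,1,2,3,7,4,5,6]) (.br 5 7 (.bad [0,1,2,3,4,7,5,6]) (.br 0 5 (.bad [6,5,0,1,2,3,4,7]) (.br 3 6 (.bad [0,1,2,3,6,5,4,7]) (.br 1 7 (.br 0 2 (.bad [3,2,0,1,7,4,5,6]) (.br 0 3 (.bad [0,3,2,1,7,4,5,6]) (.ok))) (.ok)))))) (.br 3 7 (.br 0 4 (.bad [6,5,4,0,1,2,3,7]) (.br 2 6 (.bad [0,1,2,6,5,4,3,7]) (.br 1 7 (.br 5 7 (.deg 7 [1,3,5]) (.br 0 2 (.bad [0,2,1,7,3,4,5,6]) (.br 2 4 (.bad [0,1,7,3,2,4,5,6]) (.br 4 6 (.br 0 5 (.bad [0,5,6,4,3,2,1,7]) (.ok)) (.ok))))) (.br 2 4 (.br 5 7 (.bad [0,1,2,4,3,7,5,6]) (.ok)) (.br 4 6 (.br 5 7 (.bad [0,1,2,3,4,6,5,7]) (.ok)) (.br 0 2 (.br 1 4 (.bad [6,5,4,1,0,2,3,7]) (.br 1 6 (.bad [0,2,1,6,5,4,3,7]) (.br 0 3 (.br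 0 5 (.deg 0 [1,2,3,5]) (.ok)) (.ok)))) (.ok))))))) (.br 0 2 (.br 1 7 (.bad [6,5,4,3,2,0,1,7]) (.br 5 7 (.br 1 6 (.bad [4,3,2,0,1,6,5,7]) (.br 4 6 (.bad [0,1,2,3,4,6,5,7]) (.br 0 4 (.br 0 3 (.deg 0 [1,2,3,4]) (.ok)) (.ok)))) (.ok))) (.br 4 6 (.br 5 7 (.bad [0,1,2,3,4,6,5,7]) (.ok)) (.br 1 7 (.br 0 4 (.br 5 7 (.bad [0,4,3,2,1,7,5,6]) (.ok)) (.br 2 6 (.br 5 7 (.bad [0,1,7,5,4,3,2,6]) (.ok)) (.br 0 3 (.br 2 4 (.bad [6,5,4,2,3,0,1,7]) (.ok)) (.ok)))) (.ok)))))))))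

theorem c1s_chk : chk (fun E => Nat.ble (total 8 E 129) 216) 8 [(0, 3), (7, 2)] c1s
    (ofEdges [(0, 1), (1, 2), (2, 3), (3, 4), (4, 5), (5, 6)])
    (full 8 ^^^ ofEdges []) = true := by
  decide +kernel

def c2 : Tr := .br 0 7 (.bad [6,5,4,3,2,1,0,7]) (.br 0 8 (.bad [6,5,4,3,2,1,0,8]) (.br 6 7 (.bad [0,1,2,3,4,5,6,7]) (.br 6 8 (.bad [0,1,2,3,4,5,6,8]) (.br 0 6 (.br 1 7 (.bad [0,6,5,4,3,2,1,7]) (.br 2 7 (.bad [1,0,6,5,4,3,2,7]) (.br 3 7 (.bad [2,1,0,6,5,4,3,7]) (.br 4 7 (.bad [3,2,1,0,6,5,4,7]) (.br 5 7 (.bad [4,3,2,1,0,6,5,7]) (.ok)))))) (.br 2 7 (.br 0 3 (.bad [6,5,4,3,0,1,2,7]) (.br 1 7 (.bad [0,1,7,2,3,4,5,6]) (.br 3 7 (.bad [0,1,2,7,3,4,5,6]) (.br 1 6 (.bad [0,1,6,5,4,3,2,7]) (.br 0 5 (.br 4 7 (.bad [3,4,7,2,1,0,5,6]) (.br 1 8 (.bad [7,2,3,4,5,0,1,8])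 (.br 4 8 (.bad [6,5,0,1,2,3,4,8]) (.ok)))) (.br 5 7 (.br 0 4 (.bad [1,0,4,3,2,7,5,6]) (.br 4 7 (.bad [0,1,2,3,4,7,5,6]) (.ok))) (.br 1 8 (.br 0 2 (.bad [6,5,4,3,2,0,1,8]) (.ok)) (.ok)))))))) (.br 4 7 (.br 3 7 (.bad [0,1,2,3,7,4,5,6]) (.br 5 7 (.bad [0,1,2,3,4,7,5,6]) (.br 0 5 (.bad [6,5,0,1,2,3,4,7]) (.br 3 6 (.bad [0,1,2,3,6,5,4,7]) (.br 1 7 (.br 0 2 (.bad [3,2,0,1,7,4,5,6]) (.br 0 3 (.bad [0,3,2,1,7,4,5,6]) (.ok))) (.ok)))))) (.br 2 8 (.br 0 3 (.bad [6,5,4,3,0,1,2,8]) (.br 3 8 (.bad [0,1,2,8,3,4,5,6]) (.br 1 8 (.bad [0,1,8,2,3,4,5,6]) (.br 1 6 (.bad [0,1,6,5,4,3,2,8]) (.br 1 7 (.br 5 7 (.bad [0,1,7,5,4,3,2,8]) (.ok)) (.ok)))))) (.br 4 8 (.br 3 8 (.bad [0,1,2,3,8,4,5,6]) (.br 5 8 (.bad [0,1,2,3,4,8,5,6]) (.br 0 5 (.bad [6,5,0,1,2,3,4,8]) (.ok))))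 (.br 0 2 (.br 1 7 (.bad [6,5,4,3,2,0,1,7]) (.br 1 8 (.bad [6,5,4,3,2,0,1,8]) (.ok))) (.br 0 4 (.br 3 7 (.bad [6,5,4,0,1,2,3,7]) (.ok)) (.ok)))))))))))

theorem c2_chk : chk (fun E => Nat.ble (total 9 E 385) 144) 8 [(0, 3)] c2
    (ofEdges [(0, 1), (1, 2), (2, 3), (3, 4), (4, 5), (5, 6)])
    (full 9 ^^^ ofEdges [(7, 8)]) = true := by
  decide +kernel

def c2s : Tr := .br 0 7 (.bad [6,5,4,3,2,1,0,7]) (.br 0 8 (.bad [6,5,4,3,2,1,0,8]) (.br 6 7 (.bad [0,1,2,3,4,5,6,7]) (.br 6 8 (.bad [0,1,2,3,4,5,6,8]) (.br 0 6 (.br 1 7 (.bad [0,6,5,4,3,2,1,7]) (.br 2 7 (.bad [1,0,6,5,4,3,2,7]) (.br 3 7 (.bad [2,1,0,6,5,4,3,7]) (.br 4 7 (.bad [3,2,1,0,6,5,4,7]) (.br 5 7 (.bad [4,3,2,1,0,6,5,7]) (.ok)))))) (.br 2 7 (.br 0 3 (.bad [6,5,4,3,0,1,2,7]) (.br 1 7 (.bad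 [0,1,7,2,3,4,5,6]) (.br 3 7 (.bad [0,1,2,7,3,4,5,6]) (.br 1 6 (.bad [0,1,6,5,4,3,2,7]) (.br 0 5 (.br 4 7 (.bad [3,4,7,2,1,0,5,6]) (.br 1 8 (.bad [7,2,3,4,5,0,1,8]) (.br 4 8 (.bad [6,5,0,1,2,3,4,8]) (.br 3 8 (.bad [7,2,1,0,5,4,3,8]) (.ok))))) (.br 5 7 (.br 0 4 (.bad [1,0,4,3,2,7,5,6]) (.br 4 7 (.bad [0,1,2,3,4,7,5,6]) (.br 3 8 (.bad [0,1,2,7,5,4,3,8]) (.br 1 4 (.bad [0,1,4,3,2,7,5,6]) (.br 3 6 (.bad [0,1,2,7,5,4,3,6]) (.br 4 6 (.bad [0,1,2,3,4,6,5,7]) (.br 1 8 (.br 0 2 (.bad [3,4,5,7,2,0,1,8]) (.ok)) (.ok)))))))) (.br 1 8 (.br 0 2 (.bad [6,5,4,3,2,0,1,8]) (.br 2 8 (.bad [0,1,8,2,3,4,5,6]) (.ok))) (.br 3 8 (.br 0 4 (.bad [6,5,4,0,1,2,3,8]) (.ok)) (.br 4 8 (.br 5 8 (.bad [0,1,2,3,4,8,5,6]) (.ok)) (.ok)))))))))) (.br 4 7 (.br 3 7 (.bad [0,1,2,3,7,4,5,6])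 (.br 5 7 (.bad [0,1,2,3,4,7,5,6]) (.br 0 5 (.bad [6,5,0,1,2,3,4,7]) (.br 3 6 (.bad [0,1,2,3,6,5,4,7]) (.br 1 7 (.br 0 2 (.bad [3,2,0,1,7,4,5,6]) (.br 0 3 (.bad [0,3,2,1,7,4,5,6]) (.br 3 8 (.bad [6,5,4,7,1,2,3,8]) (.ok)))) (.br 3 8 (.br 0 4 (.bad [6,5,4,0,1,2,3,8]) (.br 4 8 (.bad [0,1,2,3,8,4,5,6]) (.ok))) (.br 1 8 (.br 0 2 (.bad [6,5,4,3,2,0,1,8]) (.ok)) (.ok)))))))) (.br 2 8 (.br 0 3 (.bad [6,5,4,3,0,1,2,8]) (.br 3 8 (.bad [0,1,2,8,3,4,5,6]) (.br 1 8 (.bad [0,1,8,2,3,4,5,6]) (.br 1 6 (.bad [0,1,6,5,4,3,2,8]) (.br 1 7 (.br 5 7 (.bad [0,1,7,5,4,3,2,8]) (.br 3 7 (.bad [6,5,4,3,7,1,2,8]) (.ok))) (.br 3 7 (.br 0 4 (.bad [6,5,4,0,1,2,3,7]) (.ok)) (.ok))))))) (.br 4 8 (.br 3 8 (.bad [0,1,2,3,8,4,5,6]) (.br 5 8 (.bad [0,1,2,3,4,8,5,6]) (.br 0 5 (.bad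 [6,5,0,1,2,3,4,8]) (.br 3 6 (.bad [0,1,2,3,6,5,4,8]) (.br 1 8 (.br 3 7 (.bad [6,5,4,8,1,2,3,7]) (.ok)) (.ok)))))) (.br 0 2 (.br 1 7 (.bad [6,5,4,3,2,0,1,7]) (.br 1 8 (.bad [6,5,4,3,2,0,1,8]) (.br 0 4 (.br 3 7 (.bad [6,5,4,0,1,2,3,7]) (.ok)) (.ok)))) (.br 0 4 (.br 3 7 (.bad [6,5,4,0,1,2,3,7]) (.br 3 8 (.bad [6,5,4,0,1,2,3,8]) (.ok))) (.br 0 3 (.br 0 5 (.br 1 7 (.br 2 4 (.bad [6,5,0,3,4,2,1,7]) (.br 2 6 (.bad [0,3,4,5,6,2,1,7]) (.br 4 6 (.bad [0,5,6,4,3,2,1,7]) (.br 3 7 (.br 5 7 (.deg 7 [1,3,5]) (.br 5 8 (.br 1 8 (.br 3 8 (.deg 8 [1,3,5]) (.ok)) (.ok)) (.ok))) (.br 3 8 (.br 1 8 (.br 5 8 (.deg 8 [1,3,5]) (.ok)) (.ok)) (.ok)))))) (.br 1 8 (.br 2 4 (.bad [6,5,0,3,4,2,1,8]) (.br 2 6 (.bad [0,3,4,5,6,2,1,8]) (.br 4 6 (.bad [0,5,6,4,3,2,1,8]) (.br 3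 8 (.br 5 8 (.deg 8 [1,3,5]) (.ok)) (.ok))))) (.ok))) (.br 5 7 (.br 2 6 (.bad [4,3,0,1,2,6,5,7]) (.br 4 6 (.bad [0,1,2,3,4,6,5,7]) (.br 1 7 (.br 3 7 (.deg 7 [1,3,5]) (.ok)) (.ok)))) (.ok))) (.br 0 5 (.br 3 7 (.br 2 4 (.bad [6,5,0,1,2,4,3,7]) (.br 2 6 (.bad [0,1,2,6,5,4,3,7]) (.br 4 6 (.bad [2,1,0,5,6,4,3,7]) (.br 1 7 (.br 5 7 (.deg 7 [1,3,5]) (.ok)) (.ok))))) (.ok)) (.ok)))))))))))))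

theorem c2s_chk : chk (fun E => Nat.ble (total 9 E 385) 48) 8 [(0, 3), (7, 2), (8, 2)] c2s
    (ofEdges [(0, 1), (1, 2), (2, 3), (3, 4), (4, 5), (5, 6)])
    (full 9 ^^^ ofEdges [(7, 8)]) = true := by
  decide +kernel

def c2a : Tr := .br 0 7 (.bad [5,4,3,2,1,0,7,8]) (.br 0 8 (.bad [5,4,3,2,1,0,8,7]) (.br 1 7 (.bad [6,5,4,3,2,1,7,8]) (.br 5 7 (.bad [0,1,2,3,4,5,7,8]) (.br 6 7 (.bad [0,1,2,3,4,5,6,7]) (.br 1 8 (.bad [6,5,4,3,2,1,8,7]) (.br 5 8 (.bad [0,1,2,3,4,5,8,7]) (.br 6 8 (.bad [0,1,2,3,4,5,6,8]) (.br 2 7 (.br 0 3 (.bad [5,4,3,0,1,2,7,8]) (.br 0 4 (.bad [6,5,4,0,1,2,7,8]) (.br 0 5 (.bad [1,0,5,4,3,2,7,8]) (.br 0 6 (.bad [0,6,5,4,3,2,7,8]) (.br 3 7 (.bad [0,1,2,7,3,4,5,6]) (.br 3 8 (.bad [0,1,2,7,8,3,4,5]) (.br 4 8 (.bad [0,1,2,7,8,4,5,6])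 (.br 1 3 (.bad [6,5,4,3,1,2,7,8]) (.br 1 5 (.bad [0,1,5,4,3,2,7,8]) (.br 1 6 (.bad [0,1,6,5,4,3,2,7]) (.ok))))))))))) (.br 3 7 (.br 4 7 (.bad [0,1,2,3,7,4,5,6]) (.br 2 8 (.bad [0,1,2,8,7,3,4,5]) (.br 4 8 (.bad [0,1,2,3,7,8,4,5]) (.br 0 4 (.bad [5,4,0,1,2,3,7,8]) (.br 0 5 (.bad [2,1,0,5,4,3,7,8]) (.br 0 6 (.bad [1,0,6,5,4,3,7,8]) (.br 1 4 (.bad [6,5,4,1,2,3,7,8]) (.br 1 6 (.bad [0,1,6,5,4,3,7,8]) (.br 2 5 (.bad [0,1,2,5,4,3,7,8]) (.ok)))))))))) (.br 4 7 (.br 2 8 (.bad [0,1,2,8,7,4,5,6]) (.br 3 8 (.bad [0,1,2,3,8,7,4,5]) (.br 0 5 (.bad [3,2,1,0,5,4,7,8]) (.br 0 6 (.bad [2,1,0,6,5,4,7,8]) (.br 1 5 (.bad [6,5,1,2,3,4,7,8]) (.br 1 6 (.bad [3,2,1,6,5,4,7,8]) (.br 2 6 (.bad [0,1,2,6,5,4,7,8]) (.br 3 5 (.bad [0,1,2,3,5,4,7,8]) (.br 3 6 (.bad [0,1,2,3,6,5,4,7])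 (.br 2 5 (.br 0 3 (.bad [1,0,3,2,5,4,7,8]) (.ok)) (.br 4 8 (.br 0 2 (.br 0 3 (.br 0 4 (.deg 0 [1,2,3,4]) (.ok)) (.ok)) (.ok)) (.ok)))))))))))) (.br 2 8 (.br 3 8 (.bad [0,1,2,8,3,4,5,6]) (.br 0 4 (.bad [6,5,4,0,1,2,8,7]) (.br 0 3 (.bad [5,4,3,0,1,2,8,7]) (.br 0 5 (.bad [1,0,5,4,3,2,8,7]) (.br 0 6 (.bad [0,6,5,4,3,2,8,7]) (.ok)))))) (.br 3 8 (.br 4 8 (.bad [0,1,2,3,8,4,5,6]) (.br 0 4 (.bad [5,4,0,1,2,3,8,7]) (.br 0 5 (.bad [2,1,0,5,4,3,8,7]) (.br 0 6 (.bad [1,0,6,5,4,3,8,7]) (.ok))))) (.br 4 8 (.br 0 5 (.bad [3,2,1,0,5,4,8,7]) (.br 0 6 (.bad [2,1,0,6,5,4,8,7]) (.br 1 5 (.bad [6,5,1,2,3,4,8,7]) (.br 1 6 (.bad [3,2,1,6,5,4,8,7]) (.br 2 6 (.bad [0,1,2,6,5,4,8,7]) (.ok)))))) (.ok))))))))))))))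

theorem c2a_chk : chk (fun E => Nat.ble (total 9 E 385) 48) 8 [(0, 3)] c2a
    (ofEdges [(0, 1), (1, 2), (2, 3), (3, 4), (4, 5), (5, 6), (7, 8)])
    (full 9 ^^^ ofEdges []) = true := by
  decide +kernel

def c3c : Tr := .br 0 7 (.bad [5,4,3,2,1,0,7,8]) (.br 0 8 (.bad [4,3,2,1,0,8,7,9]) (.br 0 9 (.bad [4,3,2,1,0,9,7,8]) (.br 1 7 (.bad [6,5,4,3,2,1,7,8]) (.br 5 7 (.bad [0,1,2,3,4,5,7,8]) (.br 6 7 (.bad [0,1,2,3,4,5,6,7]) (.br 2 8 (.bad [6,5,4,3,2,8,7,9]) (.br 4 8 (.bad [0,1,2,3,4,8,7,9]) (.br 1 8 (.bad [5,4,3,2,1,8,7,9]) (.br 5 8 (.bad [0,1,2,3,4,5,8,7]) (.br 6 8 (.bad [0,1,2,3,4,5,6,8]) (.br 2 9 (.bad [6,5,4,3,2,9,7,8]) (.br 4 9 (.bad [0,1,2,3,4,9,7,8]) (.br 1 9 (.bad [5,4,3,2,1,9,7,8]) (.br 5 9 (.bad [0,1,2,3,4,5,9,7]) (.br 6 9 (.bad [0,1,2,3,4,5,6,9])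 (.br 8 9 (.br 2 7 (.bad [6,5,4,3,2,7,8,9]) (.br 4 7 (.bad [0,1,2,3,4,7,8,9]) (.br 0 4 (.br 3 7 (.bad [2,1,0,4,3,7,8,9]) (.br 3 8 (.bad [2,1,0,4,3,8,7,9]) (.ok))) (.br 0 5 (.br 3 7 (.bad [1,0,5,4,3,7,8,9]) (.br 3 8 (.bad [1,0,5,4,3,8,7,9]) (.ok))) (.br 0 6 (.br 3 7 (.bad [0,6,5,4,3,7,8,9]) (.ok)) (.ok)))))) (.br 0 4 (.br 3 8 (.bad [2,1,0,4,3,8,7,9]) (.ok)) (.ok))))))))))))))))))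

theorem c3c_chk : chk (fun E => Nat.ble (total 10 E 897) 48) 8 [(0, 3)] c3c
    (ofEdges [(0, 1), (1, 2), (2, 3), (3, 4), (4, 5), (5, 6), (7, 8), (7, 9)])
    (full 10 ^^^ ofEdges []) = true := by
  decide +kernel

def c3e : Tr := .br 0 9 (.bad [6,5,4,3,2,1,0,9]) (.br 0 7 (.bad [5,4,3,2,1,0,7,8]) (.br 0 8 (.bad [5,4,3,2,1,0,8,7]) (.br 6 9 (.bad [0,1,2,3,4,5,6,9]) (.br 1 7 (.bad [6,5,4,3,2,1,7,8]) (.br 1 8 (.bad [6,5,4,3,2,1,8,7]) (.br 5 7 (.bad [0,1,2,3,4,5,7,8]) (.br 5 8 (.bad [0,1,2,3,4,5,8,7]) (.br 6 7 (.bad [0,1,2,3,4,5,6,7]) (.br 6 8 (.bad [0,1,2,3,4,5,6,8]) (.br 0 5 (.br 4 9 (.bad [6,5,0,1,2,3,4,9]) (.br 2 7 (.bad [1,0,5,4,3,2,7,8]) (.br 2 8 (.bad [1,0,5,4,3,2,8,7]) (.br 3 7 (.bad [2,1,0,5,4,3,7,8]) (.br 3 8 (.bad [2,1,0,5,4,3,8,7]) (.br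 4 7 (.bad [3,2,1,0,5,4,7,8]) (.ok))))))) (.br 0 4 (.br 3 9 (.bad [6,5,4,0,1,2,3,9]) (.br 2 7 (.bad [6,5,4,0,1,2,7,8]) (.br 2 8 (.bad [6,5,4,0,1,2,8,7]) (.br 3 7 (.bad [5,4,0,1,2,3,7,8]) (.br 3 8 (.bad [5,4,0,1,2,3,8,7]) (.br 0 2 (.br 1 9 (.bad [6,5,4,3,2,0,1,9]) (.ok)) (.ok))))))) (.br 2 9 (.br 0 3 (.bad [6,5,4,3,0,1,2,9]) (.br 1 9 (.bad [0,1,9,2,3,4,5,6]) (.br 3 9 (.bad [0,1,2,9,3,4,5,6]) (.ok)))) (.br 2 7 (.br 0 3 (.bad [5,4,3,0,1,2,7,8]) (.br 3 7 (.bad [0,1,2,7,3,4,5,6]) (.br 3 8 (.bad [0,1,2,7,8,3,4,5]) (.br 4 8 (.bad [0,1,2,7,8,4,5,6]) (.ok))))) (.br 2 8 (.br 0 3 (.bad [5,4,3,0,1,2,8,7]) (.br 3 7 (.bad [0,1,2,8,7,3,4,5]) (.br 4 7 (.bad [0,1,2,8,7,4,5,6]) (.ok)))) (.br 3 9 (.br 4 9 (.bad [0,1,2,3,9,4,5,6]) (.ok)) (.br 3 7 (.br 4 7 (.bad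 [0,1,2,3,7,4,5,6]) (.ok)) (.ok)))))))))))))))))

theorem c3e_chk : chk (fun E => Nat.ble (total 10 E 897) 8) 8 [(0, 3)] c3e
    (ofEdges [(0, 1), (1, 2), (2, 3), (3, 4), (4, 5), (5, 6), (7, 8)])
    (full 10 ^^^ ofEdges [(7, 9), (8, 9)]) = true := by
  decide +kernel

def c8_0 : Tr := .bad [6,5,4,3,2,1,0,7]

theorem c8_0_chk : chk (fun E => Nat.ble (total 8 E 0) 1440) 8 [] c8_0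
    (ofEdges [(0, 1), (1, 2), (2, 3), (3, 4), (4, 5), (5, 6), (0, 7)])
    (full 8 ^^^ ofEdges []) = true := by
  decide +kernel

def c8_1 : Tr := .br 0 2 (.bad [6,5,4,3,2,0,1,7]) (.br 0 6 (.bad [0,6,5,4,3,2,1,7]) (.br 0 7 (.bad [0,7,1,2,3,4,5,6]) (.br 2 7 (.bad [0,1,7,2,3,4,5,6]) (.br 6 7 (.bad [0,1,2,3,4,5,6,7]) (.br 0 4 (.br 2 6 (.bad [3,2,6,5,4,0,1,7]) (.br 0 3 (.bad [6,5,4,0,3,2,1,7]) (.br 3 6 (.bad [0,4,5,6,3,2,1,7]) (.br 3 7 (.bad [2,3,7,1,0,4,5,6]) (.br 2 5 (.bad [6,5,2,3,4,0,1,7]) (.br 0 5 (.bad [6,5,0,4,3,2,1,7]) (.ok))))))) (.br 4 7 (.br 2 6 (.bad [0,1,7,4,3,2,6,5]) (.br 2 5 (.bad [0,1,7,4,3,2,5,6]) (.br 5 7 (.bad [0,1,2,3,4,7,5,6]) (.br 0 5 (.bad [2,3,4,7,1,0,5,6]) (.br 3 6 (.bad [0,1,2,3,6,5,4,7]) (.ok)))))) (.br 2 6 (.br 0 3 (.bad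 [0,3,4,5,6,2,1,7]) (.br 3 7 (.bad [0,1,2,6,5,4,3,7]) (.br 0 5 (.bad [4,3,2,6,5,0,1,7]) (.br 5 7 (.bad [0,1,7,5,4,3,2,6]) (.ok))))) (.br 2 4 (.br 0 3 (.bad [6,5,4,2,3,0,1,7]) (.br 3 7 (.bad [0,1,7,3,2,4,5,6]) (.br 0 5 (.br 3 6 (.bad [0,5,6,3,4,2,1,7]) (.ok)) (.ok)))) (.br 4 6 (.br 0 5 (.bad [0,5,6,4,3,2,1,7]) (.br 5 7 (.bad [0,1,2,3,4,6,5,7]) (.ok))) (.ok))))))))))

theorem c8_1_chk : chk (fun E => Nat.ble (total 8 E 0) 1440) 8 [] c8_1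
    (ofEdges [(0, 1), (1, 2), (2, 3), (3, 4), (4, 5), (5, 6), (1, 7)])
    (full 8 ^^^ ofEdges []) = true := by
  decide +kernel

def c8_2 : Tr := .br 0 3 (.bad [6,5,4,3,0,1,2,7]) (.br 0 6 (.bad [1,0,6,5,4,3,2,7]) (.br 0 7 (.bad [1,0,7,2,3,4,5,6]) (.br 3 7 (.bad [0,1,2,7,3,4,5,6]) (.br 6 7 (.bad [0,1,2,3,4,5,6,7]) (.br 1 6 (.bad [0,1,6,5,4,3,2,7]) (.br 1 7 (.bad [0,1,7,2,3,4,5,6]) (.br 0 4 (.br 1 3 (.bad [6,5,4,0,1,3,2,7]) (.br 3 6 (.bad [1,0,4,5,6,3,2,7]) (.br 1 5 (.bad [6,5,1,0,4,3,2,7]) (.br 3 5 (.bad [6,5,3,4,0,1,2,7]) (.ok))))) (.br 4 7 (.br 1 3 (.bad [0,1,3,2,7,4,5,6]) (.br 3 6 (.bad [0,1,2,3,6,5,4,7]) (.br 0 5 (.bad [3,4,7,2,1,0,5,6]) (.ok)))) (.br 0 5 (.br 1 4 (.bad [6,5,0,1,4,3,2,7]) (.br 3 6 (.bad [4,3,6,5,0,1,2,7]) (.ok))) (.br 5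 7 (.br 1 4 (.bad [0,1,4,3,2,7,5,6]) (.ok)) (.ok)))))))))))

theorem c8_2_chk : chk (fun E => Nat.ble (total 8 E 0) 1440) 8 [] c8_2
    (ofEdges [(0, 1), (1, 2), (2, 3), (3, 4), (4, 5), (5, 6), (2, 7)])
    (full 8 ^^^ ofEdges []) = true := by
  decide +kernel

def c8_3 : Tr := .br 0 4 (.bad [6,5,4,0,1,2,3,7]) (.br 0 6 (.bad [2,1,0,6,5,4,3,7]) (.br 0 7 (.bad [2,1,0,7,3,4,5,6]) (.br 4 7 (.bad [0,1,2,3,7,4,5,6]) (.br 6 7 (.bad [0,1,2,3,4,5,6,7]) (.br 2 6 (.bad [0,1,2,6,5,4,3,7]) (.br 2 7 (.bad [0,1,2,7,3,4,5,6]) (.br 2 4 (.br 0 3 (.bad [6,5,4,2,1,0,3,7]) (.br 3 6 (.bad [0,1,2,4,5,6,3,7]) (.br 0 5 (.bad [6,5,0,1,2,4,3,7]) (.br 5 7 (.bad [0,1,2,4,3,7,5,6]) (.ok))))) (.br 0 2 (.br 1 4 (.bad [6,5,4,1,0,2,3,7]) (.br 1 6 (.bad [0,2,1,6,5,4,3,7]) (.br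 1 7 (.bad [0,2,1,7,3,4,5,6]) (.ok)))) (.br 4 6 (.br 0 5 (.bad [2,1,0,5,6,4,3,7]) (.br 2 5 (.bad [0,1,2,5,6,4,3,7]) (.ok))) (.ok))))))))))

theorem c8_3_chk : chk (fun E => Nat.ble (total 8 E 0) 1440) 8 [] c8_3
    (ofEdges [(0, 1), (1, 2), (2, 3), (3, 4), (4, 5), (5, 6), (3, 7)])
    (full 8 ^^^ ofEdges []) = true := by
  decide +kernel

def c8_4 : Tr := .br 0 5 (.bad [6,5,0,1,2,3,4,7]) (.br 0 6 (.bad [3,2,1,0,6,5,4,7]) (.br 0 7 (.bad [3,2,1,0,7,4,5,6]) (.br 5 7 (.bad [0,1,2,3,4,7,5,6]) (.br 6 7 (.bad [0,1,2,3,4,5,6,7]) (.br 3 6 (.bad [0,1,2,3,6,5,4,7]) (.br 3 7 (.bad [0,1,2,3,7,4,5,6]) (.br 2 6 (.br 3 5 (.bad [0,1,2,6,5,3,4,7]) (.br 0 3 (.bad [1,0,3,2,6,5,4,7]) (.br 1 5 (.bad [0,1,5,6,2,3,4,7]) (.br 1 3 (.bad [0,1,3,2,6,5,4,7]) (.ok))))) (.br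 2 7 (.br 3 5 (.bad [0,1,2,7,4,3,5,6]) (.br 0 3 (.bad [1,0,3,2,7,4,5,6]) (.br 1 6 (.bad [0,1,6,5,4,3,2,7]) (.ok)))) (.br 1 6 (.br 2 5 (.bad [0,1,6,5,2,3,4,7]) (.br 0 2 (.bad [3,2,0,1,6,5,4,7]) (.ok))) (.br 1 7 (.br 2 5 (.bad [0,1,7,4,3,2,5,6]) (.ok)) (.ok)))))))))))

theorem c8_4_chk : chk (fun E => Nat.ble (total 8 E 0) 1440) 8 [] c8_4
    (ofEdges [(0, 1), (1, 2), (2, 3), (3, 4), (4, 5), (5, 6), (4, 7)])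
    (full 8 ^^^ ofEdges []) = true := by
  decide +kernel

def c8_5 : Tr := .br 0 6 (.bad [4,3,2,1,0,6,5,7]) (.br 0 7 (.bad [4,3,2,1,0,7,5,6]) (.br 6 7 (.bad [0,1,2,3,4,5,6,7]) (.br 4 6 (.bad [0,1,2,3,4,6,5,7]) (.br 4 7 (.bad [0,1,2,3,4,7,5,6]) (.br 2 6 (.br 0 4 (.bad [1,0,4,3,2,6,5,7]) (.br 0 3 (.bad [4,3,0,1,2,6,5,7]) (.br 3 6 (.bad [0,1,2,6,3,4,5,7]) (.br 3 7 (.bad [0,1,2,6,5,4,3,7]) (.br 1 4 (.bad [0,1,4,3,2,6,5,7]) (.br 1 6 (.bad [0,1,6,2,3,4,5,7]) (.ok))))))) (.br 2 7 (.br 0 4 (.bad [1,0,4,3,2,7,5,6]) (.br 0 3 (.bad [4,3,0,1,2,7,5,6]) (.br 3 7 (.bad [0,1,2,7,3,4,5,6]) (.br 3 6 (.bad [0,1,2,7,5,4,3,6]) (.br 1 4 (.bad [0,1,4,3,2,7,5,6]) (.ok)))))) (.br 0 4 (.br 1 6 (.bad [0,4,3,2,1,6,5,7]) (.br 1 7 (.bad [0,4,3,2,1,7,5,6]) (.br 3 6 (.bad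 [2,1,0,4,3,6,5,7]) (.br 3 7 (.bad [2,1,0,4,3,7,5,6]) (.ok))))) (.br 0 2 (.br 1 6 (.bad [4,3,2,0,1,6,5,7]) (.br 1 7 (.bad [4,3,2,0,1,7,5,6]) (.br 3 6 (.br 1 4 (.bad [0,2,1,4,3,6,5,7]) (.ok)) (.ok)))) (.br 2 4 (.br 3 6 (.bad [0,1,2,4,3,6,5,7]) (.br 3 7 (.bad [0,1,2,4,3,7,5,6]) (.ok))) (.ok))))))))))

theorem c8_5_chk : chk (fun E => Nat.ble (total 8 E 0) 1440) 8 [] c8_5
    (ofEdges [(0, 1), (1, 2), (2, 3), (3, 4), (4, 5), (5, 6), (5, 7)])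
    (full 8 ^^^ ofEdges []) = true := by
  decide +kernel

def c8_6 : Tr := .bad [0,1,2,3,4,5,6,7]

theorem c8_6_chk : chk (fun E => Nat.ble (total 8 E 0) 1440) 8 [] c8_6
    (ofEdges [(0, 1), (1, 2), (2, 3), (3, 4), (4, 5), (5, 6), (6, 7)])
    (full 8 ^^^ ofEdges []) = true := by
  decide +kernel

def cd_0 : Tr := .bad [6,5,4,3,2,1,0,7]

theorem cd_0_chk : chk (fun E => Nat.ble (rowc 127 E 0) 3 || Nat.ble (rowc 127 E 6) 3) 8 [] cd_0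
    (ofEdges [(0, 1), (1, 2), (2, 3), (3, 4), (4, 5), (5, 6), (0, 7)])
    (full 8 ^^^ ofEdges []) = true := by
  decide +kernel

def cd_1 : Tr := .br 0 2 (.bad [6,5,4,3,2,0,1,7]) (.br 0 6 (.bad [0,6,5,4,3,2,1,7]) (.br 0 7 (.bad [0,7,1,2,3,4,5,6]) (.br 2 7 (.bad [0,1,7,2,3,4,5,6]) (.br 6 7 (.bad [0,1,2,3,4,5,6,7]) (.br 0 4 (.br 0 3 (.bad [6,5,4,0,3,2,1,7]) (.ok)) (.ok))))))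

theorem cd_1_chk : chk (fun E => Nat.ble (rowc 127 E 0) 3 || Nat.ble (rowc 127 E 6) 3) 8 [] cd_1
    (ofEdges [(0, 1), (1, 2), (2, 3), (3, 4), (4, 5), (5, 6), (1, 7)])
    (full 8 ^^^ ofEdges []) = true := by
  decide +kernel

def cd_2 : Tr := .br 0 3 (.bad [6,5,4,3,0,1,2,7]) (.br 0 6 (.bad [1,0,6,5,4,3,2,7]) (.br 0 7 (.bad [1,0,7,2,3,4,5,6]) (.br 1 6 (.bad [0,1,6,5,4,3,2,7]) (.br 1 7 (.bad [0,1,7,2,3,4,5,6]) (.br 3 7 (.bad [0,1,2,7,3,4,5,6]) (.br 6 7 (.bad [0,1,2,3,4,5,6,7]) (.br 1 3 (.br 0 2 (.bad [6,5,4,3,1,0,2,7]) (.ok)) (.br 5 7 (.br 0 4 (.bad [1,0,4,3,2,7,5,6]) (.ok)) (.br 0 5 (.br 3 6 (.bad [4,3,6,5,0,1,2,7]) (.ok)) (.ok))))))))))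

theorem cd_2_chk : chk (fun E => Nat.ble (rowc 127 E 0) 3 || Nat.ble (rowc 127 E 6) 3) 8 [] cd_2
    (ofEdges [(0, 1), (1, 2), (2, 3), (3, 4), (4, 5), (5, 6), (2, 7)])
    (full 8 ^^^ ofEdges []) = true := by
  decide +kernel

def cd_3 : Tr := .br 0 4 (.bad [6,5,4,0,1,2,3,7]) (.br 0 6 (.bad [2,1,0,6,5,4,3,7]) (.br 0 7 (.bad [2,1,0,7,3,4,5,6]) (.br 2 6 (.bad [0,1,2,6,5,4,3,7]) (.br 2 7 (.bad [0,1,2,7,3,4,5,6]) (.br 4 7 (.bad [0,1,2,3,7,4,5,6]) (.br 6 7 (.bad [0,1,2,3,4,5,6,7]) (.br 2 4 (.br 0 3 (.bad [6,5,4,2,1,0,3,7]) (.ok)) (.br 0 2 (.br 1 6 (.bad [0,2,1,6,5,4,3,7]) (.ok)) (.ok)))))))))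

theorem cd_3_chk : chk (fun E => Nat.ble (rowc 127 E 0) 3 || Nat.ble (rowc 127 E 6) 3) 8 [] cd_3
    (ofEdges [(0, 1), (1, 2), (2, 3), (3, 4), (4, 5), (5, 6), (3, 7)])
    (full 8 ^^^ ofEdges []) = true := by
  decide +kernel

def cd_4 : Tr := .br 0 5 (.bad [6,5,0,1,2,3,4,7]) (.br 0 6 (.bad [3,2,1,0,6,5,4,7]) (.br 0 7 (.bad [3,2,1,0,7,4,5,6]) (.br 3 6 (.bad [0,1,2,3,6,5,4,7]) (.br 3 7 (.bad [0,1,2,3,7,4,5,6]) (.br 5 7 (.bad [0,1,2,3,4,7,5,6]) (.br 6 7 (.bad [0,1,2,3,4,5,6,7]) (.br 1 7 (.br 0 2 (.bad [3,2,0,1,7,4,5,6]) (.ok)) (.br 3 5 (.br 0 4 (.bad [6,5,3,2,1,0,4,7]) (.ok)) (.br 0 3 (.br 1 6 (.bad [0,3,2,1,6,5,4,7]) (.ok)) (.ok))))))))))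

theorem cd_4_chk : chk (fun E => Nat.ble (rowc 127 E 0) 3 || Nat.ble (rowc 127 E 6) 3) 8 [] cd_4
    (ofEdges [(0, 1), (1, 2), (2, 3), (3, 4), (4, 5), (5, 6), (4, 7)])
    (full 8 ^^^ ofEdges []) = true := by
  decide +kernel

def cd_5 : Tr := .br 0 6 (.bad [4,3,2,1,0,6,5,7]) (.br 4 6 (.bad [0,1,2,3,4,6,5,7]) (.br 0 7 (.bad [4,3,2,1,0,7,5,6]) (.br 4 7 (.bad [0,1,2,3,4,7,5,6]) (.br 6 7 (.bad [0,1,2,3,4,5,6,7]) (.br 2 6 (.br 1 6 (.bad [0,1,6,2,3,4,5,7]) (.ok)) (.ok))))))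

theorem cd_5_chk : chk (fun E => Nat.ble (rowc 127 E 0) 3 || Nat.ble (rowc 127 E 6) 3) 8 [] cd_5
    (ofEdges [(0, 1), (1, 2), (2, 3), (3, 4), (4, 5), (5, 6), (5, 7)])
    (full 8 ^^^ ofEdges []) = true := by
  decide +kernel

def cd_6 : Tr := .bad [0,1,2,3,4,5,6,7]

theorem cd_6_chk : chk (fun E => Nat.ble (rowc 127 E 0) 3 || Nat.ble (rowc 127 E 6) 3) 8 [] cd_6
    (ofEdges [(0, 1), (1, 2), (2, 3), (3, 4), (4, 5), (5, 6), (6, 7)])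
    (full 8 ^^^ ofEdges []) = true := by
  decide +kernel

def ce_0 : Tr := .bad [5,4,3,2,1,0,7,8]

theorem ce_0_chk : chk (fun E => Nat.ble (rowc 127 E 9) 2 || Nat.ble (rowc 127 E 9) 2) 8 [] ce_0
    (ofEdges [(0, 1), (1, 2), (2, 3), (3, 4), (4, 5), (5, 6), (0, 7), (7, 8)])
    (full 10 ^^^ ofEdges []) = true := by
  decide +kernel

def ce_1 : Tr := .bad [6,5,4,3,2,1,7,8]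

theorem ce_1_chk : chk (fun E => Nat.ble (rowc 127 E 9) 2 || Nat.ble (rowc 127 E 9) 2) 8 [] ce_1
    (ofEdges [(0, 1), (1, 2), (2, 3), (3, 4), (4, 5), (5, 6), (1, 7), (7, 8)])
    (full 10 ^^^ ofEdges []) = true := by
  decide +kernel

def ce_2 : Tr := .br 0 9 (.bad [6,5,4,3,2,1,0,9]) (.br 6 9 (.bad [0,1,2,3,4,5,6,9]) (.br 0 3 (.bad [5,4,3,0,1,2,7,8]) (.br 0 4 (.bad [6,5,4,0,1,2,7,8]) (.br 0 5 (.bad [1,0,5,4,3,2,7,8]) (.br 0 6 (.bad [0,6,5,4,3,2,7,8]) (.br 0 7 (.bad [1,0,7,2,3,4,5,6]) (.br 0 8 (.bad [0,8,7,2,3,4,5,6]) (.br 1 3 (.bad [6,5,4,3,1,2,7,8]) (.br 1 5 (.bad [0,1,5,4,3,2,7,8]) (.br 1 6 (.bad [0,1,6,5,4,3,2,7]) (.br 1 7 (.bad [0,1,7,2,3,4,5,6]) (.br 1 8 (.bad [0,1,8,7,2,3,4,5]) (.br 3 7 (.bad [0,1,2,7,3,4,5,6]) (.br 3 8 (.bad [0,1,2,7,8,3,4,5])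 (.br 4 8 (.bad [0,1,2,7,8,4,5,6]) (.br 5 7 (.bad [0,1,2,3,4,5,7,8]) (.br 5 8 (.bad [0,1,2,3,4,5,8,7]) (.br 6 7 (.bad [0,1,2,3,4,5,6,7]) (.br 6 8 (.bad [0,1,2,3,4,5,6,8]) (.br 8 9 (.bad [6,5,4,3,2,7,8,9]) (.br 1 9 (.br 2 9 (.bad [0,1,9,2,3,4,5,6]) (.br 3 9 (.bad [5,4,3,9,1,2,7,8]) (.br 4 9 (.bad [0,1,9,4,3,2,7,8]) (.ok)))) (.br 7 9 (.br 2 9 (.bad [6,5,4,3,2,9,7,8]) (.br 3 9 (.bad [0,1,2,7,9,3,4,5]) (.ok))) (.br 3 9 (.br 2 9 (.bad [0,1,2,9,3,4,5,6]) (.br 4 9 (.bad [0,1,2,3,9,4,5,6]) (.ok))) (.br 4 9 (.br 5 9 (.bad [0,1,2,3,4,9,5,6]) (.ok)) (.ok)))))))))))))))))))))))))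

theorem ce_2_chk : chk (fun E => Nat.ble (rowc 127 E 9) 2 || Nat.ble (rowc 127 E 9) 2) 8 [] ce_2
    (ofEdges [(0, 1), (1, 2), (2, 3), (3, 4), (4, 5), (5, 6), (2, 7), (7, 8)])
    (full 10 ^^^ ofEdges []) = true := by
  decide +kernel

def ce_3 : Tr := .br 0 9 (.bad [6,5,4,3,2,1,0,9]) (.br 6 9 (.bad [0,1,2,3,4,5,6,9]) (.br 0 4 (.bad [5,4,0,1,2,3,7,8]) (.br 0 5 (.bad [2,1,0,5,4,3,7,8]) (.br 0 6 (.bad [1,0,6,5,4,3,7,8]) (.br 0 7 (.bad [2,1,0,7,3,4,5,6]) (.br 0 8 (.bad [1,0,8,7,3,4,5,6]) (.br 1 4 (.bad [6,5,4,1,2,3,7,8]) (.br 1 6 (.bad [0,1,6,5,4,3,7,8]) (.br 1 7 (.bad [6,5,4,3,2,1,7,8]) (.br 1 8 (.bad [0,1,8,7,3,4,5,6]) (.br 2 5 (.bad [0,1,2,5,4,3,7,8]) (.br 2 6 (.bad [0,1,2,6,5,4,3,7]) (.br 2 7 (.bad [0,1,2,7,3,4,5,6]) (.br 2 8 (.bad [0,1,2,8,7,3,4,5])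 (.br 4 7 (.bad [0,1,2,3,7,4,5,6]) (.br 4 8 (.bad [0,1,2,3,7,8,4,5]) (.br 5 7 (.bad [0,1,2,3,4,5,7,8]) (.br 5 8 (.bad [0,1,2,3,4,5,8,7]) (.br 6 7 (.bad [0,1,2,3,4,5,6,7]) (.br 6 8 (.bad [0,1,2,3,4,5,6,8]) (.br 2 9 (.br 1 9 (.bad [0,1,9,2,3,4,5,6]) (.br 3 9 (.bad [0,1,2,9,3,4,5,6]) (.br 4 9 (.bad [0,1,2,9,4,3,7,8]) (.ok)))) (.br 4 9 (.br 1 9 (.bad [5,4,9,1,2,3,7,8]) (.br 3 9 (.bad [0,1,2,3,9,4,5,6]) (.ok))) (.br 1 9 (.br 5 9 (.bad [0,1,9,5,4,3,7,8]) (.ok)) (.ok))))))))))))))))))))))))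

theorem ce_3_chk : chk (fun E => Nat.ble (rowc 127 E 9) 2 || Nat.ble (rowc 127 E 9) 2) 8 [] ce_3
    (ofEdges [(0, 1), (1, 2), (2, 3), (3, 4), (4, 5), (5, 6), (3, 7), (7, 8)])
    (full 10 ^^^ ofEdges []) = true := by
  decide +kernel

def ce_4 : Tr := .br 0 9 (.bad [6,5,4,3,2,1,0,9]) (.br 6 9 (.bad [0,1,2,3,4,5,6,9]) (.br 0 5 (.bad [3,2,1,0,5,4,7,8]) (.br 0 6 (.bad [2,1,0,6,5,4,7,8]) (.br 0 7 (.bad [3,2,1,0,7,4,5,6]) (.br 0 8 (.bad [2,1,0,8,7,4,5,6]) (.br 1 5 (.bad [6,5,1,2,3,4,7,8]) (.br 1 6 (.bad [3,2,1,6,5,4,7,8]) (.br 1 7 (.bad [6,5,4,3,2,1,7,8]) (.br 1 8 (.bad [3,2,1,8,7,4,5,6]) (.br 2 6 (.bad [0,1,2,6,5,4,7,8]) (.br 2 8 (.bad [0,1,2,8,7,4,5,6]) (.br 3 5 (.bad [0,1,2,3,5,4,7,8]) (.br 3 6 (.bad [0,1,2,3,6,5,4,7]) (.br 3 7 (.bad [0,1,2,3,7,4,5,6])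 (.br 3 8 (.bad [0,1,2,3,8,7,4,5]) (.br 5 7 (.bad [0,1,2,3,4,5,7,8]) (.br 5 8 (.bad [0,1,2,3,4,5,8,7]) (.br 6 7 (.bad [0,1,2,3,4,5,6,7]) (.br 6 8 (.bad [0,1,2,3,4,5,6,8]) (.br 8 9 (.bad [0,1,2,3,4,7,8,9]) (.br 5 9 (.br 1 9 (.bad [3,2,1,9,5,4,7,8]) (.br 2 9 (.bad [0,1,2,9,5,4,7,8]) (.br 3 9 (.bad [0,1,2,3,9,5,4,7]) (.ok)))) (.br 7 9 (.br 1 9 (.bad [3,2,1,9,7,4,5,6]) (.br 2 9 (.bad [0,1,2,9,7,4,5,6]) (.ok))) (.br 2 9 (.br 1 9 (.bad [0,1,9,2,3,4,5,6]) (.br 3 9 (.bad [0,1,2,9,3,4,5,6]) (.ok))) (.br 3 9 (.br 4 9 (.bad [0,1,2,3,9,4,5,6]) (.ok)) (.ok)))))))))))))))))))))))))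

theorem ce_4_chk : chk (fun E => Nat.ble (rowc 127 E 9) 2 || Nat.ble (rowc 127 E 9) 2) 8 [] ce_4
    (ofEdges [(0, 1), (1, 2), (2, 3), (3, 4), (4, 5), (5, 6), (4, 7), (7, 8)])
    (full 10 ^^^ ofEdges []) = true := by
  decide +kernel

def ce_5 : Tr := .bad [0,1,2,3,4,5,7,8]

theorem ce_5_chk : chk (fun E => Nat.ble (rowc 127 E 9) 2 || Nat.ble (rowc 127 E 9) 2) 8 [] ce_5
    (ofEdges [(0, 1), (1, 2), (2, 3), (3, 4), (4, 5), (5, 6), (5, 7), (7, 8)])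
    (full 10 ^^^ ofEdges []) = true := by
  decide +kernel

def ce_6 : Tr := .bad [0,1,2,3,4,5,6,7]

theorem ce_6_chk : chk (fun E => Nat.ble (rowc 127 E 9) 2 || Nat.ble (rowc 127 E 9) 2) 8 [] ce_6
    (ofEdges [(0, 1), (1, 2), (2, 3), (3, 4), (4, 5), (5, 6), (6, 7), (7, 8)])
    (full 10 ^^^ ofEdges []) = true := by
  decide +kernel

def cf_0 : Tr := .bad [5,4,3,2,1,0,7,8]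

theorem cf_0_chk : chk (fun E => Nat.ble (rowc 127 E 7) 2 || Nat.ble (rowc 127 E 7) 2) 8 [] cf_0
    (ofEdges [(0, 1), (1, 2), (2, 3), (3, 4), (4, 5), (5, 6), (0, 7), (7, 8)])
    (full 9 ^^^ ofEdges []) = true := by
  decide +kernel

def cf_1 : Tr := .bad [6,5,4,3,2,1,7,8]

theorem cf_1_chk : chk (fun E => Nat.ble (rowc 127 E 7) 2 || Nat.ble (rowc 127 E 7) 2) 8 [] cf_1
    (ofEdges [(0, 1), (1, 2), (2, 3), (3, 4), (4, 5), (5, 6), (1, 7), (7, 8)])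
    (full 9 ^^^ ofEdges []) = true := by
  decide +kernel

def cf_2 : Tr := .br 0 7 (.bad [1,0,7,2,3,4,5,6]) (.br 1 7 (.bad [0,1,7,2,3,4,5,6]) (.br 3 7 (.bad [0,1,2,7,3,4,5,6]) (.br 5 7 (.bad [0,1,2,3,4,5,7,8]) (.br 6 7 (.bad [0,1,2,3,4,5,6,7]) (.ok)))))

theorem cf_2_chk : chk (fun E => Nat.ble (rowc 127 E 7) 2 || Nat.ble (rowc 127 E 7) 2) 8 [] cf_2
    (ofEdges [(0, 1), (1, 2), (2, 3), (3, 4), (4, 5), (5, 6), (2, 7), (7, 8)])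
    (full 9 ^^^ ofEdges []) = true := by
  decide +kernel

def cf_3 : Tr := .br 0 7 (.bad [2,1,0,7,3,4,5,6]) (.br 1 7 (.bad [6,5,4,3,2,1,7,8]) (.br 2 7 (.bad [0,1,2,7,3,4,5,6]) (.br 4 7 (.bad [0,1,2,3,7,4,5,6]) (.br 5 7 (.bad [0,1,2,3,4,5,7,8]) (.ok)))))

theorem cf_3_chk : chk (fun E => Nat.ble (rowc 127 E 7) 2 || Nat.ble (rowc 127 E 7) 2) 8 [] cf_3
    (ofEdges [(0, 1), (1, 2), (2, 3), (3, 4), (4, 5), (5, 6), (3, 7), (7, 8)])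
    (full 9 ^^^ ofEdges []) = true := by
  decide +kernel

def cf_4 : Tr := .br 0 7 (.bad [3,2,1,0,7,4,5,6]) (.br 1 7 (.bad [6,5,4,3,2,1,7,8]) (.br 3 7 (.bad [0,1,2,3,7,4,5,6]) (.br 5 7 (.bad [0,1,2,3,4,5,7,8]) (.br 6 7 (.bad [0,1,2,3,4,5,6,7]) (.ok)))))

theorem cf_4_chk : chk (fun E => Nat.ble (rowc 127 E 7) 2 || Nat.ble (rowc 127 E 7) 2) 8 [] cf_4
    (ofEdges [(0, 1), (1, 2), (2, 3), (3, 4), (4, 5), (5, 6), (4, 7), (7, 8)])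
    (full 9 ^^^ ofEdges []) = true := by
  decide +kernel

def cf_5 : Tr := .bad [0,1,2,3,4,5,7,8]

theorem cf_5_chk : chk (fun E => Nat.ble (rowc 127 E 7) 2 || Nat.ble (rowc 127 E 7) 2) 8 [] cf_5
    (ofEdges [(0, 1), (1, 2), (2, 3), (3, 4), (4, 5), (5, 6), (5, 7), (7, 8)])
    (full 9 ^^^ ofEdges []) = true := by
  decide +kernel

def cf_6 : Tr := .bad [0,1,2,3,4,5,6,7]

theorem cf_6_chk : chk (fun E => Nat.ble (rowc 127 E 7) 2 || Nat.ble (rowc 127 E 7) 2) 8 [] cf_6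
    (ofEdges [(0, 1), (1, 2), (2, 3), (3, 4), (4, 5), (5, 6), (6, 7), (7, 8)])
    (full 9 ^^^ ofEdges []) = true := by
  decide +kernel

def cg_0 : Tr := .bad [5,4,3,2,1,0,7,8]

theorem cg_0_chk : chk (fun E => Nat.ble (rowc 127 E 8) 2 || Nat.ble (rowc 127 E 8) 2) 8 [] cg_0
    (ofEdges [(0, 1), (1, 2), (2, 3), (3, 4), (4, 5), (5, 6), (0, 7), (7, 8)])
    (full 9 ^^^ ofEdges []) = true := by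
  decide +kernel

def cg_1 : Tr := .bad [6,5,4,3,2,1,7,8]

theorem cg_1_chk : chk (fun E => Nat.ble (rowc 127 E 8) 2 || Nat.ble (rowc 127 E 8) 2) 8 [] cg_1
    (ofEdges [(0, 1), (1, 2), (2, 3), (3, 4), (4, 5), (5, 6), (1, 7), (7, 8)])
    (full 9 ^^^ ofEdges []) = true := by
  decide +kernel

def cg_2 : Tr := .br 0 8 (.bad [0,8,7,2,3,4,5,6]) (.br 1 8 (.bad [0,1,8,7,2,3,4,5]) (.br 3 8 (.bad [0,1,2,7,8,3,4,5]) (.br 4 8 (.bad [0,1,2,7,8,4,5,6]) (.br 5 8 (.bad [0,1,2,3,4,5,8,7]) (.ok)))))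

theorem cg_2_chk : chk (fun E => Nat.ble (rowc 127 E 8) 2 || Nat.ble (rowc 127 E 8) 2) 8 [] cg_2
    (ofEdges [(0, 1), (1, 2), (2, 3), (3, 4), (4, 5), (5, 6), (2, 7), (7, 8)])
    (full 9 ^^^ ofEdges []) = true := by
  decide +kernel

def cg_3 : Tr := .br 0 8 (.bad [1,0,8,7,3,4,5,6]) (.br 1 8 (.bad [0,1,8,7,3,4,5,6]) (.br 2 8 (.bad [0,1,2,8,7,3,4,5]) (.br 4 8 (.bad [0,1,2,3,7,8,4,5]) (.br 5 8 (.bad [0,1,2,3,4,5,8,7]) (.ok)))))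

theorem cg_3_chk : chk (fun E => Nat.ble (rowc 127 E 8) 2 || Nat.ble (rowc 127 E 8) 2) 8 [] cg_3
    (ofEdges [(0, 1), (1, 2), (2, 3), (3, 4), (4, 5), (5, 6), (3, 7), (7, 8)])
    (full 9 ^^^ ofEdges []) = true := by
  decide +kernel

def cg_4 : Tr := .br 0 8 (.bad [2,1,0,8,7,4,5,6]) (.br 1 8 (.bad [3,2,1,8,7,4,5,6]) (.br 2 8 (.bad [0,1,2,8,7,4,5,6]) (.br 3 8 (.bad [0,1,2,3,8,7,4,5]) (.br 5 8 (.bad [0,1,2,3,4,5,8,7]) (.ok)))))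

theorem cg_4_chk : chk (fun E => Nat.ble (rowc 127 E 8) 2 || Nat.ble (rowc 127 E 8) 2) 8 [] cg_4
    (ofEdges [(0, 1), (1, 2), (2, 3), (3, 4), (4, 5), (5, 6), (4, 7), (7, 8)])
    (full 9 ^^^ ofEdges []) = true := by
  decide +kernel

def cg_5 : Tr := .bad [0,1,2,3,4,5,7,8]

theorem cg_5_chk : chk (fun E => Nat.ble (rowc 127 E 8) 2 || Nat.ble (rowc 127 E 8) 2) 8 [] cg_5
    (ofEdges [(0, 1), (1, 2), (2, 3), (3, 4), (4, 5), (5, 6), (5, 7), (7, 8)])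
    (full 9 ^^^ ofEdges []) = true := by
  decide +kernel

def cg_6 : Tr := .bad [0,1,2,3,4,5,6,7]

theorem cg_6_chk : chk (fun E => Nat.ble (rowc 127 E 8) 2 || Nat.ble (rowc 127 E 8) 2) 8 [] cg_6
    (ofEdges [(0, 1), (1, 2), (2, 3), (3, 4), (4, 5), (5, 6), (6, 7), (7, 8)])
    (full 9 ^^^ ofEdges []) = true := by
  decide +kernel

def d0_0 : Tr := .bad [5,4,3,2,1,0,6]

theorem d0_0_chk : chk (fun E => Nat.ble (total 6 E 1) 144) 7 [(0, 2)] d0_0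
    (ofEdges [(0, 1), (1, 2), (2, 3), (3, 4), (4, 5), (0, 6)])
    (full 7 ^^^ ofEdges []) = true := by
  decide +kernel

def d0_1 : Tr := .br 0 2 (.bad [5,4,3,2,0,1,6]) (.br 0 5 (.bad [0,5,4,3,2,1,6]) (.br 0 6 (.bad [0,6,1,2,3,4,5]) (.br 2 6 (.bad [0,1,6,2,3,4,5]) (.br 5 6 (.bad [0,1,2,3,4,5,6]) (.br 0 3 (.br 0 4 (.bad [5,4,0,3,2,1,6]) (.ok)) (.ok))))))

theorem d0_1_chk : chk (fun E => Nat.ble (total 6 E 1) 144) 7 [(0, 2)] d0_1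
    (ofEdges [(0, 1), (1, 2), (2, 3), (3, 4), (4, 5), (1, 6)])
    (full 7 ^^^ ofEdges []) = true := by
  decide +kernel

def d0_2 : Tr := .br 0 3 (.bad [5,4,3,0,1,2,6]) (.br 0 5 (.bad [1,0,5,4,3,2,6]) (.br 1 5 (.bad [0,1,5,4,3,2,6]) (.br 0 6 (.bad [1,0,6,2,3,4,5]) (.br 1 6 (.bad [0,1,6,2,3,4,5]) (.br 3 6 (.bad [0,1,2,6,3,4,5]) (.br 5 6 (.bad [0,1,2,3,4,5,6]) (.br 0 4 (.br 3 5 (.bad [1,0,4,5,3,2,6]) (.ok)) (.ok))))))))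

theorem d0_2_chk : chk (fun E => Nat.ble (total 6 E 1) 144) 7 [(0, 2)] d0_2
    (ofEdges [(0, 1), (1, 2), (2, 3), (3, 4), (4, 5), (2, 6)])
    (full 7 ^^^ ofEdges []) = true := by
  decide +kernel

def d0_3 : Tr := .br 0 4 (.bad [5,4,0,1,2,3,6]) (.br 0 5 (.bad [2,1,0,5,4,3,6]) (.br 2 5 (.bad [0,1,2,5,4,3,6]) (.br 0 6 (.bad [2,1,0,6,3,4,5]) (.br 2 6 (.bad [0,1,2,6,3,4,5]) (.br 4 6 (.bad [0,1,2,3,6,4,5]) (.br 5 6 (.bad [0,1,2,3,4,5,6]) (.br 0 2 (.br 0 3 (.deg 0 [1,2,3]) (.ok)) (.ok))))))))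

theorem d0_3_chk : chk (fun E => Nat.ble (total 6 E 1) 144) 7 [(0, 2)] d0_3
    (ofEdges [(0, 1), (1, 2), (2, 3), (3, 4), (4, 5), (3, 6)])
    (full 7 ^^^ ofEdges []) = true := by
  decide +kernel

def d0_4 : Tr := .br 0 5 (.bad [3,2,1,0,5,4,6]) (.br 3 5 (.bad [0,1,2,3,5,4,6]) (.br 0 6 (.bad [3,2,1,0,6,4,5]) (.br 3 6 (.bad [0,1,2,3,6,4,5]) (.br 5 6 (.bad [0,1,2,3,4,5,6]) (.br 0 3 (.br 1 5 (.bad [0,3,2,1,5,4,6]) (.ok)) (.ok))))))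

theorem d0_4_chk : chk (fun E => Nat.ble (total 6 E 1) 144) 7 [(0, 2)] d0_4
    (ofEdges [(0, 1), (1, 2), (2, 3), (3, 4), (4, 5), (4, 6)])
    (full 7 ^^^ ofEdges []) = true := by
  decide +kernel

def d0_5 : Tr := .bad [0,1,2,3,4,5,6]

theorem d0_5_chk : chk (fun E => Nat.ble (total 6 E 1) 144) 7 [(0, 2)] d0_5
    (ofEdges [(0, 1), (1, 2), (2, 3), (3, 4), (4, 5), (5, 6)])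
    (full 7 ^^^ ofEdges []) = true := by
  decide +kernel

def d1 : Tr := .br 0 6 (.bad [5,4,3,2,1,0,6]) (.br 5 6 (.bad [0,1,2,3,4,5,6]) (.br 0 5 (.br 1 6 (.bad [0,5,4,3,2,1,6]) (.br 2 6 (.bad [1,0,5,4,3,2,6]) (.br 3 6 (.bad [2,1,0,5,4,3,6]) (.ok)))) (.br 2 6 (.br 0 3 (.bad [5,4,3,0,1,2,6]) (.br 3 6 (.bad [0,1,2,6,3,4,5]) (.br 1 6 (.bad [0,1,6,2,3,4,5]) (.ok)))) (.br 3 6 (.br 4 6 (.bad [0,1,2,3,6,4,5]) (.br 0 4 (.bad [5,4,0,1,2,3,6]) (.ok))) (.br 0 2 (.br 1 6 (.bad [5,4,3,2,0,1,6]) (.ok)) (.ok))))))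

theorem d1_chk : chk (fun E => Nat.ble (total 7 E 65) 216) 7 [(0, 2)] d1
    (ofEdges [(0, 1), (1, 2), (2, 3), (3, 4), (4, 5)])
    (full 7 ^^^ ofEdges []) = true := by
  decide +kernel

def d2 : Tr := .br 0 6 (.bad [5,4,3,2,1,0,6]) (.br 0 7 (.bad [5,4,3,2,1,0,7]) (.br 5 6 (.bad [0,1,2,3,4,5,6]) (.br 5 7 (.bad [0,1,2,3,4,5,7]) (.br 6 7 (.br 1 6 (.bad [5,4,3,2,1,6,7]) (.br 4 6 (.bad [0,1,2,3,4,6,7]) (.br 1 7 (.bad [5,4,3,2,1,7,6]) (.br 4 7 (.bad [0,1,2,3,4,7,6]) (.br 2 6 (.br 3 6 (.bad [0,1,2,6,3,4,5]) (.br 3 7 (.bad [0,1,2,6,7,3,4]) (.br 0 3 (.bad [4,3,0,1,2,6,7]) (.br 0 4 (.bad [1,0,4,3,2,6,7]) (.br 0 5 (.bad [0,5,4,3,2,6,7]) (.ok)))))) (.br 2 7 (.br 3 6 (.bad [0,1,2,7,6,3,4]) (.br 3 7 (.bad [0,1,2,7,3,4,5]) (.br 0 3 (.bad [4,3,0,1,2,7,6])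 (.ok)))) (.br 0 4 (.br 3 6 (.bad [2,1,0,4,3,6,7]) (.br 3 7 (.bad [2,1,0,4,3,7,6]) (.ok))) (.br 0 5 (.br 3 6 (.bad [1,0,5,4,3,6,7]) (.ok)) (.br 1 4 (.br 3 6 (.bad [5,4,1,2,3,6,7]) (.ok)) (.ok)))))))))) (.br 0 2 (.br 1 6 (.bad [5,4,3,2,0,1,6]) (.br 1 7 (.bad [5,4,3,2,0,1,7]) (.br 0 3 (.deg 0 [1,2,3]) (.br 0 4 (.deg 0 [1,2,4]) (.br 0 5 (.deg 0 [1,2,5]) (.br 3 6 (.br 4 6 (.bad [0,1,2,3,6,4,5]) (.ok)) (.ok))))))) (.br 3 6 (.br 0 4 (.bad [5,4,0,1,2,3,6]) (.br 2 6 (.bad [0,1,2,6,3,4,5]) (.br 4 6 (.bad [0,1,2,3,6,4,5]) (.br 0 5 (.bad [2,1,0,5,4,3,6]) (.ok))))) (.br 3 7 (.br 2 7 (.bad [0,1,2,7,3,4,5]) (.br 4 7 (.bad [0,1,2,3,7,4,5]) (.br 0 4 (.bad [5,4,0,1,2,3,7]) (.br 0 5 (.bad [2,1,0,5,4,3,7]) (.ok))))) (.br 0 5 (.br 2 6 (.bad [1,0,5,4,3,2,6]) (.br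 1 6 (.bad [0,5,4,3,2,1,6]) (.ok))) (.br 0 3 (.br 2 6 (.bad [5,4,3,0,1,2,6]) (.br 2 7 (.bad [5,4,3,0,1,2,7]) (.ok))) (.br 1 6 (.br 2 6 (.bad [0,1,6,2,3,4,5]) (.ok)) (.ok)))))))))))

theorem d2_chk : chk (fun E => Nat.ble (total 8 E 193) 48) 7 [(0, 2)] d2
    (ofEdges [(0, 1), (1, 2), (2, 3), (3, 4), (4, 5)])
    (full 8 ^^^ ofEdges []) = true := by
  decide +kernel

def d3c : Tr := .br 0 6 (.bad [4,3,2,1,0,6,7]) (.br 0 7 (.bad [3,2,1,0,7,6,8]) (.br 0 8 (.bad [3,2,1,0,8,6,7]) (.br 1 6 (.bad [5,4,3,2,1,6,7]) (.br 4 6 (.bad [0,1,2,3,4,6,7]) (.br 5 6 (.bad [0,1,2,3,4,5,6]) (.br 2 7 (.bad [5,4,3,2,7,6,8]) (.br 3 7 (.bad [0,1,2,3,7,6,8]) (.br 1 7 (.bad [4,3,2,1,7,6,8]) (.br 4 7 (.bad [0,1,2,3,4,7,6]) (.br 5 7 (.bad [0,1,2,3,4,5,7]) (.br 1 8 (.bad [4,3,2,1,8,6,7])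 (.br 4 8 (.bad [0,1,2,3,4,8,6]) (.br 5 8 (.bad [0,1,2,3,4,5,8]) (.br 2 8 (.bad [5,4,3,2,8,6,7]) (.br 3 8 (.bad [0,1,2,3,8,6,7]) (.br 7 8 (.br 2 6 (.bad [5,4,3,2,6,7,8]) (.ok)) (.ok)))))))))))))))))

theorem d3c_chk : chk (fun E => Nat.ble (total 9 E 449) 48) 7 [(0, 2)] d3c
    (ofEdges [(0, 1), (1, 2), (2, 3), (3, 4), (4, 5), (6, 7), (6, 8)])
    (full 9 ^^^ ofEdges []) = true := by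
  decide +kernel

def d3e : Tr := .br 0 8 (.bad [5,4,3,2,1,0,8]) (.br 0 6 (.bad [4,3,2,1,0,6,7]) (.br 0 7 (.bad [4,3,2,1,0,7,6]) (.br 5 8 (.bad [0,1,2,3,4,5,8]) (.br 1 6 (.bad [5,4,3,2,1,6,7]) (.br 1 7 (.bad [5,4,3,2,1,7,6]) (.br 4 6 (.bad [0,1,2,3,4,6,7]) (.br 4 7 (.bad [0,1,2,3,4,7,6]) (.br 5 6 (.bad [0,1,2,3,4,5,6]) (.br 5 7 (.bad [0,1,2,3,4,5,7]) (.br 0 2 (.br 0 3 (.deg 0 [1,2,3]) (.br 0 4 (.deg 0 [1,2,4]) (.br 1 8 (.bad [5,4,3,2,0,1,8]) (.ok)))) (.br 0 4 (.br 0 3 (.deg 0 [1,3,4]) (.br 3 8 (.bad [5,4,0,1,2,3,8]) (.ok))) (.br 2 8 (.br 0 3 (.bad [5,4,3,0,1,2,8]) (.ok)) (.ok)))))))))))))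

theorem d3e_chk : chk (fun E => Nat.ble (total 9 E 449) 8) 7 [(0, 2)] d3e
    (ofEdges [(0, 1), (1, 2), (2, 3), (3, 4), (4, 5), (6, 7)])
    (full 9 ^^^ ofEdges [(6, 8), (7, 8)]) = true := by
  decide +kernel

def d8 : Tr := .br 0 6 (.bad [5,4,3,2,1,0,6]) (.br 0 7 (.bad [5,4,3,2,1,0,7]) (.br 5 6 (.bad [0,1,2,3,4,5,6]) (.br 5 7 (.bad [0,1,2,3,4,5,7]) (.br 0 5 (.br 1 6 (.bad [0,5,4,3,2,1,6]) (.br 1 7 (.bad [0,5,4,3,2,1,7]) (.br 2 6 (.bad [1,0,5,4,3,2,6]) (.br 2 7 (.bad [1,0,5,4,3,2,7]) (.br 3 6 (.bad [2,1,0,5,4,3,6]) (.br 3 7 (.bad [2,1,0,5,4,3,7]) (.ok))))))) (.br 6 7 (.br 1 6 (.bad [5,4,3,2,1,6,7]) (.br 1 7 (.bad [5,4,3,2,1,7,6]) (.br 4 6 (.bad [0,1,2,3,4,6,7]) (.br 4 7 (.bad [0,1,2,3,4,7,6]) (.br 2 6 (.br 0 4 (.bad [1,0,4,3,2,6,7]) (.br 1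 4 (.bad [0,1,4,3,2,6,7]) (.ok))) (.br 2 7 (.br 0 4 (.bad [1,0,4,3,2,7,6]) (.ok)) (.ok))))))) (.br 2 6 (.br 0 3 (.bad [5,4,3,0,1,2,6]) (.br 3 6 (.bad [0,1,2,6,3,4,5]) (.br 1 5 (.bad [0,1,5,4,3,2,6]) (.br 1 6 (.bad [0,1,6,2,3,4,5]) (.br 3 7 (.br 1 7 (.bad [5,4,3,7,1,2,6]) (.ok)) (.ok)))))) (.br 3 7 (.br 2 5 (.bad [0,1,2,5,4,3,7]) (.br 2 7 (.bad [0,1,2,7,3,4,5]) (.br 0 4 (.bad [5,4,0,1,2,3,7]) (.br 4 7 (.bad [0,1,2,3,7,4,5]) (.ok))))) (.br 2 7 (.br 0 3 (.bad [5,4,3,0,1,2,7]) (.br 1 5 (.bad [0,1,5,4,3,2,7]) (.br 1 7 (.bad [0,1,7,2,3,4,5]) (.ok)))) (.br 3 6 (.br 2 5 (.bad [0,1,2,5,4,3,6]) (.br 0 4 (.bad [5,4,0,1,2,3,6]) (.ok))) (.br 0 2 (.br 1 6 (.bad [5,4,3,2,0,1,6]) (.ok)) (.ok)))))))))))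

theorem d8_chk : chk (fun E => Nat.ble (total 8 E 0) 1440) 7 [] d8
    (ofEdges [(0, 1), (1, 2), (2, 3), (3, 4), (4, 5)])
    (full 8 ^^^ ofEdges []) = true := by
  decide +kernel

def dd_0 : Tr := .bad [5,4,3,2,1,0,6]

theorem dd_0_chk : chk (fun E => Nat.ble (rowc 63 E 0) 2 || Nat.ble (rowc 63 E 5) 2) 7 [] dd_0
    (ofEdges [(0, 1), (1, 2), (2, 3), (3, 4), (4, 5), (0, 6)])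
    (full 7 ^^^ ofEdges []) = true := by
  decide +kernel

def dd_1 : Tr := .br 0 2 (.bad [5,4,3,2,0,1,6]) (.br 0 5 (.bad [0,5,4,3,2,1,6]) (.br 0 6 (.bad [0,6,1,2,3,4,5]) (.br 2 6 (.bad [0,1,6,2,3,4,5]) (.br 5 6 (.bad [0,1,2,3,4,5,6]) (.br 0 4 (.br 0 3 (.bad [5,4,0,3,2,1,6]) (.ok)) (.ok))))))

theorem dd_1_chk : chk (fun E => Nat.ble (rowc 63 E 0) 2 || Nat.ble (rowc 63 E 5) 2) 7 [] dd_1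
    (ofEdges [(0, 1), (1, 2), (2, 3), (3, 4), (4, 5), (1, 6)])
    (full 7 ^^^ ofEdges []) = true := by
  decide +kernel

def dd_2 : Tr := .br 0 3 (.bad [5,4,3,0,1,2,6]) (.br 0 5 (.bad [1,0,5,4,3,2,6]) (.br 0 6 (.bad [1,0,6,2,3,4,5]) (.br 1 5 (.bad [0,1,5,4,3,2,6]) (.br 1 6 (.bad [0,1,6,2,3,4,5]) (.br 3 6 (.bad [0,1,2,6,3,4,5]) (.br 5 6 (.bad [0,1,2,3,4,5,6]) (.br 1 3 (.br 0 2 (.bad [5,4,3,1,0,2,6]) (.ok)) (.br 0 4 (.br 3 5 (.bad [1,0,4,5,3,2,6]) (.ok)) (.ok)))))))))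

theorem dd_2_chk : chk (fun E => Nat.ble (rowc 63 E 0) 2 || Nat.ble (rowc 63 E 5) 2) 7 [] dd_2
    (ofEdges [(0, 1), (1, 2), (2, 3), (3, 4), (4, 5), (2, 6)])
    (full 7 ^^^ ofEdges []) = true := by
  decide +kernel

def dd_3 : Tr := .br 0 4 (.bad [5,4,0,1,2,3,6]) (.br 0 5 (.bad [2,1,0,5,4,3,6]) (.br 0 6 (.bad [2,1,0,6,3,4,5]) (.br 2 5 (.bad [0,1,2,5,4,3,6]) (.br 2 6 (.bad [0,1,2,6,3,4,5]) (.br 4 6 (.bad [0,1,2,3,6,4,5]) (.br 5 6 (.bad [0,1,2,3,4,5,6]) (.br 2 4 (.br 0 3 (.bad [5,4,2,1,0,3,6]) (.ok)) (.br 0 2 (.br 1 5 (.bad [0,2,1,5,4,3,6]) (.ok)) (.ok)))))))))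

theorem dd_3_chk : chk (fun E => Nat.ble (rowc 63 E 0) 2 || Nat.ble (rowc 63 E 5) 2) 7 [] dd_3
    (ofEdges [(0, 1), (1, 2), (2, 3), (3, 4), (4, 5), (3, 6)])
    (full 7 ^^^ ofEdges []) = true := by
  decide +kernel

def dd_4 : Tr := .br 0 5 (.bad [3,2,1,0,5,4,6]) (.br 3 5 (.bad [0,1,2,3,5,4,6]) (.br 0 6 (.bad [3,2,1,0,6,4,5]) (.br 3 6 (.bad [0,1,2,3,6,4,5]) (.br 5 6 (.bad [0,1,2,3,4,5,6]) (.br 1 5 (.br 2 5 (.bad [0,1,5,2,3,4,6]) (.ok)) (.ok))))))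

theorem dd_4_chk : chk (fun E => Nat.ble (rowc 63 E 0) 2 || Nat.ble (rowc 63 E 5) 2) 7 [] dd_4
    (ofEdges [(0, 1), (1, 2), (2, 3), (3, 4), (4, 5), (4, 6)])
    (full 7 ^^^ ofEdges []) = true := by
  decide +kernel

def dd_5 : Tr := .bad [0,1,2,3,4,5,6]

theorem dd_5_chk : chk (fun E => Nat.ble (rowc 63 E 0) 2 || Nat.ble (rowc 63 E 5) 2) 7 [] dd_5
    (ofEdges [(0, 1), (1, 2), (2, 3), (3, 4), (4, 5), (5, 6)])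
    (full 7 ^^^ ofEdges []) = true := by
  decide +kernel

end Pool.Agent.Lib.MP_f77bf6_co
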