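import Mathlib
import Pool.Agent.Lib.MP_f77bf6_co.Structure
import Pool.Agent.Lib.MP_f77bf6_co.Trees

set_option autoImplicit false
set_option linter.unusedSectionVars false
set_option linter.unusedVariables false
set_option linter.unusedSimpArgs false

/-!
# Local bounds when the longest path has seven vertices
-/

namespace Pool.Agent.Lib.MP_f77bf6_co

open Finset

variable {V : Type*} [DecidableEq V] {G : SimpleGraph V} [Fintype V] [DecidableRel G.Adj]

theorem RL_iff {l : List V} {i j : ℕ} {a b : V} (hi : l[i]? = some a) (hj : l[j]? = some b) :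
    RL G l i j ↔ G.Adj a b := by
  constructor
  · rintro ⟨a', b', h1, h2, h3⟩
    rw [hi] at h1
    rw [hj] at h2
    injection h1 with h1
    injection h2 with h2
    rw [h1, h2]
    exact h3
  · intro h
    exact ⟨a, b, hi, hj, h⟩

theorem hD_one {A : Finset V} {l : List V} (hn : l.Nodup) (hA : ∀ x ∈ l, x ∈ A) {v : V} {d : ℕ}
    (h0 : l[0]? = some v) (hd : (A.filter (G.Adj v)).card ≤ d) :
    ∀ q ∈ [((0 : ℕ), d)], ∀ p : List ℕ, p.Nodup → (∀ y ∈ p, RL G l q.1 y) → p.length ≤ q.2 := by
  intro q hq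
  rw [List.mem_singleton] at hq
  subst hq
  exact deg_of_card hn h0 (fun j y hj _ => hA y (List.mem_of_getElem? hj)) hd

theorem nodup_append_of {P S : List V} (hP : P.Nodup) (hS : S.Nodup)
    (h : ∀ x ∈ S, x ∉ P) : (P ++ S).Nodup := by
  rw [List.nodup_append]
  refine ⟨hP, hS, ?_⟩
  intro a ha b hb hab
  subst hab
  exact h a hb ha

theorem chain7 {A : Finset V} {p0 p1 p2 p3 p4 p5 p6 : V}
    (hP : IsP G A [p0, p1, p2, p3, p4, p5, p6]) : G.Adj p0 p1 ∧ G.Adj p1 p2 ∧
    G.Adj p2 p3 ∧ G.Adj p3 p4 ∧ G.Adj p4 p5 ∧ G.Adj p5 p6 := by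
  have := hP.2.1
  simp only [List.isChain_cons_cons, List.isChain_singleton, and_true] at this
  exact this

theorem chain6 {A : Finset V} {p0 p1 p2 p3 p4 p5 : V}
    (hP : IsP G A [p0, p1, p2, p3, p4, p5]) : G.Adj p0 p1 ∧ G.Adj p1 p2 ∧
    G.Adj p2 p3 ∧ G.Adj p3 p4 ∧ G.Adj p4 p5 := by
  have := hP.2.1
  simp only [List.isChain_cons_cons, List.isChain_singleton, and_true] at this
  exact this

section s7

variable {A : Finset V} {p0 p1 p2 p3 p4 p5 p6 : V}

theorem fib7_0 (hP : IsP G A [p0, p1, p2, p3, p4, p5, p6]) (hs : Short G A 8)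
    (hd : (A.filter (G.Adj p0)).card ≤ 3) {u p : V}
    (hu : u ∈ A \ [p0, p1, p2, p3, p4, p5, p6].toFinset)
    (hp : p ∈ [p0, p1, p2, p3, p4, p5, p6].toFinset) (hpu : G.Adj p u) :
    (Fb G A [p0, p1, p2, p3, p4, p5, p6].toFinset p0 ∅).card ≤ 432 := by
  obtain ⟨a1, a2, a3, a4, a5, a6⟩ := chain7 hP
  rw [mem_sdiff, List.mem_toFinset] at hu
  have hn : ([p0, p1, p2, p3, p4, p5, p6] ++ (([] : List V) ++ [u])).Nodup :=
    nodup_append_of hP.1 (by simp) (by
      intro x hx; simp only [List.nil_append, List.mem_singleton] at hx; rw [hx]; exact hu.2)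
  have hA : ∀ x ∈ [p0, p1, p2, p3, p4, p5, p6] ++ (([] : List V) ++ [u]), x ∈ A := by
    intro x hx
    rw [List.mem_append] at hx
    rcases hx with hx | hx
    · exact hP.2.2 x hx
    · simp only [List.nil_append, List.mem_singleton] at hx; rw [hx]; exact hu.1
  have hD := hD_one (G := G) hn hA (v := p0) rfl hd
  rw [List.mem_toFinset] at hp
  have hE : (∅ : Finset V) = ([] : List V).toFinset := rfl
  rw [hE]
  simp only [List.mem_cons, List.not_mem_nil, or_false] at hp
  rcases hp with rfl | rfl | rfl | rfl | rfl | rfl | rfl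
  · exact fb_bound _ [] [u] c0_0_chk rfl (by simp [List.range']) rfl rfl (by norm_num)
      (by norm_num) hn hA hs hD (by simp [RL, a1, a2, a3, a4, a5, a6, hpu]) (by simp)
  · exact fb_bound _ [] [u] c0_1_chk rfl (by simp [List.range']) rfl rfl (by norm_num)
      (by norm_num) hn hA hs hD (by simp [RL, a1, a2, a3, a4, a5, a6, hpu]) (by simp)
  · exact fb_bound _ [] [u] c0_2_chk rfl (by simp [List.range']) rfl rfl (by norm_num)
      (by norm_num) hn hA hs hD (by simp [RL, a1, a2, a3, a4, a5, a6, hpu]) (by simp)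
  · exact fb_bound _ [] [u] c0_3_chk rfl (by simp [List.range']) rfl rfl (by norm_num)
      (by norm_num) hn hA hs hD (by simp [RL, a1, a2, a3, a4, a5, a6, hpu]) (by simp)
  · exact fb_bound _ [] [u] c0_4_chk rfl (by simp [List.range']) rfl rfl (by norm_num)
      (by norm_num) hn hA hs hD (by simp [RL, a1, a2, a3, a4, a5, a6, hpu]) (by simp)
  · exact fb_bound _ [] [u] c0_5_chk rfl (by simp [List.range']) rfl rfl (by norm_num)
      (by norm_num) hn hA hs hD (by simp [RL, a1, a2, a3, a4, a5, a6, hpu]) (by simp)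
  · exact fb_bound _ [] [u] c0_6_chk rfl (by simp [List.range']) rfl rfl (by norm_num)
      (by norm_num) hn hA hs hD (by simp [RL, a1, a2, a3, a4, a5, a6, hpu]) (by simp)

theorem fib7_1 (hP : IsP G A [p0, p1, p2, p3, p4, p5, p6]) (hs : Short G A 8)
    (hd : (A.filter (G.Adj p0)).card ≤ 3) {u : V}
    (hu : u ∈ A \ [p0, p1, p2, p3, p4, p5, p6].toFinset)
    :
    (Fb G A [p0, p1, p2, p3, p4, p5, p6].toFinset p0 {u}).card ≤ 432 := by
  obtain ⟨a1, a2, a3, a4, a5, a6⟩ := chain7 hP
  rw [mem_sdiff, List.mem_toFinset] at hu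
  have hn : ([p0, p1, p2, p3, p4, p5, p6] ++ ([u] ++ ([] : List V))).Nodup :=
    nodup_append_of hP.1 (by simp []) (by
      intro x hx
      simp only [List.append_nil, List.mem_cons, List.not_mem_nil, or_false] at hx
      rcases hx with rfl
      · exact hu.2)
  have hA : ∀ x ∈ [p0, p1, p2, p3, p4, p5, p6] ++ ([u] ++ ([] : List V)), x ∈ A := by
    intro x hx
    rw [List.mem_append] at hx
    rcases hx with hx | hx
    · exact hP.2.2 x hx
    · simp only [List.append_nil, List.mem_cons, List.not_mem_nil, or_false] at hx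
      rcases hx with rfl
      · exact hu.1
  have hD := hD_one (G := G) hn hA (v := p0) rfl hd
  have hE : ({u} : Finset V) = ([u] : List V).toFinset := by
    simp [List.toFinset_cons]
  rw [hE]
  exact fb_bound _ [u] [] c1_chk rfl (by simp [List.range']) rfl rfl (by norm_num)
    (by norm_num) hn hA hs hD (by simp [RL, a1, a2, a3, a4, a5, a6]) (by simp)

theorem fib7_1s (hP : IsP G A [p0, p1, p2, p3, p4, p5, p6]) (hs : Short G A 8)
    (hd : (A.filter (G.Adj p0)).card ≤ 3) {u : V}
    (hu : u ∈ A \ [p0, p1, p2, p3, p4, p5, p6].toFinset)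
    (hdu : ([p0, p1, p2, p3, p4, p5, p6].toFinset.filter (G.Adj u)).card ≤ 2)
    :
    (Fb G A [p0, p1, p2, p3, p4, p5, p6].toFinset p0 {u}).card ≤ 216 := by
  obtain ⟨a1, a2, a3, a4, a5, a6⟩ := chain7 hP
  rw [mem_sdiff, List.mem_toFinset] at hu
  have hn : ([p0, p1, p2, p3, p4, p5, p6] ++ ([u] ++ ([] : List V))).Nodup :=
    nodup_append_of hP.1 (by simp []) (by
      intro x hx
      simp only [List.append_nil, List.mem_cons, List.not_mem_nil, or_false] at hx
      rcases hx with rfl
      · exact hu.2)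
  have hA : ∀ x ∈ [p0, p1, p2, p3, p4, p5, p6] ++ ([u] ++ ([] : List V)), x ∈ A := by
    intro x hx
    rw [List.mem_append] at hx
    rcases hx with hx | hx
    · exact hP.2.2 x hx
    · simp only [List.append_nil, List.mem_cons, List.not_mem_nil, or_false] at hx
      rcases hx with rfl
      · exact hu.1
  have hD : ∀ q ∈ [((0 : ℕ), 3), (7, 2)], ∀ p : List ℕ, p.Nodup →
      (∀ y ∈ p, RL G ([p0, p1, p2, p3, p4, p5, p6] ++ ([u] ++ ([] : List V))) q.1 y) → p.length ≤ q.2 := by
    intro q hq
    simp only [List.mem_cons, List.not_mem_nil, or_false] at hq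
    rcases hq with rfl | rfl
    · exact deg_of_card hn rfl (fun j y hj _ => hA y (List.mem_of_getElem? hj)) hd
    · refine deg_of_card hn (x := u) rfl (B := [p0, p1, p2, p3, p4, p5, p6].toFinset) ?_ hdu
      intro j y hj hy
      have := List.mem_of_getElem? hj
      rw [List.mem_append] at this
      rcases this with h | h
      · exact List.mem_toFinset.mpr h
      · exfalso
        simp only [List.append_nil, List.mem_cons, List.not_mem_nil, or_false] at h
        rcases h with rfl
        · exact G.loopless.irrefl _ hy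
  have hE : ({u} : Finset V) = ([u] : List V).toFinset := by
    simp [List.toFinset_cons]
  rw [hE]
  exact fb_bound _ [u] [] c1s_chk rfl (by simp [List.range']) rfl rfl (by norm_num)
    (by norm_num) hn hA hs hD (by simp [RL, a1, a2, a3, a4, a5, a6]) (by simp)

theorem fib7_2 (hP : IsP G A [p0, p1, p2, p3, p4, p5, p6]) (hs : Short G A 8)
    (hd : (A.filter (G.Adj p0)).card ≤ 3) {u w : V}
    (hu : u ∈ A \ [p0, p1, p2, p3, p4, p5, p6].toFinset)
    (hw : w ∈ A \ [p0, p1, p2, p3, p4, p5, p6].toFinset)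
    (huw : u ≠ w)
    (hadj : ¬ G.Adj u w)
    :
    (Fb G A [p0, p1, p2, p3, p4, p5, p6].toFinset p0 {u, w}).card ≤ 144 := by
  obtain ⟨a1, a2, a3, a4, a5, a6⟩ := chain7 hP
  rw [mem_sdiff, List.mem_toFinset] at hu hw
  have hn : ([p0, p1, p2, p3, p4, p5, p6] ++ ([u, w] ++ ([] : List V))).Nodup :=
    nodup_append_of hP.1 (by simp [huw]) (by
      intro x hx
      simp only [List.append_nil, List.mem_cons, List.not_mem_nil, or_false] at hx
      rcases hx with rfl | rfl
      · exact hu.2
      · exact hw.2)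
  have hA : ∀ x ∈ [p0, p1, p2, p3, p4, p5, p6] ++ ([u, w] ++ ([] : List V)), x ∈ A := by
    intro x hx
    rw [List.mem_append] at hx
    rcases hx with hx | hx
    · exact hP.2.2 x hx
    · simp only [List.append_nil, List.mem_cons, List.not_mem_nil, or_false] at hx
      rcases hx with rfl | rfl
      · exact hu.1
      · exact hw.1
  have hD := hD_one (G := G) hn hA (v := p0) rfl hd
  have hE : ({u, w} : Finset V) = ([u, w] : List V).toFinset := by
    simp [List.toFinset_cons]
  rw [hE]
  exact fb_bound _ [u, w] [] c2_chk rfl (by simp [List.range']) rfl rfl (by norm_num)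
    (by norm_num) hn hA hs hD (by simp [RL, a1, a2, a3, a4, a5, a6]) (by simp [RL, hadj])

theorem fib7_2s (hP : IsP G A [p0, p1, p2, p3, p4, p5, p6]) (hs : Short G A 8)
    (hd : (A.filter (G.Adj p0)).card ≤ 3) {u w : V}
    (hu : u ∈ A \ [p0, p1, p2, p3, p4, p5, p6].toFinset)
    (hw : w ∈ A \ [p0, p1, p2, p3, p4, p5, p6].toFinset)
    (huw : u ≠ w)
    (hadj : ¬ G.Adj u w)
    (hdu : ([p0, p1, p2, p3, p4, p5, p6].toFinset.filter (G.Adj u)).card ≤ 2)
    (hdw : ([p0, p1, p2, p3, p4, p5, p6].toFinset.filter (G.Adj w)).card ≤ 2)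
    :
    (Fb G A [p0, p1, p2, p3, p4, p5, p6].toFinset p0 {u, w}).card ≤ 48 := by
  obtain ⟨a1, a2, a3, a4, a5, a6⟩ := chain7 hP
  rw [mem_sdiff, List.mem_toFinset] at hu hw
  have hn : ([p0, p1, p2, p3, p4, p5, p6] ++ ([u, w] ++ ([] : List V))).Nodup :=
    nodup_append_of hP.1 (by simp [huw]) (by
      intro x hx
      simp only [List.append_nil, List.mem_cons, List.not_mem_nil, or_false] at hx
      rcases hx with rfl | rfl
      · exact hu.2
      · exact hw.2)
  have hA : ∀ x ∈ [p0, p1, p2, p3, p4, p5, p6] ++ ([u, w] ++ ([] : List V)), x ∈ A := by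
    intro x hx
    rw [List.mem_append] at hx
    rcases hx with hx | hx
    · exact hP.2.2 x hx
    · simp only [List.append_nil, List.mem_cons, List.not_mem_nil, or_false] at hx
      rcases hx with rfl | rfl
      · exact hu.1
      · exact hw.1
  have hD : ∀ q ∈ [((0 : ℕ), 3), (7, 2), (8, 2)], ∀ p : List ℕ, p.Nodup →
      (∀ y ∈ p, RL G ([p0, p1, p2, p3, p4, p5, p6] ++ ([u, w] ++ ([] : List V))) q.1 y) → p.length ≤ q.2 := by
    intro q hq
    simp only [List.mem_cons, List.not_mem_nil, or_false] at hq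
    rcases hq with rfl | rfl | rfl
    · exact deg_of_card hn rfl (fun j y hj _ => hA y (List.mem_of_getElem? hj)) hd
    · refine deg_of_card hn (x := u) rfl (B := [p0, p1, p2, p3, p4, p5, p6].toFinset) ?_ hdu
      intro j y hj hy
      have := List.mem_of_getElem? hj
      rw [List.mem_append] at this
      rcases this with h | h
      · exact List.mem_toFinset.mpr h
      · exfalso
        simp only [List.append_nil, List.mem_cons, List.not_mem_nil, or_false] at h
        rcases h with rfl | rfl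
        · exact G.loopless.irrefl _ hy
        · exact hadj hy
    · refine deg_of_card hn (x := w) rfl (B := [p0, p1, p2, p3, p4, p5, p6].toFinset) ?_ hdw
      intro j y hj hy
      have := List.mem_of_getElem? hj
      rw [List.mem_append] at this
      rcases this with h | h
      · exact List.mem_toFinset.mpr h
      · exfalso
        simp only [List.append_nil, List.mem_cons, List.not_mem_nil, or_false] at h
        rcases h with rfl | rfl
        · exact hadj hy.symm
        · exact G.loopless.irrefl _ hy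
  have hE : ({u, w} : Finset V) = ([u, w] : List V).toFinset := by
    simp [List.toFinset_cons]
  rw [hE]
  exact fb_bound _ [u, w] [] c2s_chk rfl (by simp [List.range']) rfl rfl (by norm_num)
    (by norm_num) hn hA hs hD (by simp [RL, a1, a2, a3, a4, a5, a6]) (by simp [RL, hadj])

theorem fib7_2a (hP : IsP G A [p0, p1, p2, p3, p4, p5, p6]) (hs : Short G A 8)
    (hd : (A.filter (G.Adj p0)).card ≤ 3) {u w : V}
    (hu : u ∈ A \ [p0, p1, p2, p3, p4, p5, p6].toFinset)
    (hw : w ∈ A \ [p0, p1, p2, p3, p4, p5, p6].toFinset)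
    (huw : u ≠ w)
    (hadj : G.Adj u w)
    :
    (Fb G A [p0, p1, p2, p3, p4, p5, p6].toFinset p0 {u, w}).card ≤ 48 := by
  obtain ⟨a1, a2, a3, a4, a5, a6⟩ := chain7 hP
  rw [mem_sdiff, List.mem_toFinset] at hu hw
  have hn : ([p0, p1, p2, p3, p4, p5, p6] ++ ([u, w] ++ ([] : List V))).Nodup :=
    nodup_append_of hP.1 (by simp [huw]) (by
      intro x hx
      simp only [List.append_nil, List.mem_cons, List.not_mem_nil, or_false] at hx
      rcases hx with rfl | rfl
      · exact hu.2
      · exact hw.2)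
  have hA : ∀ x ∈ [p0, p1, p2, p3, p4, p5, p6] ++ ([u, w] ++ ([] : List V)), x ∈ A := by
    intro x hx
    rw [List.mem_append] at hx
    rcases hx with hx | hx
    · exact hP.2.2 x hx
    · simp only [List.append_nil, List.mem_cons, List.not_mem_nil, or_false] at hx
      rcases hx with rfl | rfl
      · exact hu.1
      · exact hw.1
  have hD := hD_one (G := G) hn hA (v := p0) rfl hd
  have hE : ({u, w} : Finset V) = ([u, w] : List V).toFinset := by
    simp [List.toFinset_cons]
  rw [hE]
  exact fb_bound _ [u, w] [] c2a_chk rfl (by simp [List.range']) rfl rfl (by norm_num)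
    (by norm_num) hn hA hs hD (by simp [RL, a1, a2, a3, a4, a5, a6, hadj]) (by simp)

theorem fib7_3c (hP : IsP G A [p0, p1, p2, p3, p4, p5, p6]) (hs : Short G A 8)
    (hd : (A.filter (G.Adj p0)).card ≤ 3) {u w z : V}
    (hu : u ∈ A \ [p0, p1, p2, p3, p4, p5, p6].toFinset)
    (hw : w ∈ A \ [p0, p1, p2, p3, p4, p5, p6].toFinset)
    (hz : z ∈ A \ [p0, p1, p2, p3, p4, p5, p6].toFinset)
    (huw : u ≠ w)
    (huz : u ≠ z)
    (hwz : w ≠ z)
    (hadj : G.Adj u w) (hadj2 : G.Adj u z)
    :
    (Fb G A [p0, p1, p2, p3, p4, p5, p6].toFinset p0 {u, w, z}).card ≤ 48 := by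
  obtain ⟨a1, a2, a3, a4, a5, a6⟩ := chain7 hP
  rw [mem_sdiff, List.mem_toFinset] at hu hw hz
  have hn : ([p0, p1, p2, p3, p4, p5, p6] ++ ([u, w, z] ++ ([] : List V))).Nodup :=
    nodup_append_of hP.1 (by simp [huw, huz, hwz]) (by
      intro x hx
      simp only [List.append_nil, List.mem_cons, List.not_mem_nil, or_false] at hx
      rcases hx with rfl | rfl | rfl
      · exact hu.2
      · exact hw.2
      · exact hz.2)
  have hA : ∀ x ∈ [p0, p1, p2, p3, p4, p5, p6] ++ ([u, w, z] ++ ([] : List V)), x ∈ A := by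
    intro x hx
    rw [List.mem_append] at hx
    rcases hx with hx | hx
    · exact hP.2.2 x hx
    · simp only [List.append_nil, List.mem_cons, List.not_mem_nil, or_false] at hx
      rcases hx with rfl | rfl | rfl
      · exact hu.1
      · exact hw.1
      · exact hz.1
  have hD := hD_one (G := G) hn hA (v := p0) rfl hd
  have hE : ({u, w, z} : Finset V) = ([u, w, z] : List V).toFinset := by
    simp [List.toFinset_cons]
  rw [hE]
  exact fb_bound _ [u, w, z] [] c3c_chk rfl (by simp [List.range']) rfl rfl (by norm_num)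
    (by norm_num) hn hA hs hD (by simp [RL, a1, a2, a3, a4, a5, a6, hadj, hadj2]) (by simp)

theorem fib7_3e (hP : IsP G A [p0, p1, p2, p3, p4, p5, p6]) (hs : Short G A 8)
    (hd : (A.filter (G.Adj p0)).card ≤ 3) {u w z : V}
    (hu : u ∈ A \ [p0, p1, p2, p3, p4, p5, p6].toFinset)
    (hw : w ∈ A \ [p0, p1, p2, p3, p4, p5, p6].toFinset)
    (hz : z ∈ A \ [p0, p1, p2, p3, p4, p5, p6].toFinset)
    (huw : u ≠ w)
    (huz : u ≠ z)
    (hwz : w ≠ z)
    (hadj : G.Adj u w) (hadj2 : ¬ G.Adj u z) (hadj3 : ¬ G.Adj w z)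
    :
    (Fb G A [p0, p1, p2, p3, p4, p5, p6].toFinset p0 {u, w, z}).card ≤ 8 := by
  obtain ⟨a1, a2, a3, a4, a5, a6⟩ := chain7 hP
  rw [mem_sdiff, List.mem_toFinset] at hu hw hz
  have hn : ([p0, p1, p2, p3, p4, p5, p6] ++ ([u, w, z] ++ ([] : List V))).Nodup :=
    nodup_append_of hP.1 (by simp [huw, huz, hwz]) (by
      intro x hx
      simp only [List.append_nil, List.mem_cons, List.not_mem_nil, or_false] at hx
      rcases hx with rfl | rfl | rfl
      · exact hu.2
      · exact hw.2
      · exact hz.2)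
  have hA : ∀ x ∈ [p0, p1, p2, p3, p4, p5, p6] ++ ([u, w, z] ++ ([] : List V)), x ∈ A := by
    intro x hx
    rw [List.mem_append] at hx
    rcases hx with hx | hx
    · exact hP.2.2 x hx
    · simp only [List.append_nil, List.mem_cons, List.not_mem_nil, or_false] at hx
      rcases hx with rfl | rfl | rfl
      · exact hu.1
      · exact hw.1
      · exact hz.1
  have hD := hD_one (G := G) hn hA (v := p0) rfl hd
  have hE : ({u, w, z} : Finset V) = ([u, w, z] : List V).toFinset := by
    simp [List.toFinset_cons]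
  rw [hE]
  exact fb_bound _ [u, w, z] [] c3e_chk rfl (by simp [List.range']) rfl rfl (by norm_num)
    (by norm_num) hn hA hs hD (by simp [RL, a1, a2, a3, a4, a5, a6, hadj]) (by simp [RL, hadj2, hadj3])

end s7

section s6

variable {A : Finset V} {p0 p1 p2 p3 p4 p5 : V}

theorem fib6_0 (hP : IsP G A [p0, p1, p2, p3, p4, p5]) (hs : Short G A 7)
    (hd : (A.filter (G.Adj p0)).card ≤ 2) {u p : V}
    (hu : u ∈ A \ [p0, p1, p2, p3, p4, p5].toFinset)
    (hp : p ∈ [p0, p1, p2, p3, p4, p5].toFinset) (hpu : G.Adj p u) :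
    (Fb G A [p0, p1, p2, p3, p4, p5].toFinset p0 ∅).card ≤ 144 := by
  obtain ⟨a1, a2, a3, a4, a5⟩ := chain6 hP
  rw [mem_sdiff, List.mem_toFinset] at hu
  have hn : ([p0, p1, p2, p3, p4, p5] ++ (([] : List V) ++ [u])).Nodup :=
    nodup_append_of hP.1 (by simp) (by
      intro x hx; simp only [List.nil_append, List.mem_singleton] at hx; rw [hx]; exact hu.2)
  have hA : ∀ x ∈ [p0, p1, p2, p3, p4, p5] ++ (([] : List V) ++ [u]), x ∈ A := by
    intro x hx
    rw [List.mem_append] at hx
    rcases hx with hx | hx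
    · exact hP.2.2 x hx
    · simp only [List.nil_append, List.mem_singleton] at hx; rw [hx]; exact hu.1
  have hD := hD_one (G := G) hn hA (v := p0) rfl hd
  rw [List.mem_toFinset] at hp
  have hE : (∅ : Finset V) = ([] : List V).toFinset := rfl
  rw [hE]
  simp only [List.mem_cons, List.not_mem_nil, or_false] at hp
  rcases hp with rfl | rfl | rfl | rfl | rfl | rfl
  · exact fb_bound _ [] [u] d0_0_chk rfl (by simp [List.range']) rfl rfl (by norm_num)
      (by norm_num) hn hA hs hD (by simp [RL, a1, a2, a3, a4, a5, hpu]) (by simp)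
  · exact fb_bound _ [] [u] d0_1_chk rfl (by simp [List.range']) rfl rfl (by norm_num)
      (by norm_num) hn hA hs hD (by simp [RL, a1, a2, a3, a4, a5, hpu]) (by simp)
  · exact fb_bound _ [] [u] d0_2_chk rfl (by simp [List.range']) rfl rfl (by norm_num)
      (by norm_num) hn hA hs hD (by simp [RL, a1, a2, a3, a4, a5, hpu]) (by simp)
  · exact fb_bound _ [] [u] d0_3_chk rfl (by simp [List.range']) rfl rfl (by norm_num)
      (by norm_num) hn hA hs hD (by simp [RL, a1, a2, a3, a4, a5, hpu]) (by simp)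
  · exact fb_bound _ [] [u] d0_4_chk rfl (by simp [List.range']) rfl rfl (by norm_num)
      (by norm_num) hn hA hs hD (by simp [RL, a1, a2, a3, a4, a5, hpu]) (by simp)
  · exact fb_bound _ [] [u] d0_5_chk rfl (by simp [List.range']) rfl rfl (by norm_num)
      (by norm_num) hn hA hs hD (by simp [RL, a1, a2, a3, a4, a5, hpu]) (by simp)

theorem fib6_1 (hP : IsP G A [p0, p1, p2, p3, p4, p5]) (hs : Short G A 7)
    (hd : (A.filter (G.Adj p0)).card ≤ 2) {u : V}
    (hu : u ∈ A \ [p0, p1, p2, p3, p4, p5].toFinset)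
    :
    (Fb G A [p0, p1, p2, p3, p4, p5].toFinset p0 {u}).card ≤ 216 := by
  obtain ⟨a1, a2, a3, a4, a5⟩ := chain6 hP
  rw [mem_sdiff, List.mem_toFinset] at hu
  have hn : ([p0, p1, p2, p3, p4, p5] ++ ([u] ++ ([] : List V))).Nodup :=
    nodup_append_of hP.1 (by simp []) (by
      intro x hx
      simp only [List.append_nil, List.mem_cons, List.not_mem_nil, or_false] at hx
      rcases hx with rfl
      · exact hu.2)
  have hA : ∀ x ∈ [p0, p1, p2, p3, p4, p5] ++ ([u] ++ ([] : List V)), x ∈ A := by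
    intro x hx
    rw [List.mem_append] at hx
    rcases hx with hx | hx
    · exact hP.2.2 x hx
    · simp only [List.append_nil, List.mem_cons, List.not_mem_nil, or_false] at hx
      rcases hx with rfl
      · exact hu.1
  have hD := hD_one (G := G) hn hA (v := p0) rfl hd
  have hE : ({u} : Finset V) = ([u] : List V).toFinset := by
    simp [List.toFinset_cons]
  rw [hE]
  exact fb_bound _ [u] [] d1_chk rfl (by simp [List.range']) rfl rfl (by norm_num)
    (by norm_num) hn hA hs hD (by simp [RL, a1, a2, a3, a4, a5]) (by simp)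

theorem fib6_2 (hP : IsP G A [p0, p1, p2, p3, p4, p5]) (hs : Short G A 7)
    (hd : (A.filter (G.Adj p0)).card ≤ 2) {u w : V}
    (hu : u ∈ A \ [p0, p1, p2, p3, p4, p5].toFinset)
    (hw : w ∈ A \ [p0, p1, p2, p3, p4, p5].toFinset)
    (huw : u ≠ w)
    :
    (Fb G A [p0, p1, p2, p3, p4, p5].toFinset p0 {u, w}).card ≤ 48 := by
  obtain ⟨a1, a2, a3, a4, a5⟩ := chain6 hP
  rw [mem_sdiff, List.mem_toFinset] at hu hw
  have hn : ([p0, p1, p2, p3, p4, p5] ++ ([u, w] ++ ([] : List V))).Nodup :=
    nodup_append_of hP.1 (by simp [huw]) (by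
      intro x hx
      simp only [List.append_nil, List.mem_cons, List.not_mem_nil, or_false] at hx
      rcases hx with rfl | rfl
      · exact hu.2
      · exact hw.2)
  have hA : ∀ x ∈ [p0, p1, p2, p3, p4, p5] ++ ([u, w] ++ ([] : List V)), x ∈ A := by
    intro x hx
    rw [List.mem_append] at hx
    rcases hx with hx | hx
    · exact hP.2.2 x hx
    · simp only [List.append_nil, List.mem_cons, List.not_mem_nil, or_false] at hx
      rcases hx with rfl | rfl
      · exact hu.1
      · exact hw.1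
  have hD := hD_one (G := G) hn hA (v := p0) rfl hd
  have hE : ({u, w} : Finset V) = ([u, w] : List V).toFinset := by
    simp [List.toFinset_cons]
  rw [hE]
  exact fb_bound _ [u, w] [] d2_chk rfl (by simp [List.range']) rfl rfl (by norm_num)
    (by norm_num) hn hA hs hD (by simp [RL, a1, a2, a3, a4, a5]) (by simp)

theorem fib6_3c (hP : IsP G A [p0, p1, p2, p3, p4, p5]) (hs : Short G A 7)
    (hd : (A.filter (G.Adj p0)).card ≤ 2) {u w z : V}
    (hu : u ∈ A \ [p0, p1, p2, p3, p4, p5].toFinset)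
    (hw : w ∈ A \ [p0, p1, p2, p3, p4, p5].toFinset)
    (hz : z ∈ A \ [p0, p1, p2, p3, p4, p5].toFinset)
    (huw : u ≠ w)
    (huz : u ≠ z)
    (hwz : w ≠ z)
    (hadj : G.Adj u w) (hadj2 : G.Adj u z)
    :
    (Fb G A [p0, p1, p2, p3, p4, p5].toFinset p0 {u, w, z}).card ≤ 48 := by
  obtain ⟨a1, a2, a3, a4, a5⟩ := chain6 hP
  rw [mem_sdiff, List.mem_toFinset] at hu hw hz
  have hn : ([p0, p1, p2, p3, p4, p5] ++ ([u, w, z] ++ ([] : List V))).Nodup :=
    nodup_append_of hP.1 (by simp [huw, huz, hwz]) (by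
      intro x hx
      simp only [List.append_nil, List.mem_cons, List.not_mem_nil, or_false] at hx
      rcases hx with rfl | rfl | rfl
      · exact hu.2
      · exact hw.2
      · exact hz.2)
  have hA : ∀ x ∈ [p0, p1, p2, p3, p4, p5] ++ ([u, w, z] ++ ([] : List V)), x ∈ A := by
    intro x hx
    rw [List.mem_append] at hx
    rcases hx with hx | hx
    · exact hP.2.2 x hx
    · simp only [List.append_nil, List.mem_cons, List.not_mem_nil, or_false] at hx
      rcases hx with rfl | rfl | rfl
      · exact hu.1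
      · exact hw.1
      · exact hz.1
  have hD := hD_one (G := G) hn hA (v := p0) rfl hd
  have hE : ({u, w, z} : Finset V) = ([u, w, z] : List V).toFinset := by
    simp [List.toFinset_cons]
  rw [hE]
  exact fb_bound _ [u, w, z] [] d3c_chk rfl (by simp [List.range']) rfl rfl (by norm_num)
    (by norm_num) hn hA hs hD (by simp [RL, a1, a2, a3, a4, a5, hadj, hadj2]) (by simp)

theorem fib6_3e (hP : IsP G A [p0, p1, p2, p3, p4, p5]) (hs : Short G A 7)
    (hd : (A.filter (G.Adj p0)).card ≤ 2) {u w z : V}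
    (hu : u ∈ A \ [p0, p1, p2, p3, p4, p5].toFinset)
    (hw : w ∈ A \ [p0, p1, p2, p3, p4, p5].toFinset)
    (hz : z ∈ A \ [p0, p1, p2, p3, p4, p5].toFinset)
    (huw : u ≠ w)
    (huz : u ≠ z)
    (hwz : w ≠ z)
    (hadj : G.Adj u w) (hadj2 : ¬ G.Adj u z) (hadj3 : ¬ G.Adj w z)
    :
    (Fb G A [p0, p1, p2, p3, p4, p5].toFinset p0 {u, w, z}).card ≤ 8 := by
  obtain ⟨a1, a2, a3, a4, a5⟩ := chain6 hP
  rw [mem_sdiff, List.mem_toFinset] at hu hw hz
  have hn : ([p0, p1, p2, p3, p4, p5] ++ ([u, w, z] ++ ([] : List V))).Nodup :=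
    nodup_append_of hP.1 (by simp [huw, huz, hwz]) (by
      intro x hx
      simp only [List.append_nil, List.mem_cons, List.not_mem_nil, or_false] at hx
      rcases hx with rfl | rfl | rfl
      · exact hu.2
      · exact hw.2
      · exact hz.2)
  have hA : ∀ x ∈ [p0, p1, p2, p3, p4, p5] ++ ([u, w, z] ++ ([] : List V)), x ∈ A := by
    intro x hx
    rw [List.mem_append] at hx
    rcases hx with hx | hx
    · exact hP.2.2 x hx
    · simp only [List.append_nil, List.mem_cons, List.not_mem_nil, or_false] at hx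
      rcases hx with rfl | rfl | rfl
      · exact hu.1
      · exact hw.1
      · exact hz.1
  have hD := hD_one (G := G) hn hA (v := p0) rfl hd
  have hE : ({u, w, z} : Finset V) = ([u, w, z] : List V).toFinset := by
    simp [List.toFinset_cons]
  rw [hE]
  exact fb_bound _ [u, w, z] [] d3e_chk rfl (by simp [List.range']) rfl rfl (by norm_num)
    (by norm_num) hn hA hs hD (by simp [RL, a1, a2, a3, a4, a5, hadj]) (by simp [RL, hadj2, hadj3])

end s6

end Pool.Agent.Lib.MP_f77bf6_co
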