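import Mathlib
import Pool.Agent.Lib.MP_f77bf6_co.Local

set_option autoImplicit false
set_option linter.unusedSectionVars false
set_option linter.unusedVariables false
set_option linter.unusedSimpArgs false

/-!
# One deletion step, and graphs with eight vertices
-/

namespace Pool.Agent.Lib.MP_f77bf6_co

open Finset

variable {V : Type*} [DecidableEq V] {G : SimpleGraph V} [Fintype V] [DecidableRel G.Adj]

theorem bit127 {y : ℕ} (h : y < 7) : Nat.testBit 127 y = true := by
  interval_cases y <;> decide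

theorem bit63 {y : ℕ} (h : y < 6) : Nat.testBit 63 y = true := by
  interval_cases y <;> decide

theorem mem_append_idx {P R : List V} {y : V} (h : y ∈ P) :
    y ∈ P ++ R ∧ (P ++ R).idxOf y < P.length := by
  refine ⟨List.mem_append_left _ h, ?_⟩
  rw [List.idxOf_append_of_mem h]
  exact List.idxOf_lt_length_iff.mpr h

theorem conn_erase' {A : Finset V} {K : ℕ} {v : V} {P : List V} (hA : Conn G A)
    (hP : IsP G A (v :: P)) (h2 : P ≠ []) (hlen : (v :: P).length + 1 = K) (hs : Short G A K) :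
    Conn G (A.erase v) := by
  cases P with
  | nil => exact absurd rfl h2
  | cons q P => exact conn_erase hA hP hlen hs

section s7

variable {A : Finset V} {p0 p1 p2 p3 p4 p5 p6 : V}

theorem deg7 (hP : IsP G A [p0, p1, p2, p3, p4, p5, p6]) (hs : Short G A 8) {u p : V}
    (hu : u ∈ A \ [p0, p1, p2, p3, p4, p5, p6].toFinset)
    (hp : p ∈ [p0, p1, p2, p3, p4, p5, p6].toFinset) (hpu : G.Adj p u) :
    (A.filter (G.Adj p0)).card ≤ 3 ∨ (A.filter (G.Adj p6)).card ≤ 3 := by
  obtain ⟨a1, a2, a3, a4, a5, a6⟩ := chain7 hP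
  rw [mem_sdiff, List.mem_toFinset] at hu
  have hn : ([p0, p1, p2, p3, p4, p5, p6] ++ [u]).Nodup :=
    nodup_append_of hP.1 (by simp) (by
      intro x hx; simp only [List.mem_singleton] at hx; rw [hx]; exact hu.2)
  have hA : ∀ x ∈ [p0, p1, p2, p3, p4, p5, p6] ++ [u], x ∈ A := by
    intro x hx
    rw [List.mem_append] at hx
    rcases hx with hx | hx
    · exact hP.2.2 x hx
    · simp only [List.mem_singleton] at hx; rw [hx]; exact hu.1
  have hN0 := nbr_of_end hP rfl hs
  have hP' : IsP G A [p6, p5, p4, p3, p2, p1, p0] := by simpa using hP.reverse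
  have hN6 := nbr_of_end hP' rfl hs
  have key : (∀ p : List ℕ, p.Nodup → (∀ y ∈ p, y < 16 ∧ Nat.testBit 127 y = true ∧
        RL G ([p0, p1, p2, p3, p4, p5, p6] ++ [u]) 0 y) → p.length ≤ 3) ∨
      (∀ p : List ℕ, p.Nodup → (∀ y ∈ p, y < 16 ∧ Nat.testBit 127 y = true ∧
        RL G ([p0, p1, p2, p3, p4, p5, p6] ++ [u]) 6 y) → p.length ≤ 3) := by
    rw [List.mem_toFinset] at hp
    simp only [List.mem_cons, List.not_mem_nil, or_false] at hp
    rcases hp with rfl | rfl | rfl | rfl | rfl | rfl | rfl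
    · exact core_deg _ cd_0_chk (by norm_num) (by norm_num) rfl (by norm_num) (by norm_num) hn hA hs
        (by simp [RL, a1, a2, a3, a4, a5, a6, hpu])
    · exact core_deg _ cd_1_chk (by norm_num) (by norm_num) rfl (by norm_num) (by norm_num) hn hA hs
        (by simp [RL, a1, a2, a3, a4, a5, a6, hpu])
    · exact core_deg _ cd_2_chk (by norm_num) (by norm_num) rfl (by norm_num) (by norm_num) hn hA hs
        (by simp [RL, a1, a2, a3, a4, a5, a6, hpu])
    · exact core_deg _ cd_3_chk (by norm_num) (by norm_num) rfl (by norm_num) (by norm_num) hn hA hs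
        (by simp [RL, a1, a2, a3, a4, a5, a6, hpu])
    · exact core_deg _ cd_4_chk (by norm_num) (by norm_num) rfl (by norm_num) (by norm_num) hn hA hs
        (by simp [RL, a1, a2, a3, a4, a5, a6, hpu])
    · exact core_deg _ cd_5_chk (by norm_num) (by norm_num) rfl (by norm_num) (by norm_num) hn hA hs
        (by simp [RL, a1, a2, a3, a4, a5, a6, hpu])
    · exact core_deg _ cd_6_chk (by norm_num) (by norm_num) rfl (by norm_num) (by norm_num) hn hA hs
        (by simp [RL, a1, a2, a3, a4, a5, a6, hpu])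
  rcases key with h | h
  · left
    refine card_of_deg (l := [p0, p1, p2, p3, p4, p5, p6] ++ [u]) (i := 0) rfl (by simp) ?_ h
    intro y hy hxy
    have hyP := hN0 y hy hxy
    rw [List.mem_toFinset] at hyP
    have := mem_append_idx (R := [u]) hyP
    exact ⟨this.1, bit127 this.2⟩
  · right
    refine card_of_deg (l := [p0, p1, p2, p3, p4, p5, p6] ++ [u]) (i := 6) rfl (by simp) ?_ h
    intro y hy hxy
    have hyP := hN6 y hy hxy
    rw [List.mem_toFinset] at hyP
    have hyP' : y ∈ [p0, p1, p2, p3, p4, p5, p6] := by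
      refine List.mem_reverse.mp ?_
      simpa using hyP
    have := mem_append_idx (R := [u]) hyP'
    exact ⟨this.1, bit127 this.2⟩

theorem le2_7 (hP : IsP G A [p0, p1, p2, p3, p4, p5, p6]) (hs : Short G A 8) {p o o' u : V}
    (hp : p ∈ [p0, p1, p2, p3, p4, p5, p6].toFinset) (ho : o ∈ A \ [p0, p1, p2, p3, p4, p5, p6].toFinset)
    (ho' : o' ∈ A \ [p0, p1, p2, p3, p4, p5, p6].toFinset) (hu : u ∈ A \ [p0, p1, p2, p3, p4, p5, p6].toFinset)
    (hpo : G.Adj p o) (hoo : G.Adj o o') :
    ([p0, p1, p2, p3, p4, p5, p6].toFinset.filter (G.Adj u)).card ≤ 2 := by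
  obtain ⟨a1, a2, a3, a4, a5, a6⟩ := chain7 hP
  rw [mem_sdiff, List.mem_toFinset] at ho ho' hu
  have hne := G.ne_of_adj hoo
  rw [List.mem_toFinset] at hp
  simp only [List.mem_cons, List.not_mem_nil, or_false] at hp
  have hA2 : ∀ x ∈ [p0, p1, p2, p3, p4, p5, p6] ++ [o, o'], x ∈ A := by
    intro x hx
    rw [List.mem_append] at hx
    rcases hx with hx | hx
    · exact hP.2.2 x hx
    · simp only [List.mem_cons, List.not_mem_nil, or_false] at hx
      rcases hx with rfl | rfl
      · exact ho.1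
      · exact ho'.1
  have hn2 : ([p0, p1, p2, p3, p4, p5, p6] ++ [o, o']).Nodup :=
    nodup_append_of hP.1 (by simp [hne]) (by
      intro x hx; simp only [List.mem_cons, List.not_mem_nil, or_false] at hx
      rcases hx with rfl | rfl
      · exact ho.2
      · exact ho'.2)
  by_cases h1 : u = o
  · subst h1
    have key : ∀ p : List ℕ, p.Nodup → (∀ y ∈ p, y < 16 ∧ Nat.testBit 127 y = true ∧
        RL G ([p0, p1, p2, p3, p4, p5, p6] ++ [u, o']) 7 y) → p.length ≤ 2 := by
      rcases hp with rfl | rfl | rfl | rfl | rfl | rfl | rfl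
      · exact (or_self_iff.mp (core_deg _ cf_0_chk (by norm_num) (by norm_num) rfl (by norm_num)
          (by norm_num) hn2 hA2 hs (by simp [RL, a1, a2, a3, a4, a5, a6, hpo, hoo])))
      · exact (or_self_iff.mp (core_deg _ cf_1_chk (by norm_num) (by norm_num) rfl (by norm_num)
          (by norm_num) hn2 hA2 hs (by simp [RL, a1, a2, a3, a4, a5, a6, hpo, hoo])))
      · exact (or_self_iff.mp (core_deg _ cf_2_chk (by norm_num) (by norm_num) rfl (by norm_num)
          (by norm_num) hn2 hA2 hs (by simp [RL, a1, a2, a3, a4, a5, a6, hpo, hoo])))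
      · exact (or_self_iff.mp (core_deg _ cf_3_chk (by norm_num) (by norm_num) rfl (by norm_num)
          (by norm_num) hn2 hA2 hs (by simp [RL, a1, a2, a3, a4, a5, a6, hpo, hoo])))
      · exact (or_self_iff.mp (core_deg _ cf_4_chk (by norm_num) (by norm_num) rfl (by norm_num)
          (by norm_num) hn2 hA2 hs (by simp [RL, a1, a2, a3, a4, a5, a6, hpo, hoo])))
      · exact (or_self_iff.mp (core_deg _ cf_5_chk (by norm_num) (by norm_num) rfl (by norm_num)
          (by norm_num) hn2 hA2 hs (by simp [RL, a1, a2, a3, a4, a5, a6, hpo, hoo])))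
      · exact (or_self_iff.mp (core_deg _ cf_6_chk (by norm_num) (by norm_num) rfl (by norm_num)
          (by norm_num) hn2 hA2 hs (by simp [RL, a1, a2, a3, a4, a5, a6, hpo, hoo])))
    refine card_of_deg (l := [p0, p1, p2, p3, p4, p5, p6] ++ [u, o']) (i := 7) rfl (by simp) ?_ key
    intro y hy _
    rw [List.mem_toFinset] at hy
    have := mem_append_idx (R := [u, o']) hy
    exact ⟨this.1, bit127 this.2⟩
  by_cases h2 : u = o'
  · subst h2
    have key : ∀ p : List ℕ, p.Nodup → (∀ y ∈ p, y < 16 ∧ Nat.testBit 127 y = true ∧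
        RL G ([p0, p1, p2, p3, p4, p5, p6] ++ [o, u]) 8 y) → p.length ≤ 2 := by
      rcases hp with rfl | rfl | rfl | rfl | rfl | rfl | rfl
      · exact (or_self_iff.mp (core_deg _ cg_0_chk (by norm_num) (by norm_num) rfl (by norm_num)
          (by norm_num) hn2 hA2 hs (by simp [RL, a1, a2, a3, a4, a5, a6, hpo, hoo])))
      · exact (or_self_iff.mp (core_deg _ cg_1_chk (by norm_num) (by norm_num) rfl (by norm_num)
          (by norm_num) hn2 hA2 hs (by simp [RL, a1, a2, a3, a4, a5, a6, hpo, hoo])))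
      · exact (or_self_iff.mp (core_deg _ cg_2_chk (by norm_num) (by norm_num) rfl (by norm_num)
          (by norm_num) hn2 hA2 hs (by simp [RL, a1, a2, a3, a4, a5, a6, hpo, hoo])))
      · exact (or_self_iff.mp (core_deg _ cg_3_chk (by norm_num) (by norm_num) rfl (by norm_num)
          (by norm_num) hn2 hA2 hs (by simp [RL, a1, a2, a3, a4, a5, a6, hpo, hoo])))
      · exact (or_self_iff.mp (core_deg _ cg_4_chk (by norm_num) (by norm_num) rfl (by norm_num)
          (by norm_num) hn2 hA2 hs (by simp [RL, a1, a2, a3, a4, a5, a6, hpo, hoo])))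
      · exact (or_self_iff.mp (core_deg _ cg_5_chk (by norm_num) (by norm_num) rfl (by norm_num)
          (by norm_num) hn2 hA2 hs (by simp [RL, a1, a2, a3, a4, a5, a6, hpo, hoo])))
      · exact (or_self_iff.mp (core_deg _ cg_6_chk (by norm_num) (by norm_num) rfl (by norm_num)
          (by norm_num) hn2 hA2 hs (by simp [RL, a1, a2, a3, a4, a5, a6, hpo, hoo])))
    refine card_of_deg (l := [p0, p1, p2, p3, p4, p5, p6] ++ [o, u]) (i := 8) rfl (by simp) ?_ key
    intro y hy _
    rw [List.mem_toFinset] at hy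
    have := mem_append_idx (R := [o, u]) hy
    exact ⟨this.1, bit127 this.2⟩
  have hA3 : ∀ x ∈ [p0, p1, p2, p3, p4, p5, p6] ++ [o, o', u], x ∈ A := by
    intro x hx
    rw [List.mem_append] at hx
    rcases hx with hx | hx
    · exact hP.2.2 x hx
    · simp only [List.mem_cons, List.not_mem_nil, or_false] at hx
      rcases hx with rfl | rfl | rfl
      · exact ho.1
      · exact ho'.1
      · exact hu.1
  have hn3 : ([p0, p1, p2, p3, p4, p5, p6] ++ [o, o', u]).Nodup :=
    nodup_append_of hP.1 (by simp [hne, Ne.symm h1, Ne.symm h2]) (by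
      intro x hx; simp only [List.mem_cons, List.not_mem_nil, or_false] at hx
      rcases hx with rfl | rfl | rfl
      · exact ho.2
      · exact ho'.2
      · exact hu.2)
  have key : ∀ p : List ℕ, p.Nodup → (∀ y ∈ p, y < 16 ∧ Nat.testBit 127 y = true ∧
      RL G ([p0, p1, p2, p3, p4, p5, p6] ++ [o, o', u]) 9 y) → p.length ≤ 2 := by
    rcases hp with rfl | rfl | rfl | rfl | rfl | rfl | rfl
    · exact (or_self_iff.mp (core_deg _ ce_0_chk (by norm_num) (by norm_num) rfl (by norm_num)
        (by norm_num) hn3 hA3 hs (by simp [RL, a1, a2, a3, a4, a5, a6, hpo, hoo])))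
    · exact (or_self_iff.mp (core_deg _ ce_1_chk (by norm_num) (by norm_num) rfl (by norm_num)
        (by norm_num) hn3 hA3 hs (by simp [RL, a1, a2, a3, a4, a5, a6, hpo, hoo])))
    · exact (or_self_iff.mp (core_deg _ ce_2_chk (by norm_num) (by norm_num) rfl (by norm_num)
        (by norm_num) hn3 hA3 hs (by simp [RL, a1, a2, a3, a4, a5, a6, hpo, hoo])))
    · exact (or_self_iff.mp (core_deg _ ce_3_chk (by norm_num) (by norm_num) rfl (by norm_num)
        (by norm_num) hn3 hA3 hs (by simp [RL, a1, a2, a3, a4, a5, a6, hpo, hoo])))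
    · exact (or_self_iff.mp (core_deg _ ce_4_chk (by norm_num) (by norm_num) rfl (by norm_num)
        (by norm_num) hn3 hA3 hs (by simp [RL, a1, a2, a3, a4, a5, a6, hpo, hoo])))
    · exact (or_self_iff.mp (core_deg _ ce_5_chk (by norm_num) (by norm_num) rfl (by norm_num)
        (by norm_num) hn3 hA3 hs (by simp [RL, a1, a2, a3, a4, a5, a6, hpo, hoo])))
    · exact (or_self_iff.mp (core_deg _ ce_6_chk (by norm_num) (by norm_num) rfl (by norm_num)
        (by norm_num) hn3 hA3 hs (by simp [RL, a1, a2, a3, a4, a5, a6, hpo, hoo])))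
  refine card_of_deg (l := [p0, p1, p2, p3, p4, p5, p6] ++ [o, o', u]) (i := 9) rfl (by simp) ?_ key
  intro y hy _
  rw [List.mem_toFinset] at hy
  have := mem_append_idx (R := [o, o', u]) hy
  exact ⟨this.1, bit127 this.2⟩

theorem eight7 (hP : IsP G A [p0, p1, p2, p3, p4, p5, p6]) (hs : Short G A 8) (hA8 : A.card = 8) {u p : V}
    (hu : u ∈ A \ [p0, p1, p2, p3, p4, p5, p6].toFinset)
    (hp : p ∈ [p0, p1, p2, p3, p4, p5, p6].toFinset) (hpu : G.Adj p u) : (PT G A).card ≤ 1440 := by
  obtain ⟨a1, a2, a3, a4, a5, a6⟩ := chain7 hP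
  rw [mem_sdiff, List.mem_toFinset] at hu
  have hn : ([p0, p1, p2, p3, p4, p5, p6] ++ [u]).Nodup :=
    nodup_append_of hP.1 (by simp) (by
      intro x hx; simp only [List.mem_singleton] at hx; rw [hx]; exact hu.2)
  have hA : ∀ x ∈ [p0, p1, p2, p3, p4, p5, p6] ++ [u], x ∈ A := by
    intro x hx
    rw [List.mem_append] at hx
    rcases hx with hx | hx
    · exact hP.2.2 x hx
    · simp only [List.mem_singleton] at hx; rw [hx]; exact hu.1
  have hAe : A = ([p0, p1, p2, p3, p4, p5, p6] ++ [u]).toFinset := by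
    symm
    apply eq_of_subset_of_card_le
    · intro x hx
      rw [List.mem_toFinset] at hx
      exact hA x hx
    · rw [List.toFinset_card_of_nodup hn, hA8]
      simp
  rw [List.mem_toFinset] at hp
  simp only [List.mem_cons, List.not_mem_nil, or_false] at hp
  rcases hp with rfl | rfl | rfl | rfl | rfl | rfl | rfl
  · exact pt_bound _ c8_0_chk rfl (by norm_num) (by norm_num) hn hAe hs (by simp)
      (by simp [RL, a1, a2, a3, a4, a5, a6, hpu]) (by simp)
  · exact pt_bound _ c8_1_chk rfl (by norm_num) (by norm_num) hn hAe hs (by simp)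
      (by simp [RL, a1, a2, a3, a4, a5, a6, hpu]) (by simp)
  · exact pt_bound _ c8_2_chk rfl (by norm_num) (by norm_num) hn hAe hs (by simp)
      (by simp [RL, a1, a2, a3, a4, a5, a6, hpu]) (by simp)
  · exact pt_bound _ c8_3_chk rfl (by norm_num) (by norm_num) hn hAe hs (by simp)
      (by simp [RL, a1, a2, a3, a4, a5, a6, hpu]) (by simp)
  · exact pt_bound _ c8_4_chk rfl (by norm_num) (by norm_num) hn hAe hs (by simp)
      (by simp [RL, a1, a2, a3, a4, a5, a6, hpu]) (by simp)
  · exact pt_bound _ c8_5_chk rfl (by norm_num) (by norm_num) hn hAe hs (by simp)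
      (by simp [RL, a1, a2, a3, a4, a5, a6, hpu]) (by simp)
  · exact pt_bound _ c8_6_chk rfl (by norm_num) (by norm_num) hn hAe hs (by simp)
      (by simp [RL, a1, a2, a3, a4, a5, a6, hpu]) (by simp)

theorem step7' (hP : IsP G A [p0, p1, p2, p3, p4, p5, p6]) (hs : Short G A 8) (hc : Conn G A)
    (h9 : 9 ≤ A.card) (hd : (A.filter (G.Adj p0)).card ≤ 3) :
    Conn G (A.erase p0) ∧ (Th G A p0).card ≤ 72 * ((A.card - 4) * (A.card - 5)) := by
  refine ⟨conn_erase' hc hP (by simp) rfl hs, ?_⟩
  have hsub : [p0, p1, p2, p3, p4, p5, p6].toFinset ⊆ A := by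
    intro x hx
    rw [List.mem_toFinset] at hx
    exact hP.2.2 x hx
  have hQc : ([p0, p1, p2, p3, p4, p5, p6].toFinset).card = 7 := by
    rw [List.toFinset_card_of_nodup hP.1]
    simp
  obtain ⟨p, hp, u, hu, hpu⟩ := exists_attached hc hsub (card_pos.mp (by rw [hQc]; norm_num)) (by
    intro h
    rw [h] at hQc
    omega)
  have hk : (A \ [p0, p1, p2, p3, p4, p5, p6].toFinset).card = A.card - 7 := by
    rw [card_sdiff_of_subset hsub, hQc]
  have hv : p0 ∈ [p0, p1, p2, p3, p4, p5, p6].toFinset := by simp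
  have hN := nbr_of_end hP rfl hs
  have h4 := noTail4 hP rfl hs (by simp)
  have f0 := fib7_0 hP hs hd hu hp hpu
  by_cases htail : ∃ p ∈ [p0, p1, p2, p3, p4, p5, p6].toFinset, ∃ a ∈ A \ [p0, p1, p2, p3, p4, p5, p6].toFinset,
      ∃ b ∈ A \ [p0, p1, p2, p3, p4, p5, p6].toFinset, G.Adj p a ∧ G.Adj a b
  · obtain ⟨p', hp', o, ho, o', ho', hpo, hoo⟩ := htail
    have hle2 : ∀ x ∈ A \ [p0, p1, p2, p3, p4, p5, p6].toFinset,
        ([p0, p1, p2, p3, p4, p5, p6].toFinset.filter (G.Adj x)).card ≤ 2 :=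
      fun x hx => le2_7 hP hs hp' ho ho' hx hpo hoo
    have := assemble (b0 := 432) (b1 := 216) (b2 := 48) (b3 := 48) (b4 := 8) hv hN h4 f0
      (fun x hx => fib7_1s hP hs hd hx (hle2 x hx))
      (fun x hx y hy hxy => by
        by_cases hadj : G.Adj x y
        · exact fib7_2a hP hs hd hx hy hxy hadj
        · exact fib7_2s hP hs hd hx hy hxy hadj (hle2 x hx) (hle2 y hy))
      (fun a ha b hb c hc hab hac hbc e1 e2 => fib7_3c hP hs hd ha hb hc hab hac hbc e1 e2)
      (fun a ha b hb c hc hab hac hbc e1 e2 e3 => fib7_3e hP hs hd ha hb hc hab hac hbc e1 e2 e3)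
    rw [hk] at this
    obtain ⟨k, hk'⟩ : ∃ k, A.card = k + 7 := ⟨A.card - 7, by omega⟩
    rw [hk'] at this ⊢
    simp only [Nat.add_sub_cancel] at this
    have e1 : k + 7 - 4 = k + 3 := by omega
    have e2 : k + 7 - 5 = k + 2 := by omega
    rw [e1, e2]
    have hch : 2 * k.choose 2 + k = k * k := by
      rw [Nat.choose_two_right]
      rcases k with _ | k
      · rfl
      · have := Nat.two_mul_div_two_of_even (Nat.even_mul_pred_self (k + 1))
        rw [this]
        simp only [Nat.add_sub_cancel]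
        ring
    nlinarith [this, hch]
  · push Not at htail
    have := assemble_no (b0 := 432) (b1 := 432) (b2 := 144) hv hN
      (fun p hp a ha b hb h1 h2 => htail p hp a ha b hb h1 h2) f0
      (fun x hx => fib7_1 hP hs hd hx)
      (fun x hx y hy hxy => by
        by_cases hadj : G.Adj x y
        · exact le_trans (fib7_2a hP hs hd hx hy hxy hadj) (by norm_num)
        · exact fib7_2 hP hs hd hx hy hxy hadj)
    rw [hk] at this
    obtain ⟨k, hk'⟩ : ∃ k, A.card = k + 7 := ⟨A.card - 7, by omega⟩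
    rw [hk'] at this ⊢
    simp only [Nat.add_sub_cancel] at this
    have e1 : k + 7 - 4 = k + 3 := by omega
    have e2 : k + 7 - 5 = k + 2 := by omega
    rw [e1, e2]
    have hch : 2 * k.choose 2 + k = k * k := by
      rw [Nat.choose_two_right]
      rcases k with _ | k
      · rfl
      · have := Nat.two_mul_div_two_of_even (Nat.even_mul_pred_self (k + 1))
        rw [this]
        simp only [Nat.add_sub_cancel]
        ring
    nlinarith [this, hch]

theorem step7 (hP : IsP G A [p0, p1, p2, p3, p4, p5, p6]) (hs : Short G A 8) (hc : Conn G A)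
    (h9 : 9 ≤ A.card) :
    ∃ v ∈ A, Conn G (A.erase v) ∧ (Th G A v).card ≤ 72 * ((A.card - 4) * (A.card - 5)) := by
  have hsub : [p0, p1, p2, p3, p4, p5, p6].toFinset ⊆ A := by
    intro x hx
    rw [List.mem_toFinset] at hx
    exact hP.2.2 x hx
  have hQc : ([p0, p1, p2, p3, p4, p5, p6].toFinset).card = 7 := by
    rw [List.toFinset_card_of_nodup hP.1]
    simp
  obtain ⟨p, hp, u, hu, hpu⟩ := exists_attached hc hsub (card_pos.mp (by rw [hQc]; norm_num)) (by
    intro h
    rw [h] at hQc
    omega)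
  rcases deg7 hP hs hu hp hpu with h | h
  · exact ⟨p0, hP.2.2 _ (by simp), step7' hP hs hc h9 h⟩
  · have hP' : IsP G A [p6, p5, p4, p3, p2, p1, p0] := by simpa using hP.reverse
    exact ⟨p6, hP.2.2 _ (by simp), step7' hP' hs hc h9 h⟩

end s7

section s6

variable {A : Finset V} {p0 p1 p2 p3 p4 p5 : V}

theorem deg6 (hP : IsP G A [p0, p1, p2, p3, p4, p5]) (hs : Short G A 7) {u p : V}
    (hu : u ∈ A \ [p0, p1, p2, p3, p4, p5].toFinset)
    (hp : p ∈ [p0, p1, p2, p3, p4, p5].toFinset) (hpu : G.Adj p u) :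
    (A.filter (G.Adj p0)).card ≤ 2 ∨ (A.filter (G.Adj p5)).card ≤ 2 := by
  obtain ⟨a1, a2, a3, a4, a5⟩ := chain6 hP
  rw [mem_sdiff, List.mem_toFinset] at hu
  have hn : ([p0, p1, p2, p3, p4, p5] ++ [u]).Nodup :=
    nodup_append_of hP.1 (by simp) (by
      intro x hx; simp only [List.mem_singleton] at hx; rw [hx]; exact hu.2)
  have hA : ∀ x ∈ [p0, p1, p2, p3, p4, p5] ++ [u], x ∈ A := by
    intro x hx
    rw [List.mem_append] at hx
    rcases hx with hx | hx
    · exact hP.2.2 x hx
    · simp only [List.mem_singleton] at hx; rw [hx]; exact hu.1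
  have hN0 := nbr_of_end hP rfl hs
  have hP' : IsP G A [p5, p4, p3, p2, p1, p0] := by simpa using hP.reverse
  have hN6 := nbr_of_end hP' rfl hs
  have key : (∀ p : List ℕ, p.Nodup → (∀ y ∈ p, y < 16 ∧ Nat.testBit 63 y = true ∧
        RL G ([p0, p1, p2, p3, p4, p5] ++ [u]) 0 y) → p.length ≤ 2) ∨
      (∀ p : List ℕ, p.Nodup → (∀ y ∈ p, y < 16 ∧ Nat.testBit 63 y = true ∧
        RL G ([p0, p1, p2, p3, p4, p5] ++ [u]) 5 y) → p.length ≤ 2) := by
    rw [List.mem_toFinset] at hp
    simp only [List.mem_cons, List.not_mem_nil, or_false] at hp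
    rcases hp with rfl | rfl | rfl | rfl | rfl | rfl
    · exact core_deg _ dd_0_chk (by norm_num) (by norm_num) rfl (by norm_num) (by norm_num) hn hA hs
        (by simp [RL, a1, a2, a3, a4, a5, hpu])
    · exact core_deg _ dd_1_chk (by norm_num) (by norm_num) rfl (by norm_num) (by norm_num) hn hA hs
        (by simp [RL, a1, a2, a3, a4, a5, hpu])
    · exact core_deg _ dd_2_chk (by norm_num) (by norm_num) rfl (by norm_num) (by norm_num) hn hA hs
        (by simp [RL, a1, a2, a3, a4, a5, hpu])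
    · exact core_deg _ dd_3_chk (by norm_num) (by norm_num) rfl (by norm_num) (by norm_num) hn hA hs
        (by simp [RL, a1, a2, a3, a4, a5, hpu])
    · exact core_deg _ dd_4_chk (by norm_num) (by norm_num) rfl (by norm_num) (by norm_num) hn hA hs
        (by simp [RL, a1, a2, a3, a4, a5, hpu])
    · exact core_deg _ dd_5_chk (by norm_num) (by norm_num) rfl (by norm_num) (by norm_num) hn hA hs
        (by simp [RL, a1, a2, a3, a4, a5, hpu])
  rcases key with h | h
  · left
    refine card_of_deg (l := [p0, p1, p2, p3, p4, p5] ++ [u]) (i := 0) rfl (by simp) ?_ h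
    intro y hy hxy
    have hyP := hN0 y hy hxy
    rw [List.mem_toFinset] at hyP
    have := mem_append_idx (R := [u]) hyP
    exact ⟨this.1, bit63 this.2⟩
  · right
    refine card_of_deg (l := [p0, p1, p2, p3, p4, p5] ++ [u]) (i := 5) rfl (by simp) ?_ h
    intro y hy hxy
    have hyP := hN6 y hy hxy
    rw [List.mem_toFinset] at hyP
    have hyP' : y ∈ [p0, p1, p2, p3, p4, p5] := by
      refine List.mem_reverse.mp ?_
      simpa using hyP
    have := mem_append_idx (R := [u]) hyP'
    exact ⟨this.1, bit63 this.2⟩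

theorem eight6 (hP : IsP G A [p0, p1, p2, p3, p4, p5]) (hs : Short G A 7) (hA8 : A.card = 8) :
    (PT G A).card ≤ 1440 := by
  obtain ⟨a1, a2, a3, a4, a5⟩ := chain6 hP
  have hcard : (A \ [p0, p1, p2, p3, p4, p5].toFinset).card = 2 := by
    rw [card_sdiff_of_subset, hA8, List.toFinset_card_of_nodup hP.1]
    · simp
    · intro x hx
      rw [List.mem_toFinset] at hx
      exact hP.2.2 x hx
  obtain ⟨u, w, huw, hset⟩ := card_eq_two.mp hcard
  have hu : u ∈ A \ [p0, p1, p2, p3, p4, p5].toFinset := by rw [hset]; simp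
  have hw : w ∈ A \ [p0, p1, p2, p3, p4, p5].toFinset := by rw [hset]; simp
  rw [mem_sdiff, List.mem_toFinset] at hu hw
  have hn : ([p0, p1, p2, p3, p4, p5] ++ [u, w]).Nodup :=
    nodup_append_of hP.1 (by simp [huw]) (by
      intro x hx; simp only [List.mem_cons, List.not_mem_nil, or_false] at hx
      rcases hx with rfl | rfl
      · exact hu.2
      · exact hw.2)
  have hA : ∀ x ∈ [p0, p1, p2, p3, p4, p5] ++ [u, w], x ∈ A := by
    intro x hx
    rw [List.mem_append] at hx
    rcases hx with hx | hx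
    · exact hP.2.2 x hx
    · simp only [List.mem_cons, List.not_mem_nil, or_false] at hx
      rcases hx with rfl | rfl
      · exact hu.1
      · exact hw.1
  have hAe : A = ([p0, p1, p2, p3, p4, p5] ++ [u, w]).toFinset := by
    symm
    apply eq_of_subset_of_card_le
    · intro x hx
      rw [List.mem_toFinset] at hx
      exact hA x hx
    · rw [List.toFinset_card_of_nodup hn, hA8]
      simp
  exact pt_bound _ d8_chk rfl (by norm_num) (by norm_num) hn hAe hs (by simp)
      (by simp [RL, a1, a2, a3, a4, a5]) (by simp)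

theorem step6' (hP : IsP G A [p0, p1, p2, p3, p4, p5]) (hs : Short G A 7) (hc : Conn G A)
    (h9 : 9 ≤ A.card) (hd : (A.filter (G.Adj p0)).card ≤ 2) :
    Conn G (A.erase p0) ∧ (Th G A p0).card ≤ 72 * ((A.card - 4) * (A.card - 5)) := by
  refine ⟨conn_erase' hc hP (by simp) rfl hs, ?_⟩
  have hsub : [p0, p1, p2, p3, p4, p5].toFinset ⊆ A := by
    intro x hx
    rw [List.mem_toFinset] at hx
    exact hP.2.2 x hx
  have hQc : ([p0, p1, p2, p3, p4, p5].toFinset).card = 6 := by
    rw [List.toFinset_card_of_nodup hP.1]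
    simp
  obtain ⟨p, hp, u, hu, hpu⟩ := exists_attached hc hsub (card_pos.mp (by rw [hQc]; norm_num)) (by
    intro h
    rw [h] at hQc
    omega)
  have hk : (A \ [p0, p1, p2, p3, p4, p5].toFinset).card = A.card - 6 := by
    rw [card_sdiff_of_subset hsub, hQc]
  have hv : p0 ∈ [p0, p1, p2, p3, p4, p5].toFinset := by simp
  have hN := nbr_of_end hP rfl hs
  have h4 := noTail4 hP rfl hs (by simp)
  have f0 := fib6_0 hP hs hd hu hp hpu
  have := assemble (b0 := 144) (b1 := 216) (b2 := 48) (b3 := 48) (b4 := 8) hv hN h4 f0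
    (fun x hx => fib6_1 hP hs hd hx)
    (fun x hx y hy hxy => fib6_2 hP hs hd hx hy hxy)
    (fun a ha b hb c hc hab hac hbc e1 e2 => fib6_3c hP hs hd ha hb hc hab hac hbc e1 e2)
    (fun a ha b hb c hc hab hac hbc e1 e2 e3 => fib6_3e hP hs hd ha hb hc hab hac hbc e1 e2 e3)
  rw [hk] at this
  obtain ⟨k, hk'⟩ : ∃ k, A.card = k + 6 := ⟨A.card - 6, by omega⟩
  rw [hk'] at this ⊢
  simp only [Nat.add_sub_cancel] at this
  have e1 : k + 6 - 4 = k + 2 := by omega
  have e2 : k + 6 - 5 = k + 1 := by omega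
  rw [e1, e2]
  have hch : 2 * k.choose 2 + k = k * k := by
    rw [Nat.choose_two_right]
    rcases k with _ | k
    · rfl
    · have := Nat.two_mul_div_two_of_even (Nat.even_mul_pred_self (k + 1))
      rw [this]
      simp only [Nat.add_sub_cancel]
      ring
  nlinarith [this, hch]

theorem step6 (hP : IsP G A [p0, p1, p2, p3, p4, p5]) (hs : Short G A 7) (hc : Conn G A)
    (h9 : 9 ≤ A.card) :
    ∃ v ∈ A, Conn G (A.erase v) ∧ (Th G A v).card ≤ 72 * ((A.card - 4) * (A.card - 5)) := by
  have hsub : [p0, p1, p2, p3, p4, p5].toFinset ⊆ A := by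
    intro x hx
    rw [List.mem_toFinset] at hx
    exact hP.2.2 x hx
  have hQc : ([p0, p1, p2, p3, p4, p5].toFinset).card = 6 := by
    rw [List.toFinset_card_of_nodup hP.1]
    simp
  obtain ⟨p, hp, u, hu, hpu⟩ := exists_attached hc hsub (card_pos.mp (by rw [hQc]; norm_num)) (by
    intro h
    rw [h] at hQc
    omega)
  rcases deg6 hP hs hu hp hpu with h | h
  · exact ⟨p0, hP.2.2 _ (by simp), step6' hP hs hc h9 h⟩
  · have hP' : IsP G A [p5, p4, p3, p2, p1, p0] := by simpa using hP.reverse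
    exact ⟨p5, hP.2.2 _ (by simp), step6' hP' hs hc h9 h⟩

end s6

end Pool.Agent.Lib.MP_f77bf6_co
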