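import Mathlib
import Pool.Agent.Lib.MP_f77bf6_co.Step

set_option autoImplicit false
set_option linter.unusedSectionVars false
set_option linter.unusedVariables false

/-!
# The upper bound for the number of ordered six-vertex paths
-/

namespace Pool.Agent.Lib.MP_f77bf6_co

open Finset

/-- The extremal function: the maximum number of copies of `P_6` in a graph with `n` vertices and
without `P_8`. -/
def exN (n : ℕ) : ℕ :=
  if n ≤ 5 then 0 else if n = 6 then 360 else if n ≤ 10 then 2520
  else 12 * ((n - 3) * (n - 4) * (n - 5))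

theorem exN_big {n : ℕ} (h : 11 ≤ n) : exN n = 12 * ((n - 3) * (n - 4) * (n - 5)) := by
  unfold exN
  rw [if_neg (by omega), if_neg (by omega), if_neg (by omega)]

theorem exN_small : ∀ a < 11, ∀ b < 11, exN a + exN b ≤ exN (a + b) := by
  decide +kernel

theorem exN_super_aux {a b : ℕ} (ha : 11 ≤ a) : exN a + exN b ≤ exN (a + b) := by
  obtain ⟨x, rfl⟩ : ∃ x, a = x + 11 := ⟨a - 11, by omega⟩
  rw [exN_big (n := x + 11) (by omega), exN_big (n := x + 11 + b) (by omega)]
  have e1 : x + 11 - 3 = x + 8 := by omega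
  have e2 : x + 11 - 4 = x + 7 := by omega
  have e3 : x + 11 - 5 = x + 6 := by omega
  rw [e1, e2, e3]
  rcases Nat.lt_or_ge b 11 with hb | hb
  · have f1 : x + 11 + b - 3 = x + 8 + b := by omega
    have f2 : x + 11 + b - 4 = x + 7 + b := by omega
    have f3 : x + 11 + b - 5 = x + 6 + b := by omega
    rw [f1, f2, f3]
    interval_cases b <;> simp only [exN] <;> norm_num <;> nlinarith
  · obtain ⟨y, rfl⟩ : ∃ y, b = y + 11 := ⟨b - 11, by omega⟩
    rw [exN_big (n := y + 11) (by omega)]
    have f1 : x + 11 + (y + 11) - 3 = (x + 8) + (y + 8) + 3 := by omega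
    have f2 : x + 11 + (y + 11) - 4 = x + y + 18 := by omega
    have f3 : x + 11 + (y + 11) - 5 = x + y + 17 := by omega
    have g1 : y + 11 - 3 = y + 8 := by omega
    have g2 : y + 11 - 4 = y + 7 := by omega
    have g3 : y + 11 - 5 = y + 6 := by omega
    rw [f1, f2, f3, g1, g2, g3, ← mul_add]
    apply Nat.mul_le_mul_left
    have h1 : (x + 7) * (x + 6) ≤ (x + y + 18) * (x + y + 17) :=
      Nat.mul_le_mul (by omega) (by omega)
    have h2 : (y + 7) * (y + 6) ≤ (x + y + 18) * (x + y + 17) :=
      Nat.mul_le_mul (by omega) (by omega)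
    calc (x + 8) * (x + 7) * (x + 6) + (y + 8) * (y + 7) * (y + 6)
        = (x + 8) * ((x + 7) * (x + 6)) + (y + 8) * ((y + 7) * (y + 6)) := by ring
      _ ≤ (x + 8) * ((x + y + 18) * (x + y + 17)) + (y + 8) * ((x + y + 18) * (x + y + 17)) :=
          Nat.add_le_add (Nat.mul_le_mul_left _ h1) (Nat.mul_le_mul_left _ h2)
      _ = ((x + 8) + (y + 8)) * ((x + y + 18) * (x + y + 17)) := by ring
      _ ≤ ((x + 8) + (y + 8) + 3) * ((x + y + 18) * (x + y + 17)) :=
          Nat.mul_le_mul_right _ (by omega)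
      _ = ((x + 8) + (y + 8) + 3) * (x + y + 18) * (x + y + 17) := by ring

theorem exN_super (a b : ℕ) : exN a + exN b ≤ exN (a + b) := by
  rcases Nat.lt_or_ge a 11 with ha | ha
  · rcases Nat.lt_or_ge b 11 with hb | hb
    · exact exN_small a ha b hb
    · rw [add_comm a b, add_comm (exN a)]
      exact exN_super_aux hb
  · exact exN_super_aux ha

variable {V : Type*} [DecidableEq V] {G : SimpleGraph V} [Fintype V] [DecidableRel G.Adj]

theorem len7 {l : List V} (h : l.length = 7) :
    ∃ p0 p1 p2 p3 p4 p5 p6, l = [p0, p1, p2, p3, p4, p5, p6] := by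
  match l, h with
  | [a, b, c, d, e, f, g], _ => exact ⟨a, b, c, d, e, f, g, rfl⟩

theorem len6 {l : List V} (h : l.length = 6) :
    ∃ p0 p1 p2 p3 p4 p5, l = [p0, p1, p2, p3, p4, p5] := by
  match l, h with
  | [a, b, c, d, e, f], _ => exact ⟨a, b, c, d, e, f, rfl⟩

theorem conn_step {A : Finset V} (hc : Conn G A) (hs : Short G A 8) (h9 : 9 ≤ A.card) :
    (PT G A).card = 0 ∨
    ∃ v ∈ A, Conn G (A.erase v) ∧ (Th G A v).card ≤ 72 * ((A.card - 4) * (A.card - 5)) := by
  by_cases h7 : ∃ l, IsP G A l ∧ l.length = 7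
  · obtain ⟨l, hl, hlen⟩ := h7
    obtain ⟨p0, p1, p2, p3, p4, p5, p6, rfl⟩ := len7 hlen
    exact Or.inr (step7 hl hs hc h9)
  · have hs7 : Short G A 7 := short_of_ne (fun l hl hlen => h7 ⟨l, hl, hlen⟩)
    by_cases h6 : ∃ l, IsP G A l ∧ l.length = 6
    · obtain ⟨l, hl, hlen⟩ := h6
      obtain ⟨p0, p1, p2, p3, p4, p5, rfl⟩ := len6 hlen
      exact Or.inr (step6 hl hs7 hc h9)
    · left
      rw [card_eq_zero, eq_empty_iff_forall_notMem]
      intro w hw
      exact h6 ⟨_, isP_ofFn hw, by simp⟩

theorem conn_eight {A : Finset V} (hc : Conn G A) (hs : Short G A 8) (h8 : A.card = 8) :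
    (PT G A).card ≤ 1440 := by
  by_cases h7 : ∃ l, IsP G A l ∧ l.length = 7
  · obtain ⟨l, hl, hlen⟩ := h7
    obtain ⟨p0, p1, p2, p3, p4, p5, p6, rfl⟩ := len7 hlen
    have hsub : [p0, p1, p2, p3, p4, p5, p6].toFinset ⊆ A := by
      intro x hx
      rw [List.mem_toFinset] at hx
      exact hl.2.2 x hx
    have hQc : ([p0, p1, p2, p3, p4, p5, p6].toFinset).card = 7 := by
      rw [List.toFinset_card_of_nodup hl.1]
      simp
    obtain ⟨p, hp, u, hu, hpu⟩ := exists_attached hc hsub
      (card_pos.mp (by rw [hQc]; norm_num)) (by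
        intro h
        rw [h] at hQc
        omega)
    exact eight7 hl hs h8 hu hp hpu
  · have hs7 : Short G A 7 := short_of_ne (fun l hl hlen => h7 ⟨l, hl, hlen⟩)
    by_cases h6 : ∃ l, IsP G A l ∧ l.length = 6
    · obtain ⟨l, hl, hlen⟩ := h6
      obtain ⟨p0, p1, p2, p3, p4, p5, rfl⟩ := len6 hlen
      exact eight6 hl hs7 h8
    · have : (PT G A).card = 0 := by
        rw [card_eq_zero, eq_empty_iff_forall_notMem]
        intro w hw
        exact h6 ⟨_, isP_ofFn hw, by simp⟩
      omega

theorem conn_bound : ∀ (n : ℕ), 8 ≤ n → ∀ A : Finset V, A.card = n → Conn G A → Short G A 8 →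
    (PT G A).card ≤ 24 * ((n - 3) * (n - 4) * (n - 5)) := by
  intro n hn
  induction n, hn using Nat.le_induction with
  | base =>
    intro A hA hc hs
    exact conn_eight hc hs hA
  | succ n hn ih =>
    intro A hA hc hs
    rcases conn_step hc hs (by omega) with h0 | ⟨v, hv, hc', ht⟩
    · rw [h0]
      exact Nat.zero_le _
    · have hcard : (A.erase v).card = n := by
        rw [card_erase_of_mem hv, hA]
        rfl
      have h1 := ih (A.erase v) hcard hc' (hs.mono (erase_subset _ _))
      have h2 := PT_erase (G := G) (A := A) (v := v)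
      rw [hA] at ht
      obtain ⟨m, rfl⟩ : ∃ m, n = m + 8 := ⟨n - 8, by omega⟩
      have e1 : m + 8 - 3 = m + 5 := by omega
      have e2 : m + 8 - 4 = m + 4 := by omega
      have e3 : m + 8 - 5 = m + 3 := by omega
      have e4 : m + 8 + 1 - 3 = m + 6 := by omega
      have e5 : m + 8 + 1 - 4 = m + 5 := by omega
      have e6 : m + 8 + 1 - 5 = m + 4 := by omega
      rw [e1, e2, e3] at h1
      rw [e5, e6] at ht
      rw [e4, e5, e6]
      nlinarith [h1, h2, ht]

theorem card_le_desc (A : Finset V) : (PT G A).card ≤ A.card.descFactorial 6 := by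
  have h : Fintype.card (Fin 6 ↪ {x // x ∈ A}) = A.card.descFactorial 6 := by
    rw [Fintype.card_embedding_eq]
    simp
  rw [← h, ← Finset.card_univ]
  refine le_trans (card_le_card ?_)
    (card_image_le (f := fun (e : Fin 6 ↪ {x // x ∈ A}) (i : Fin 6) => (e i : V)))
  intro w hw
  rw [mem_PT] at hw
  rw [mem_image]
  exact ⟨⟨fun i => ⟨w i, hw.2.2 i⟩, fun i j hij => hw.1 (congrArg Subtype.val hij)⟩,
    mem_univ _, rfl⟩

theorem upper_bound : ∀ (n : ℕ) (A : Finset V), A.card = n → Short G A 8 →
    (PT G A).card ≤ 2 * exN n := by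
  intro n
  induction n using Nat.strong_induction_on with
  | _ n ih =>
    intro A hA hs
    by_cases hc : Conn G A
    · rcases Nat.lt_or_ge n 8 with h8 | h8
      · refine le_trans (card_le_desc A) ?_
        rw [hA]
        interval_cases n <;> decide
      · refine le_trans (conn_bound n h8 A hA hc hs) ?_
        rcases Nat.lt_or_ge n 11 with h11 | h11
        · interval_cases n <;> decide
        · rw [exN_big h11]
          omega
    · obtain ⟨B, C, hBC, hdisj, hB, hC, hno⟩ := exists_split hc
      have hcard : B.card + C.card = n := by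
        rw [← card_union_of_disjoint hdisj, hBC, hA]
      have hB0 := card_pos.mpr hB
      have hC0 := card_pos.mpr hC
      have hBA : B ⊆ A := by rw [← hBC]; exact subset_union_left
      have hCA : C ⊆ A := by rw [← hBC]; exact subset_union_right
      have h1 := ih B.card (by omega) B rfl (hs.mono hBA)
      have h2 := ih C.card (by omega) C rfl (hs.mono hCA)
      have h3 := PT_split hBC hno
      have h4 := exN_super B.card C.card
      rw [hcard] at h4
      omega

end Pool.Agent.Lib.MP_f77bf6_co
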