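import Mathlib
import Pool.Agent.Lib.MP_f77bf6_co.Main

set_option autoImplicit false
set_option linter.unusedSectionVars false
set_option linter.unusedVariables false

/-!
# Copies of `P_6` and ordered six-vertex paths
-/

namespace Pool.Agent.Lib.MP_f77bf6_co

open Finset SimpleGraph

section
variable {V : Type*} {G : SimpleGraph V}

theorem copy_adj {n : ℕ} (f : Copy (pathGraph n) G) {i j : Fin n} (h : i.val + 1 = j.val) :
    G.Adj (f i) (f j) := f.toHom.map_adj (pathGraph_adj.mpr (Or.inl h))

/-- A function that is injective and maps consecutive indices to adjacent vertices is a copy. -/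
def mkCopy {n : ℕ} (w : Fin n → V) (hw : Function.Injective w)
    (h : ∀ i j : Fin n, i.val + 1 = j.val → G.Adj (w i) (w j)) : Copy (pathGraph n) G :=
  ⟨⟨w, fun {a b} hab => by
    rcases pathGraph_adj.mp hab with h1 | h1
    · exact h a b h1
    · exact (h b a h1).symm⟩, hw⟩

theorem mkCopy_apply {n : ℕ} (w : Fin n → V) (hw : Function.Injective w)
    (h : ∀ i j : Fin n, i.val + 1 = j.val → G.Adj (w i) (w j)) (i : Fin n) :
    mkCopy w hw h i = w i := rfl

/-- The reversed copy. -/
def revCopy {n : ℕ} (f : Copy (pathGraph n) G) : Copy (pathGraph n) G :=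
  mkCopy (fun i => f (Fin.rev i)) (fun i j h => Fin.rev_injective (f.injective h)) (by
    intro i j hij
    refine (copy_adj f (i := Fin.rev j) (j := Fin.rev i) ?_).symm
    simp only [Fin.val_rev]
    omega)

theorem revCopy_apply {n : ℕ} (f : Copy (pathGraph n) G) (i : Fin n) :
    revCopy f i = f (Fin.rev i) := rfl

theorem toSubgraph_adj_iff {n : ℕ} (f : Copy (pathGraph n) G) (a b : V) :
    f.toSubgraph.Adj a b ↔ ∃ x y, (pathGraph n).Adj x y ∧ f x = a ∧ f y = b := by
  simp [Subgraph.map_adj, Relation.Map]

theorem toSubgraph_verts {n : ℕ} (f : Copy (pathGraph n) G) (a : V) :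
    a ∈ f.toSubgraph.verts ↔ ∃ x, f x = a := by
  simp

theorem toSubgraph_rev {n : ℕ} (f : Copy (pathGraph n) G) :
    (revCopy f).toSubgraph = f.toSubgraph := by
  apply Subgraph.ext
  · ext a
    rw [toSubgraph_verts, toSubgraph_verts]
    constructor
    · rintro ⟨x, rfl⟩
      exact ⟨Fin.rev x, rfl⟩
    · rintro ⟨x, rfl⟩
      exact ⟨Fin.rev x, by rw [revCopy_apply, Fin.rev_rev]⟩
  · ext a b
    rw [toSubgraph_adj_iff, toSubgraph_adj_iff]
    have key : ∀ x y : Fin n, (pathGraph n).Adj x y → (pathGraph n).Adj (Fin.rev x) (Fin.rev y) := by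
      intro x y h
      rw [pathGraph_adj] at h ⊢
      simp only [Fin.val_rev]
      omega
    constructor
    · rintro ⟨x, y, h, rfl, rfl⟩
      exact ⟨Fin.rev x, Fin.rev y, key x y h, rfl, rfl⟩
    · rintro ⟨x, y, h, rfl, rfl⟩
      exact ⟨Fin.rev x, Fin.rev y, key x y h, by rw [revCopy_apply, Fin.rev_rev],
        by rw [revCopy_apply, Fin.rev_rev]⟩

theorem eq_or_rev (f g : Copy (pathGraph 6) G) (h : g.toSubgraph = f.toSubgraph) :
    g = f ∨ g = revCopy f := by
  have h1 : ∀ i, ∃ j, f j = g i := by
    intro i
    rw [← toSubgraph_verts f, ← h, toSubgraph_verts]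
    exact ⟨i, rfl⟩
  choose s hs using h1
  have hinj : ∀ i j, s i = s j → i = j := by
    intro i j hij
    apply g.injective
    change g i = g j
    rw [← hs i, ← hs j, hij]
  have hadj : ∀ i j : Fin 6, i.val + 1 = j.val →
      ((s i).val + 1 = (s j).val ∨ (s j).val + 1 = (s i).val) := by
    intro i j hij
    have h2 : f.toSubgraph.Adj (g i) (g j) := by
      rw [← h, toSubgraph_adj_iff]
      exact ⟨i, j, pathGraph_adj.mpr (Or.inl hij), rfl, rfl⟩
    rw [toSubgraph_adj_iff] at h2
    obtain ⟨x, y, hxy, hx, hy⟩ := h2
    rw [← hs i] at hx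
    rw [← hs j] at hy
    have hx' := f.injective hx
    have hy' := f.injective hy
    rw [pathGraph_adj, hx', hy'] at hxy
    exact hxy
  have a01 := hadj 0 1 rfl
  have a12 := hadj 1 2 rfl
  have a23 := hadj 2 3 rfl
  have a34 := hadj 3 4 rfl
  have a45 := hadj 4 5 rfl
  have n02 : (s 0).val ≠ (s 2).val := fun e => absurd (hinj 0 2 (Fin.ext e)) (by decide)
  have n13 : (s 1).val ≠ (s 3).val := fun e => absurd (hinj 1 3 (Fin.ext e)) (by decide)
  have n24 : (s 2).val ≠ (s 4).val := fun e => absurd (hinj 2 4 (Fin.ext e)) (by decide)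
  have n35 : (s 3).val ≠ (s 5).val := fun e => absurd (hinj 3 5 (Fin.ext e)) (by decide)
  have l0 := (s 0).isLt
  have l1 := (s 1).isLt
  have l2 := (s 2).isLt
  have l3 := (s 3).isLt
  have l4 := (s 4).isLt
  have l5 := (s 5).isLt
  have hcases : (∀ i, s i = i) ∨ (∀ i, s i = Fin.rev i) := by
    by_cases h0 : (s 0).val < (s 1).val
    · left
      have e0 : (s 0).val = 0 := by omega
      have e1 : (s 1).val = 1 := by omega
      have e2 : (s 2).val = 2 := by omega
      have e3 : (s 3).val = 3 := by omega
      have e4 : (s 4).val = 4 := by omega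
      have e5 : (s 5).val = 5 := by omega
      intro i
      apply Fin.ext
      fin_cases i <;> assumption
    · right
      have e0 : (s 0).val = 5 := by omega
      have e1 : (s 1).val = 4 := by omega
      have e2 : (s 2).val = 3 := by omega
      have e3 : (s 3).val = 2 := by omega
      have e4 : (s 4).val = 1 := by omega
      have e5 : (s 5).val = 0 := by omega
      intro i
      apply Fin.ext
      fin_cases i <;> assumption
  rcases hcases with hc | hc
  · left
    apply Copy.ext
    intro i
    rw [← hs i, hc i]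
  · right
    apply Copy.ext
    intro i
    rw [← hs i, hc i, revCopy_apply]

theorem rev_ne (f : Copy (pathGraph 6) G) : revCopy f ≠ f := by
  intro h
  have h1 : revCopy f 0 = f 0 := by rw [h]
  rw [revCopy_apply] at h1
  have := f.injective h1
  exact absurd this (by decide)

end

section
variable {V : Type*} [Fintype V] [DecidableEq V] (G : SimpleGraph V) [DecidableRel G.Adj]

theorem two_mul_copyCount : 2 * G.copyCount (pathGraph 6) = (PT G univ).card := by
  classical
  have : Fintype {f : pathGraph 6 →g G // Function.Injective f} := by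
    have : Fintype (pathGraph 6 →g G) :=
      Fintype.ofInjective (fun f : pathGraph 6 →g G => (f : Fin 6 → V)) DFunLike.coe_injective
    infer_instance
  rw [copyCount_eq_card_image_copyToSubgraph]
  have h1 : (PT G univ).card = (univ : Finset ((pathGraph 6).Copy G)).card := by
    symm
    apply card_bij (fun (f : (pathGraph 6).Copy G) _ => (f : Fin 6 → V))
    · intro f _
      rw [mem_PT]
      exact ⟨f.injective, fun i => copy_adj f (by simp), fun i => mem_univ _⟩
    · intro f _ g _ h
      exact Copy.ext (fun i => congrFun h i)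
    · intro w hw
      rw [mem_PT] at hw
      refine ⟨mkCopy w hw.1 ?_, mem_univ _, ?_⟩
      · intro i j hij
        have hi : i.val < 5 := by have := j.isLt; omega
        have := hw.2.1 ⟨i.val, hi⟩
        have e1 : (⟨i.val, hi⟩ : Fin 5).castSucc = i := Fin.ext rfl
        have e2 : (⟨i.val, hi⟩ : Fin 5).succ = j := Fin.ext (by simp [hij])
        rw [e1, e2] at this
        exact this
      · funext i
        rfl
  rw [h1, card_eq_sum_card_image (Copy.toSubgraph (A := pathGraph 6) (B := G)) univ]
  have h2 : ∀ S ∈ univ.image (Copy.toSubgraph (A := pathGraph 6) (B := G)),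
      (univ.filter (fun f : (pathGraph 6).Copy G => f.toSubgraph = S)).card = 2 := by
    intro S hS
    rw [mem_image] at hS
    obtain ⟨f, -, rfl⟩ := hS
    have : univ.filter (fun g : (pathGraph 6).Copy G => g.toSubgraph = f.toSubgraph) =
        {f, revCopy f} := by
      ext g
      rw [mem_filter, mem_insert, mem_singleton]
      constructor
      · rintro ⟨-, h⟩
        exact eq_or_rev f g h
      · rintro (rfl | rfl)
        · exact ⟨mem_univ _, rfl⟩
        · exact ⟨mem_univ _, toSubgraph_rev f⟩
    rw [this, card_pair (rev_ne f).symm]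
  rw [sum_congr rfl h2, sum_const, smul_eq_mul, mul_comm]

theorem short_of_free (h : (pathGraph 8).Free G) : Short G univ 8 := by
  apply short_of_ne
  intro l hl hlen
  apply h
  refine ⟨mkCopy (fun i : Fin 8 => l[i.val]'(by rw [hlen]; exact i.isLt)) ?_ ?_⟩
  · intro i j hij
    exact Fin.ext ((List.Nodup.getElem_inj_iff hl.1).mp hij)
  · intro i j hij
    have hc := hl.2.1
    rw [List.isChain_iff_getElem] at hc
    have hj : i.val + 1 < l.length := by rw [hlen, hij]; exact j.isLt
    have := hc i.val hj
    simp only [hij] at this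
    exact this

theorem copyCount_le (h : (pathGraph 8).Free G) :
    G.copyCount (pathGraph 6) ≤ exN (Fintype.card V) := by
  have h1 := upper_bound (G := G) (Fintype.card V) univ (by simp) (short_of_free G h)
  have h2 := two_mul_copyCount G
  omega

end

end Pool.Agent.Lib.MP_f77bf6_co
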