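import Mathlib
import Pool.Agent.Lib.MP_f77bf6_co.Count

set_option autoImplicit false
set_option linter.unusedSectionVars false
set_option linter.unusedVariables false

/-!
# The extremal graphs
-/

namespace Pool.Agent.Lib.MP_f77bf6_co

open Finset SimpleGraph

/-- `K_7` (or `K_n` if `n < 7`) together with isolated vertices. -/
def KK (n : ℕ) : SimpleGraph (Fin n) where
  Adj x y := x ≠ y ∧ x.val < 7 ∧ y.val < 7
  symm := ⟨fun _ _ h => ⟨h.1.symm, h.2.2, h.2.1⟩⟩
  loopless := ⟨fun _ h => h.1 rfl⟩

/-- Three vertices joined to everything. -/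
def KE (n : ℕ) : SimpleGraph (Fin n) where
  Adj x y := x ≠ y ∧ (x.val < 3 ∨ y.val < 3)
  symm := ⟨fun _ _ h => ⟨h.1.symm, h.2.symm⟩⟩
  loopless := ⟨fun _ h => h.1 rfl⟩

theorem KK_free (n : ℕ) : (pathGraph 8).Free (KK n) := by
  rintro ⟨f⟩
  have h : ∀ i : Fin 8, (f i).val < 7 := by
    intro i
    by_cases hi : i.val = 7
    · have := copy_adj f (i := 6) (j := 7) rfl
      have e : i = 7 := Fin.ext hi
      rw [e]
      exact this.2.2
    · have hlt : i.val + 1 < 8 := by have := i.isLt; omega
      have := copy_adj f (i := i) (j := ⟨i.val + 1, hlt⟩) rfl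
      exact this.2.1
  have hinj : Function.Injective (fun i : Fin 8 => (⟨(f i).val, h i⟩ : Fin 7)) := by
    intro i j hij
    have h1 : (f i).val = (f j).val := by
      simp only [Fin.mk.injEq] at hij
      exact hij
    exact f.injective (Fin.ext h1)
  have := Fintype.card_le_of_injective _ hinj
  simp at this

theorem KE_free (n : ℕ) : (pathGraph 8).Free (KE n) := by
  rintro ⟨f⟩
  have h : ∀ i : Fin 4, ∃ j : Fin 8, j.val / 2 = i.val ∧ (f j).val < 3 := by
    intro i
    have hi := i.isLt
    have := copy_adj f (i := ⟨2 * i.val, by omega⟩) (j := ⟨2 * i.val + 1, by omega⟩) rfl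
    rcases this.2 with h | h
    · exact ⟨⟨2 * i.val, by omega⟩, by simp only; omega, h⟩
    · exact ⟨⟨2 * i.val + 1, by omega⟩, by simp only; omega, h⟩
  choose g hg1 hg2 using h
  have hinj : Function.Injective (fun i : Fin 4 => (⟨(f (g i)).val, hg2 i⟩ : Fin 3)) := by
    intro i j hij
    have h0 : (f (g i)).val = (f (g j)).val := by
      simp only [Fin.mk.injEq] at hij
      exact hij
    have h1 : g i = g j := f.injective (Fin.ext h0)
    apply Fin.ext
    rw [← hg1 i, ← hg1 j, h1]
  have := Fintype.card_le_of_injective _ hinj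
  simp at this

instance (n : ℕ) : DecidableRel (KK n).Adj := fun x y =>
  inferInstanceAs (Decidable (x ≠ y ∧ x.val < 7 ∧ y.val < 7))

instance (n : ℕ) : DecidableRel (KE n).Adj := fun x y =>
  inferInstanceAs (Decidable (x ≠ y ∧ (x.val < 3 ∨ y.val < 3)))

theorem KK_card {n m : ℕ} (hm : m ≤ n) (hm7 : m ≤ 7) :
    m.descFactorial 6 ≤ (PT (KK n) univ).card := by
  have h : (univ : Finset (Fin 6 ↪ Fin m)).card = m.descFactorial 6 := by
    rw [card_univ, Fintype.card_embedding_eq]
    simp
  rw [← h]
  apply card_le_card_of_injOn (fun e i => Fin.castLE hm (e i))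
  · intro e _
    rw [mem_coe, mem_PT]
    refine ⟨fun i j hij => e.injective (Fin.castLE_injective hm hij), ?_, fun i => mem_univ _⟩
    intro i
    refine ⟨?_, ?_, ?_⟩
    · intro hij
      have := e.injective (Fin.castLE_injective hm hij)
      exact absurd (congrArg Fin.val this) (by simp)
    · have := (e i.castSucc).isLt
      simp only [Fin.val_castLE]
      omega
    · have := (e i.succ).isLt
      simp only [Fin.val_castLE]
      omega
  · intro e _ e' _ hee
    ext i
    have := congrFun hee i
    have := Fin.castLE_injective hm this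
    rw [this]

/-- The four patterns: positions of the independent vertices (`inl`) and of the hubs (`inr`). -/
def patt : Fin 4 → Fin 6 → Fin 3 ⊕ Fin 3
  | 0 => ![Sum.inl 0, Sum.inr 0, Sum.inl 1, Sum.inr 1, Sum.inl 2, Sum.inr 2]
  | 1 => ![Sum.inl 0, Sum.inr 0, Sum.inl 1, Sum.inr 1, Sum.inr 2, Sum.inl 2]
  | 2 => ![Sum.inl 0, Sum.inr 0, Sum.inr 1, Sum.inl 1, Sum.inr 2, Sum.inl 2]
  | 3 => ![Sum.inr 0, Sum.inl 0, Sum.inr 1, Sum.inl 1, Sum.inr 2, Sum.inl 2]

theorem patt_inj : ∀ t i j, patt t i = patt t j → i = j := by decide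
theorem patt_surj : ∀ t x, ∃ i, patt t i = x := by decide
theorem patt_adj : ∀ (t : Fin 4) (i : Fin 5),
    (patt t i.castSucc).isLeft = false ∨ (patt t i.succ).isLeft = false := by decide
theorem patt_ne : ∀ t t', (∀ i, (patt t i).isLeft = (patt t' i).isLeft) → t = t' := by decide

/-- The path with pattern `t`, hubs ordered by `σ` and other vertices given by `e`. -/
def mkW (m : ℕ) (q : Fin 4 × Equiv.Perm (Fin 3) × (Fin 3 ↪ Fin m)) (i : Fin 6) : Fin (3 + m) :=
  Sum.elim (fun a => Fin.natAdd 3 (q.2.2 a)) (fun b => Fin.castAdd m (q.2.1 b)) (patt q.1 i)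

theorem mkW_lt (m : ℕ) (q : Fin 4 × Equiv.Perm (Fin 3) × (Fin 3 ↪ Fin m)) (i : Fin 6) :
    (mkW m q i).val < 3 ↔ (patt q.1 i).isLeft = false := by
  unfold mkW
  rcases patt q.1 i with a | b
  · simp
  · simp

theorem mkW_inj (m : ℕ) (q : Fin 4 × Equiv.Perm (Fin 3) × (Fin 3 ↪ Fin m)) :
    Function.Injective (mkW m q) := by
  intro i j hij
  apply patt_inj q.1
  unfold mkW at hij
  rcases h1 : patt q.1 i with a | b <;> rcases h2 : patt q.1 j with a' | b' <;>
    rw [h1, h2] at hij <;> simp only [Sum.elim_inl, Sum.elim_inr] at hij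
  · have := q.2.2.injective (Fin.natAdd_injective _ _ hij)
    rw [this]
  · have := congrArg Fin.val hij
    have h3 := (q.2.1 b').isLt
    simp only [Fin.val_natAdd, Fin.val_castAdd] at this
    omega
  · have := congrArg Fin.val hij
    have h3 := (q.2.1 b).isLt
    simp only [Fin.val_natAdd, Fin.val_castAdd] at this
    omega
  · have := q.2.1.injective (Fin.castAdd_injective _ _ hij)
    rw [this]

theorem KE_card (m : ℕ) : 24 * (m * (m - 1) * (m - 2)) ≤ (PT (KE (3 + m)) univ).card := by
  have h : (univ : Finset (Fin 4 × Equiv.Perm (Fin 3) × (Fin 3 ↪ Fin m))).card =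
      24 * (m * (m - 1) * (m - 2)) := by
    rw [card_univ, Fintype.card_prod, Fintype.card_prod, Fintype.card_embedding_eq,
      Fintype.card_perm]
    simp only [Fintype.card_fin]
    have h3 : m.descFactorial 3 = m * (m - 1) * (m - 2) := by
      simp only [Nat.descFactorial_succ, Nat.descFactorial_zero]
      rw [Nat.sub_zero, mul_one]
      ring
    rw [h3]
    have : Nat.factorial 3 = 6 := rfl
    rw [this]
    ring
  rw [← h]
  apply card_le_card_of_injOn (mkW m)
  · intro q _
    rw [mem_coe, mem_PT]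
    refine ⟨mkW_inj m q, ?_, fun i => mem_univ _⟩
    intro i
    refine ⟨?_, ?_⟩
    · intro hij
      have := mkW_inj m q hij
      exact absurd (congrArg Fin.val this) (by simp)
    · rw [mkW_lt, mkW_lt]
      exact patt_adj q.1 i
  · rintro ⟨t, σ, e⟩ _ ⟨t', σ', e'⟩ _ hqq
    have ht : t = t' := by
      apply patt_ne
      intro i
      have h1 := mkW_lt m (t, σ, e) i
      have h2 := mkW_lt m (t', σ', e') i
      rw [hqq] at h1
      have h3 := h1.symm.trans h2
      simp only at h3
      rcases h4 : (patt t i).isLeft with _ | _ <;> rcases h5 : (patt t' i).isLeft with _ | _ <;>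
        simp_all
    subst ht
    have hσ : σ = σ' := by
      ext b
      obtain ⟨i, hi⟩ := patt_surj t (Sum.inr b)
      have := congrFun hqq i
      unfold mkW at this
      simp only [hi, Sum.elim_inr] at this
      rw [Fin.castAdd_injective _ _ this]
    have he : e = e' := by
      ext a
      obtain ⟨i, hi⟩ := patt_surj t (Sum.inl a)
      have := congrFun hqq i
      unfold mkW at this
      simp only [hi, Sum.elim_inl] at this
      rw [Fin.natAdd_injective _ _ this]
    rw [hσ, he]

theorem extremal_key (n : ℕ) (G : SimpleGraph (Fin n)) [DecidableRel G.Adj]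
    (hG : (pathGraph 8).Free G) (h : 2 * exN n ≤ (PT G univ).card) :
    G.copyCount (pathGraph 6) = exN n := by
  have h1 := copyCount_le G hG
  have h2 := two_mul_copyCount G
  rw [Fintype.card_fin] at h1
  omega

theorem exists_extremal (n : ℕ) : ∃ G : SimpleGraph (Fin n), (pathGraph 8).Free G ∧
    G.copyCount (pathGraph 6) = exN n := by
  rcases Nat.lt_or_ge n 11 with h11 | h11
  · refine ⟨KK n, KK_free n, extremal_key n _ (KK_free n) ?_⟩
    rcases Nat.lt_or_ge n 7 with h7 | h7
    · have := KK_card (n := n) (m := n) le_rfl (by omega)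
      refine le_trans ?_ this
      interval_cases n <;> decide
    · have := KK_card (n := n) (m := 7) h7 le_rfl
      refine le_trans ?_ this
      interval_cases n <;> decide
  · refine ⟨KE n, KE_free n, extremal_key n _ (KE_free n) ?_⟩
    obtain ⟨m, rfl⟩ : ∃ m, n = 3 + m := ⟨n - 3, by omega⟩
    have := KE_card m
    refine le_trans ?_ this
    rw [exN_big h11]
    have e1 : 3 + m - 3 = m := by omega
    have e2 : 3 + m - 4 = m - 1 := by omega
    have e3 : 3 + m - 5 = m - 2 := by omega
    rw [e1, e2, e3]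
    omega

end Pool.Agent.Lib.MP_f77bf6_co
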